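import Pool.Agent.Work.MP_69fea5_lc.AK.Stmts

/-!
# Item [CST]: an invariant upper semicontinuous function on a minimal set is constant
-/

set_option autoImplicit false

namespace Pool.Agent.Work.MP_69fea5_lc.AK

namespace I_CST

theorem le_of_min {X : Type} [TopologicalSpace X] [Sys X] (K : Set X) (f : X → ℝ)
    (hK : MinSet K) (hf : ∀ (n : ℤ), ∀ x ∈ K, f (sh n x) = f x)
    (hc : ∀ a : ℝ, IsClosed (K ∩ {x | a ≤ f x})) {x y : X} (hx : x ∈ K) (hy : y ∈ K) :
    f x ≤ f y := by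
  have h := hK.min (K ∩ {z | f x ≤ f z}) (hc (f x)) ⟨x, hx, le_refl (f x)⟩
    (fun n z hz => ⟨hK.inv n z hz.1, by
      show f x ≤ f (sh n z)
      rw [hf n z hz.1]
      exact hz.2⟩) Set.inter_subset_left
  have hy' : y ∈ K ∩ {z | f x ≤ f z} := by rw [h]; exact hy
  exact hy'.2

end I_CST

theorem CST_pf : S_CST := by
  intro X _ _ K f hK hf hc x hx y hy
  exact le_antisymm (I_CST.le_of_min K f hK hf hc hx hy) (I_CST.le_of_min K f hK hf hc hy hx)

end Pool.Agent.Work.MP_69fea5_lc.AK
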