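import Pool.Agent.Work.MP_69fea5_lc.AK.Stmts

set_option autoImplicit false

namespace Pool.Agent.Work.MP_69fea5_lc.AK

open MeasureTheory Topology Set

namespace I_CYL

variable {k : ℕ}

theorem getElem?_wordOf (z : Om k) (L i : ℕ) (a : Fin k) :
    (wordOf z L)[i]? = some a ↔ i < 2 * L + 1 ∧ z ((i : ℤ) - L) = a := by
  unfold wordOf
  rw [List.getElem?_ofFn]
  split_ifs with h
  · simp [h]
  · simp [h]

theorem length_wordOf (z : Om k) (L : ℕ) : (wordOf z L).length = 2 * L + 1 := by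
  unfold wordOf; simp

theorem mem_cyl_wordOf (z z' : Om k) (L : ℕ) :
    z' ∈ cyl (wordOf z L) 0 ↔ ∀ j : ℤ, |j| ≤ L → z' j = z j := by
  constructor
  · intro h j hj
    rw [abs_le] at hj
    have h1 : 0 ≤ j + L := by linarith [hj.1]
    obtain ⟨i, hi⟩ := Int.eq_ofNat_of_zero_le h1
    have h2 := h i (z j) ((getElem?_wordOf z L i (z j)).2 ⟨by omega, by
      congr 1; omega⟩)
    rw [length_wordOf] at h2
    have h3 : (0 : ℤ) - (((2 * L + 1) / 2 : ℕ) : ℤ) + i = j := by omega
    rw [h3] at h2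
    exact h2
  · intro h i a hia
    obtain ⟨hi, ha⟩ := (getElem?_wordOf z L i a).1 hia
    rw [length_wordOf]
    have h3 : (0 : ℤ) - (((2 * L + 1) / 2 : ℕ) : ℤ) + i = (i : ℤ) - L := by omega
    rw [h3, ← ha]
    apply h
    rw [abs_le]
    constructor <;> omega

theorem clopen (w : Wd k) (n : ℤ) : IsClopen (cyl w n) := by
  have : cyl w n = ⋂ i ∈ Finset.range w.length, ⋂ a : Fin k,
      {z : Om k | w[i]? = some a → z (n - ((w.length / 2 : ℕ) : ℤ) + i) = a} := by
    ext z
    simp only [cyl, mem_ofPred_eq, mem_iInter, Finset.mem_range]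
    constructor
    · intro h i _ a ha
      exact h i a ha
    · intro h i a ha
      apply h i _ a ha
      by_contra hi
      rw [List.getElem?_eq_none (by omega)] at ha
      exact absurd ha (by simp)
  rw [this]
  apply Set.Finite.isClopen_biInter (Finset.finite_toSet _)
  intro i _
  apply isClopen_iInter_of_finite
  intro a
  by_cases h : w[i]? = some a
  · have : {z : Om k | w[i]? = some a → z (n - ((w.length / 2 : ℕ) : ℤ) + i) = a} =
        (fun z : Om k => z (n - ((w.length / 2 : ℕ) : ℤ) + i)) ⁻¹' {a} := by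
      ext z; simp [h]
    rw [this]
    exact (isClopen_discrete {a}).preimage (continuous_apply _)
  · have : {z : Om k | w[i]? = some a → z (n - ((w.length / 2 : ℕ) : ℤ) + i) = a} = univ := by
      ext z; simp [h]
    rw [this]
    exact isClopen_univ

theorem nhds_cyl (z : Om k) (U : Set (Om k)) (hU : U ∈ 𝓝 z) :
    ∃ L₀ : ℕ, ∀ L, L₀ ≤ L → cyl (wordOf z L) 0 ⊆ U := by
  obtain ⟨V, hVU, hV, hzV⟩ := mem_nhds_iff.1 hU
  rw [isOpen_pi_iff] at hV
  obtain ⟨I, u, hu, hI⟩ := hV z hzV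
  refine ⟨I.sup fun j => j.natAbs, fun L hL z' hz' => hVU (hI ?_)⟩
  rw [mem_cyl_wordOf] at hz'
  intro j hj
  rw [hz' j]
  · exact (hu j hj).2
  · have h1 : j.natAbs ≤ I.sup fun j => j.natAbs := Finset.le_sup (f := fun j : ℤ => j.natAbs) hj
    have h2 : |j| = (j.natAbs : ℤ) := Int.abs_eq_natAbs j
    have h3 : j.natAbs ≤ L := h1.trans hL
    rw [h2]
    exact_mod_cast h3

theorem unif (B : Set (Om k)) (hB : IsClopen B) :
    ∃ L₀ : ℕ, ∀ L, L₀ ≤ L → ∀ z ∈ B, cyl (wordOf z L) 0 ⊆ B := by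
  have h0 : ∀ z ∈ B, ∃ L₀ : ℕ, cyl (wordOf z L₀) 0 ⊆ B := fun z hz => by
    obtain ⟨L, h⟩ := nhds_cyl z B (hB.isOpen.mem_nhds hz)
    exact ⟨L, h L le_rfl⟩
  choose! f hf using h0
  have hself : ∀ (z : Om k) L, z ∈ cyl (wordOf z L) 0 := fun z L => by
    rw [mem_cyl_wordOf]; exact fun _ _ => rfl
  obtain ⟨t, ht, hcov⟩ := hB.isClosed.isCompact.elim_nhds_subcover (fun z => cyl (wordOf z (f z)) 0)
    (fun z _ => (clopen _ _).isOpen.mem_nhds (hself z _))
  refine ⟨t.sup f, fun L hL z hz z' hz' => ?_⟩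
  obtain ⟨y, hy, hzy⟩ := mem_iUnion₂.1 (hcov hz)
  apply hf y (ht y hy)
  rw [mem_cyl_wordOf] at hz' hzy ⊢
  intro j hj
  have h1 : f y ≤ t.sup f := Finset.le_sup hy
  rw [hz' j (by have : (f y : ℤ) ≤ L := by exact_mod_cast h1.trans hL
                omega), hzy j hj]

end I_CYL

theorem CYL_pf : S_CYL := by
  intro k
  refine ⟨fun w n => I_CYL.clopen w n, ?_, ?_, fun z z' L => I_CYL.mem_cyl_wordOf z z' L,
    fun z U hU => I_CYL.nhds_cyl z U hU, fun B hB => I_CYL.unif B hB, ?_⟩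
  · intro w n a z
    constructor
    · intro h i b hb
      have := h i b hb
      change z _ = b at this
      rw [← this]; congr 1; ring
    · intro h i b hb
      have := h i b hb
      change z _ = b
      rw [← this]; congr 1; ring
  · intro z L
    rw [I_CYL.mem_cyl_wordOf]
    exact fun _ _ => rfl
  · intro w r hr z hz
    have := hz (w.length / 2) r hr
    simpa using this

end Pool.Agent.Work.MP_69fea5_lc.AK
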