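import Pool.Agent.Work.MP_69fea5_lc.AK.Stmts

/-!
Item ENG of block [69fea5 ALLK]: the energy of a probability measure on `Om k`.
-/

set_option autoImplicit false

namespace Pool.Agent.Work.MP_69fea5_lc.AK

open MeasureTheory Topology Set Filter
open scoped NNReal

namespace I_ENG

variable {k : ℕ}

lemma sm : Summable fun i : ℕ => ((1 : ℝ) / 2) ^ i := summable_geometric_two

lemma val_nonneg (m : PM k) (B : Set (Om k)) : (0 : ℝ) ≤ (m B : ℝ) := (m B).2

lemma val_le_one (m : PM k) (B : Set (Om k)) : (m B : ℝ) ≤ 1 := by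
  exact_mod_cast m.apply_le_one B

lemma sq_bd (m : PM k) (B : Set (Om k)) : (m B : ℝ) ^ 2 ≤ 1 := by
  have h0 := val_nonneg m B
  have h1 := val_le_one m B
  nlinarith

lemma sqd_bd (m m' : PM k) (B : Set (Om k)) : ((m B : ℝ) - (m' B : ℝ)) ^ 2 ≤ 1 := by
  have h0 := val_nonneg m B
  have h1 := val_le_one m B
  have h2 := val_nonneg m' B
  have h3 := val_le_one m' B
  nlinarith

lemma tm_bd {a x : ℝ} (ha : 0 ≤ a) (hx : 0 ≤ x) (hx1 : x ≤ 1) : ‖a * x‖ ≤ a := by
  rw [Real.norm_of_nonneg (mul_nonneg ha hx)]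
  nlinarith

lemma sF (m : PM k) : Summable fun i : ℕ => ((1 : ℝ) / 2) ^ i * ((m (cyl (wd k i) 0) : ℝ)) ^ 2 :=
  Summable.of_norm_bounded sm fun i => tm_bd (by positivity) (by positivity) (sq_bd m _)

lemma sD (m m' : PM k) : Summable fun i : ℕ =>
    ((1 : ℝ) / 2) ^ i * ((m (cyl (wd k i) 0) : ℝ) - (m' (cyl (wd k i) 0) : ℝ)) ^ 2 :=
  Summable.of_norm_bounded sm fun i => tm_bd (by positivity) (by positivity) (sqd_bd m m' _)

lemma wd_encode (w : Wd k) : wd k (Encodable.encode w) = w := by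
  simp [wd]

/-- the average of two measures -/
noncomputable def avM (m m' : PM k) : Measure (Om k) :=
  (2 : ENNReal)⁻¹ • ((m : Measure (Om k)) + (m' : Measure (Om k)))

instance avM_prob (m m' : PM k) : IsProbabilityMeasure (avM m m') := by
  constructor
  unfold avM
  rw [Measure.smul_apply, Measure.add_apply, measure_univ, measure_univ, smul_eq_mul,
    one_add_one_eq_two]
  exact ENNReal.inv_mul_cancel (by simp) (by simp)

/-- the same as a point of `PM k` -/
noncomputable def av (m m' : PM k) : PM k := ⟨avM m m', avM_prob m m'⟩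

lemma coe_val (m : PM k) (B : Set (Om k)) : (m B : ℝ) = ((m : Measure (Om k)) B).toReal := rfl

lemma av_val (m m' : PM k) (B : Set (Om k)) : (av m m' B : ℝ) = ((m B : ℝ) + (m' B : ℝ)) / 2 := by
  rw [coe_val, coe_val, coe_val]
  change ((avM m m') B).toReal = _
  unfold avM
  rw [Measure.smul_apply, Measure.add_apply, smul_eq_mul, ENNReal.toReal_mul,
    ENNReal.toReal_add (measure_ne_top _ _) (measure_ne_top _ _), ENNReal.toReal_inv]
  simp only [ENNReal.toReal_ofNat]
  ring

end I_ENG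

open I_ENG in
theorem ENG_pf (hCYL : S_CYL) (hPMB : S_PMB) : S_ENG := by
  intro k
  have hcl : ∀ (w : Wd k) (n : ℤ), IsClopen (cyl w n) := (hCYL k).1
  obtain ⟨_, hsh, hct, hsep, _⟩ := hPMB k
  have hc : ∀ w : Wd k, Continuous fun m : PM k => ((m (cyl w 0) : ℝ≥0) : ℝ) := fun w =>
    NNReal.continuous_coe.comp (hct _ (hcl w 0))
  refine ⟨?_, ?_, ?_, ?_, ?_⟩
  · refine continuous_tsum (u := fun i : ℕ => ((1 : ℝ) / 2) ^ i) (fun i => ?_) sm
      (fun i m => tm_bd (by positivity) (by positivity) (sq_bd m _))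
    exact continuous_const.mul ((hc _).pow 2)
  · intro m
    refine ⟨tsum_nonneg fun i => by positivity, ?_⟩
    rw [← tsum_geometric_two]
    refine (sF m).tsum_le_tsum (fun i => ?_) sm
    have h1 := sq_bd m (cyl (wd k i) 0)
    have h2 : (0 : ℝ) ≤ (1 / 2) ^ i := by positivity
    nlinarith
  · refine continuous_tsum (u := fun i : ℕ => ((1 : ℝ) / 2) ^ i) (fun i => ?_) sm
      (fun i p => tm_bd (by positivity) (by positivity) (sqd_bd p.1 p.2 _))
    exact continuous_const.mul
      ((((hc _).comp continuous_fst).sub ((hc _).comp continuous_snd)).pow 2)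
  · intro m m'
    refine ⟨tsum_nonneg fun i => by positivity, ?_, ?_⟩
    · unfold d2
      refine tsum_congr fun i => ?_
      ring
    · intro h0
      apply hsep
      intro w
      have hz : (fun i : ℕ => ((1 : ℝ) / 2) ^ i *
          ((m (cyl (wd k i) 0) : ℝ) - (m' (cyl (wd k i) 0) : ℝ)) ^ 2) = 0 :=
        (hasSum_zero_iff_of_nonneg fun i => by positivity).1 (by
          have h := (sD m m').hasSum
          have h' : ∑' i : ℕ, ((1 : ℝ) / 2) ^ i *
            ((m (cyl (wd k i) 0) : ℝ) - (m' (cyl (wd k i) 0) : ℝ)) ^ 2 = 0 := h0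
          rwa [h'] at h)
      have h1 := congrFun hz (Encodable.encode w)
      simp only [wd_encode, Pi.zero_apply] at h1
      have h2 : ((m (cyl w 0) : ℝ) - (m' (cyl w 0) : ℝ)) ^ 2 = 0 := by
        rcases mul_eq_zero.1 h1 with h | h
        · exfalso
          have : (0 : ℝ) < (1 / 2) ^ (Encodable.encode w) := by positivity
          linarith
        · exact h
      have h3 : (m (cyl w 0) : ℝ) - (m' (cyl w 0) : ℝ) = 0 := by
        exact pow_eq_zero_iff (two_ne_zero) |>.1 h2
      exact NNReal.coe_injective (sub_eq_zero.1 h3)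
  · intro m m'
    refine ⟨av m m', fun B _ => av_val m m' B, fun n => ?_⟩
    have e : ∀ (q : PM k) (w : Wd k), ((sh n q : PM k) (cyl w 0) : ℝ) = (q (cyl w (0 + n)) : ℝ) :=
      fun q w => by rw [hsh q w 0 n]
    have h1 : FF (sh n (av m m')) = ∑' i : ℕ, ((((1 : ℝ) / 2) ^ i *
        (((sh n m : PM k) (cyl (wd k i) 0) : ℝ)) ^ 2 / 2 +
        ((1 : ℝ) / 2) ^ i * (((sh n m' : PM k) (cyl (wd k i) 0) : ℝ)) ^ 2 / 2) -
        ((1 : ℝ) / 2) ^ i * (((sh n m : PM k) (cyl (wd k i) 0) : ℝ) -
          ((sh n m' : PM k) (cyl (wd k i) 0) : ℝ)) ^ 2 / 4) := by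
      unfold FF
      refine tsum_congr fun i => ?_
      rw [e, e, e, av_val]
      ring
    rw [h1, (((sF (sh n m)).div_const 2).add ((sF (sh n m')).div_const 2)).tsum_sub
      ((sD (sh n m) (sh n m')).div_const 4),
      ((sF (sh n m)).div_const 2).tsum_add ((sF (sh n m')).div_const 2), tsum_div_const,
      tsum_div_const, tsum_div_const]
    unfold FF d2
    ring

end Pool.Agent.Work.MP_69fea5_lc.AK
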