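import Pool.Agent.Work.MP_69fea5_lc.AK.Stmts

/-!
# Item IMG: images of minimal sets
-/

set_option autoImplicit false

namespace Pool.Agent.Work.MP_69fea5_lc.AK

open MeasureTheory Topology Set Filter

theorem IMG_pf : S_IMG := by
  intro X Y _ _ _ _ _ _ K f hK hf heq
  have hcK : IsCompact K := hK.closed.isCompact
  refine ⟨(hcK.image_of_continuousOn hf).isClosed, hK.ne.image f, ?_, ?_⟩
  · rintro n _ ⟨x, hx, rfl⟩
    exact ⟨sh n x, hK.inv n x hx, heq n x hx⟩
  · intro L hL hLne hLinv hLsub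
    have hcl : IsClosed (K ∩ f ⁻¹' L) := hf.preimage_isClosed_of_isClosed hK.closed hL
    have hne : (K ∩ f ⁻¹' L).Nonempty := by
      obtain ⟨y, hy⟩ := hLne
      obtain ⟨x, hx, rfl⟩ := hLsub hy
      exact ⟨x, hx, hy⟩
    have hinv : Inv (K ∩ f ⁻¹' L) := by
      rintro n x ⟨hx, hxL⟩
      refine ⟨hK.inv n x hx, ?_⟩
      show f (sh n x) ∈ L
      rw [heq n x hx]
      exact hLinv n _ hxL
    have hEq := hK.min _ hcl hne hinv inter_subset_left
    refine Subset.antisymm hLsub ?_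
    rintro _ ⟨x, hx, rfl⟩
    have hx' : x ∈ K ∩ f ⁻¹' L := by
      rw [hEq]
      exact hx
    exact hx'.2

end Pool.Agent.Work.MP_69fea5_lc.AK
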