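import Pool.Agent.Work.MP_69fea5_lc.AK.Stmts

/-! Item OMG of block [69fea5 ALLK]: limit sets at `+∞`. -/

set_option autoImplicit false

namespace Pool.Agent.Work.MP_69fea5_lc.AK

open MeasureTheory Topology Set Filter

theorem OMG_pf : S_OMG := by
  intro X _ _ x
  refine ⟨?_, ?_, ?_⟩
  · rw [← isOpen_compl_iff, isOpen_iff_mem_nhds]
    intro q hq
    have hq' : ¬ ∀ U ∈ 𝓝 q, ∀ N : ℕ, ∃ n : ℕ, N ≤ n ∧ sh (n : ℤ) x ∈ U := hq
    push Not at hq'
    obtain ⟨U, hU, N, hN⟩ := hq'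
    have h1 : ∀ᶠ q' in 𝓝 q, U ∈ 𝓝 q' := eventually_mem_nhds_iff.2 hU
    filter_upwards [h1] with q' hq'
    intro h
    obtain ⟨n, hn, hm⟩ := h U hq' N
    exact hN n hn hm
  · intro n q hq U hU N
    have h1 : sh n ⁻¹' U ∈ 𝓝 q := (sh_cont n).continuousAt hU
    obtain ⟨m, hm, hmem⟩ := hq _ h1 (N + n.natAbs)
    refine ⟨(n + m).toNat, ?_, ?_⟩
    · omega
    · have h2 : ((n + m).toNat : ℤ) = n + m := by omega
      rw [h2, sh_add]
      exact hmem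
  · intro hc
    obtain ⟨q, hq⟩ : ∃ q, MapClusterPt q atTop (fun m : ℕ => sh (m : ℤ) x) :=
      exists_clusterPt_of_compactSpace _
    refine ⟨q, fun U hU N => ?_⟩
    have h1 := mapClusterPt_iff_frequently.1 hq U hU
    obtain ⟨n, hn, hmem⟩ := (frequently_atTop.1 h1) N
    exact ⟨n, hn, hmem⟩

end Pool.Agent.Work.MP_69fea5_lc.AK
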