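import Pool.Agent.Work.MP_69fea5_lc.AK.Stmts

/-!
# Block [69fea5 ALLK], item ORB: orbit closures
-/

set_option autoImplicit false

namespace Pool.Agent.Work.MP_69fea5_lc.AK

open MeasureTheory Topology Set Filter
open scoped NNReal

namespace I_ORB

variable {X : Type} [TopologicalSpace X] [Sys X]

theorem closed_orb (x : X) : IsClosed (orb x) := isClosed_closure

theorem mem_orb (x : X) : x ∈ orb x :=
  subset_closure ⟨0, sh_zero x⟩

theorem inv_closure {S : Set X} (h : Inv S) : Inv (closure S) := fun n _ hx =>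
  map_mem_closure (sh_cont n) hx (fun y hy => h n y hy)

theorem inv_range (x : X) : Inv (Set.range fun n : ℤ => sh n x) := by
  rintro m _ ⟨n, rfl⟩
  exact ⟨m + n, sh_add m n x⟩

theorem inv_orb (x : X) : Inv (orb x) := inv_closure (inv_range x)

theorem orb_subset (x : X) (K : Set X) (hK : IsClosed K) (hI : Inv K) (hx : x ∈ K) :
    orb x ⊆ K := by
  refine closure_minimal ?_ hK
  rintro _ ⟨n, rfl⟩
  exact hI n x hx

theorem orb_eq (x : X) (K : Set X) (hK : MinSet K) (hx : x ∈ K) : orb x = K :=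
  hK.min _ (closed_orb x) ⟨x, mem_orb x⟩ (inv_orb x) (orb_subset x K hK.closed hK.inv hx)

theorem min_subset (K L : Set X) (hK : MinSet K) (hL : IsClosed L) (hI : Inv L)
    (h : (K ∩ L).Nonempty) : K ⊆ L := by
  have := hK.min (K ∩ L) (hK.closed.inter hL) h
    (fun n y hy => ⟨hK.inv n y hy.1, hI n y hy.2⟩) inter_subset_left
  rw [← this]
  exact inter_subset_right

theorem orb_sh (x : X) (n : ℤ) : orb (sh n x) = orb x := by
  unfold orb
  congr 1
  ext y
  constructor
  · rintro ⟨a, rfl⟩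
    exact ⟨a + n, sh_add a n x⟩
  · rintro ⟨a, rfl⟩
    refine ⟨a - n, ?_⟩
    change sh (a - n) (sh n x) = sh a x
    rw [← sh_add, sub_add_cancel]

end I_ORB

theorem ORB_pf : S_ORB := fun _ _ _ x =>
  ⟨I_ORB.closed_orb x, I_ORB.inv_orb x, I_ORB.mem_orb x, I_ORB.orb_subset x, I_ORB.orb_eq x,
    I_ORB.min_subset, I_ORB.orb_sh x⟩

end Pool.Agent.Work.MP_69fea5_lc.AK
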