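import Pool.Agent.Work.MP_69fea5_lc.AK.Stmts

set_option autoImplicit false

namespace Pool.Agent.Work.MP_69fea5_lc.AK

open MeasureTheory Topology Set Filter
open scoped NNReal

namespace I_PMB

/-- the cylinders of the words of points -/
def CC (k : ℕ) : Set (Set (Om k)) := {B | ∃ (z : Om k) (L : ℕ), B = cyl (wordOf z L) 0}

theorem cc_pi {k : ℕ}
    (h4 : ∀ (z z' : Om k) (L : ℕ), z' ∈ cyl (wordOf z L) 0 ↔ ∀ j : ℤ, |j| ≤ L → z' j = z j) :
    IsPiSystem (CC k) := by
  rintro _ ⟨z, L, rfl⟩ _ ⟨z', L', rfl⟩ ⟨y, hy, hy'⟩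
  refine ⟨y, max L L', ?_⟩
  rw [h4] at hy hy'
  ext q
  rw [mem_inter_iff, h4, h4, h4]
  constructor
  · rintro ⟨h1, h2⟩ j hj
    rcases le_total L L' with h | h
    · rw [max_eq_right h] at hj
      rw [h2 j hj, hy' j hj]
    · rw [max_eq_left h] at hj
      rw [h1 j hj, hy j hj]
  · intro h
    constructor
    · intro j hj
      rw [h j (hj.trans (by exact_mod_cast le_max_left L L')), hy j hj]
    · intro j hj
      rw [h j (hj.trans (by exact_mod_cast le_max_right L L')), hy' j hj]

end I_PMB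

theorem PMB_pf (hCYL : S_CYL) : S_PMB := by
  intro k
  obtain ⟨h1, h2, h3, h4, h5, -, -⟩ := hCYL k
  have p1 : ∀ (m : PM k) (n : ℤ) (B : Set (Om k)), MeasurableSet B →
      sh n m B = m {z | sh n z ∈ B} := fun m n B hB =>
    ProbabilityMeasure.map_apply m (sh_cont n).measurable.aemeasurable hB
  have p3 : ∀ B : Set (Om k), IsClopen B → Continuous fun m : PM k => m B := fun B hB => by
    rw [continuous_iff_continuousAt]
    intro m
    exact ProbabilityMeasure.tendsto_measure_of_isClopen_of_tendsto tendsto_id hB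
  have p4 : ∀ m m' : PM k, (∀ w : Wd k, m (cyl w 0) = m' (cyl w 0)) → m = m' := by
    intro m m' h
    refine ProbabilityMeasure.toMeasure_injective ?_
    have hb : TopologicalSpace.IsTopologicalBasis (I_PMB.CC k) := by
      refine TopologicalSpace.isTopologicalBasis_of_isOpen_of_nhds ?_ ?_
      · rintro _ ⟨z, L, rfl⟩
        exact (h1 _ _).isOpen
      · intro z U hz hU
        obtain ⟨L, hL⟩ := h5 z U (hU.mem_nhds hz)
        exact ⟨_, ⟨z, L, rfl⟩, h3 z L, hL L le_rfl⟩
    have hg : (inferInstance : MeasurableSpace (Om k)) = MeasurableSpace.generateFrom (I_PMB.CC k) :=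
      (BorelSpace.measurable_eq (α := Om k)).trans hb.borel_eq_generateFrom
    refine MeasureTheory.ext_of_generate_finite (I_PMB.CC k) hg (I_PMB.cc_pi h4) ?_ ?_
    · rintro _ ⟨z, L, rfl⟩
      have := h (wordOf z L)
      have e1 := ProbabilityMeasure.ennreal_coeFn_eq_coeFn_toMeasure m (cyl (wordOf z L) 0)
      have e2 := ProbabilityMeasure.ennreal_coeFn_eq_coeFn_toMeasure m' (cyl (wordOf z L) 0)
      change (m : Measure (Om k)) (cyl (wordOf z L) 0) = (m' : Measure (Om k)) (cyl (wordOf z L) 0)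
      rw [← e1, ← e2, this]
    · rw [measure_univ, measure_univ]
  refine ⟨p1, ?_, p3, p4, ?_⟩
  · intro m w n a
    rw [p1 m a _ (h1 w n).isOpen.measurableSet]
    congr 1
    ext z
    exact h2 w n a z
  · intro m F h
    rw [le_iff_ultrafilter]
    intro U hU
    obtain ⟨m'', hm''⟩ : ∃ m'' : PM k, (U : Filter (PM k)) ≤ 𝓝 m'' := by
      obtain ⟨x, -, hx⟩ := isCompact_univ.ultrafilter_le_nhds U (by simp)
      exact ⟨x, hx⟩
    have : m = m'' := by
      refine p4 _ _ fun w => ?_
      have a1 : Tendsto (fun m' : PM k => m' (cyl w 0)) U (𝓝 (m (cyl w 0))) := (h w).mono_left hU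
      have a2 : Tendsto (fun m' : PM k => m' (cyl w 0)) U (𝓝 (m'' (cyl w 0))) :=
        ((p3 _ (h1 w 0)).tendsto m'').mono_left hm''
      exact tendsto_nhds_unique a1 a2
    rw [this]
    exact hm''

end Pool.Agent.Work.MP_69fea5_lc.AK
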