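import Pool.Agent.Work.MP_69fea5_lc.AK.Stmts

/-!
Item USC: upper semicontinuity of the measure of the fibres of a closed set.
-/

set_option autoImplicit false

namespace Pool.Agent.Work.MP_69fea5_lc.AK

open MeasureTheory Topology Set Filter
open scoped NNReal

theorem USC_pf (hPMB : S_PMB) (hCLP : S_CLP) : S_USC := by
  intro k X _ K hK a
  rw [← isOpen_compl_iff, isOpen_iff_mem_nhds]
  rintro ⟨m, x⟩ hp
  have hp' : m {z | (z, x) ∈ K} < a := not_le.mp hp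
  have hclx : IsClosed {z : Om k | (z, x) ∈ K} := hK.preimage (by fun_prop)
  obtain ⟨C, hC, hKC, hCa⟩ := hCLP k m _ a hclx hp'
  have hcont : Continuous fun m' : PM k => m' C := (hPMB k).2.2.1 C hC
  have h1 : IsOpen {m' : PM k | m' C < a} := isOpen_lt hcont continuous_const
  have hcl : IsClosed (Prod.snd '' (K ∩ (Cᶜ ×ˢ (univ : Set X)))) :=
    isClosedMap_snd_of_compactSpace _ (hK.inter (hC.compl.isClosed.prod isClosed_univ))
  have h2 : IsOpen (Prod.snd '' (K ∩ (Cᶜ ×ˢ (univ : Set X))))ᶜ := hcl.isOpen_compl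
  have hx : x ∈ (Prod.snd '' (K ∩ (Cᶜ ×ˢ (univ : Set X))))ᶜ := by
    rintro ⟨⟨z, x'⟩, ⟨hzK, hzC, -⟩, rfl⟩
    exact hzC (hKC hzK)
  have hmem : {m' : PM k | m' C < a} ×ˢ (Prod.snd '' (K ∩ (Cᶜ ×ˢ (univ : Set X))))ᶜ ∈
      𝓝 (m, x) := (h1.prod h2).mem_nhds ⟨hCa, hx⟩
  refine Filter.mem_of_superset hmem ?_
  rintro ⟨m', x'⟩ ⟨hm', hx'⟩
  have hm'' : m' C < a := hm'
  have hle : m' {z : Om k | (z, x') ∈ K} ≤ m' C := by
    apply ProbabilityMeasure.apply_mono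
    intro z hz
    by_contra hzC
    exact hx' ⟨(z, x'), ⟨hz, hzC, mem_univ _⟩, rfl⟩
  exact not_le.mpr (lt_of_le_of_lt hle hm'')

end Pool.Agent.Work.MP_69fea5_lc.AK
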