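import Pool.Agent.Work.MP_69fea5_lc.AK.Stmts

/-!
Block [69fea5 ALLK], item ZORN: minimal sets exist.
-/

set_option autoImplicit false

namespace Pool.Agent.Work.MP_69fea5_lc.AK

open MeasureTheory Topology Set Filter

theorem ZORN_pf : S_ZORN := by
  intro X _ _ _ K hK hKne hKinv
  let P : Set (Set X) := {L | IsClosed L ∧ L.Nonempty ∧ Inv L}
  have hz := zorn_superset_nonempty P (by
    intro C hC hchain hCne
    refine ⟨⋂₀ C, ⟨isClosed_sInter fun s hs => (hC hs).1, ?_, ?_⟩, fun s hs => sInter_subset_of_mem hs⟩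
    · have hdir : DirectedOn (· ⊇ ·) C := by
        intro s hs t ht
        rcases hchain.total hs ht with h | h
        · exact ⟨s, hs, subset_rfl, h⟩
        · exact ⟨t, ht, h, subset_rfl⟩
      have : Nonempty C := hCne.to_subtype
      exact IsCompact.nonempty_sInter_of_directed_nonempty_isCompact_isClosed hdir
        (fun s hs => (hC hs).2.1) (fun s hs => (hC hs).1.isCompact) fun s hs => (hC hs).1
    · intro n x hx
      rw [mem_sInter] at hx ⊢
      exact fun s hs => (hC hs).2.2 n x (hx s hs)) K ⟨hK, hKne, hKinv⟩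
  obtain ⟨L, hLK, hL⟩ := hz
  refine ⟨L, hLK, hL.prop.1, hL.prop.2.1, hL.prop.2.2, fun L' h1 h2 h3 h4 => ?_⟩
  exact h4.antisymm (hL.le_of_le ⟨h1, h2, h3⟩ h4)

end Pool.Agent.Work.MP_69fea5_lc.AK
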