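import Pool.Agent.Work.MP_69fea5_lc.AK.Stmts

/-! Block [69fea5 ALLK], item SUP: the support of a probability measure on `Om k` (helper98). -/

set_option autoImplicit false

namespace Pool.Agent.Work.MP_69fea5_lc.AK

open MeasureTheory Topology Set Filter
open scoped NNReal

namespace I_SUP

variable {k : ℕ}

theorem coe_eq (m : PM k) (B : Set (Om k)) : ((m B : ℝ≥0) : ENNReal) = (m : Measure (Om k)) B :=
  ProbabilityMeasure.ennreal_coeFn_eq_coeFn_toMeasure m B

theorem pos_iff (m : PM k) (B : Set (Om k)) : 0 < m B ↔ 0 < (m : Measure (Om k)) B := by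
  rw [← coe_eq, ENNReal.coe_pos]

theorem one_iff (m : PM k) (B : Set (Om k)) : m B = 1 ↔ (m : Measure (Om k)) B = 1 := by
  rw [← coe_eq, ENNReal.coe_eq_one]

theorem supp_eq (m : PM k) : supp m = (m : Measure (Om k)).support := by
  rw [Measure.support_eq_forall_isOpen]
  ext z
  constructor
  · intro h u hz hu
    exact (pos_iff m u).1 (h u hu hz)
  · intro h u hu hz
    exact (pos_iff m u).2 (h u hz hu)

theorem ae_supp (m : PM k) : supp m ∈ ae (m : Measure (Om k)) := by
  rw [supp_eq]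
  exact Measure.support_mem_ae

end I_SUP

open I_SUP in
theorem SUP_pf (hCYL : S_CYL) (hPMB : S_PMB) : S_SUP := by
  intro k m
  obtain ⟨hC1, hC2, hC3, hC4, hC5, hC6, hC7⟩ := hCYL k
  obtain ⟨hP1, hP2, hP3, hP4, hP5⟩ := hPMB k
  have hcl : ∀ m : PM k, IsClosed (supp m) := fun m => by
    rw [supp_eq]; exact Measure.isClosed_support
  have hone : ∀ m : PM k, m (supp m) = 1 := fun m => by
    rw [one_iff, ← prob_compl_eq_zero_iff (hcl m).measurableSet]
    exact mem_ae_iff.1 (ae_supp m)
  have hmeet : ∀ (m : PM k) (U : Set (Om k)), 0 < m U → (U ∩ supp m).Nonempty := by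
    intro m U hU
    by_contra hne
    rw [not_nonempty_iff_eq_empty] at hne
    have hsub : U ⊆ (supp m)ᶜ := by
      intro z hz hz'
      exact (Set.mem_empty_iff_false z).1 (hne ▸ ⟨hz, hz'⟩)
    have h0 : (m : Measure (Om k)) U = 0 := measure_mono_null hsub (mem_ae_iff.1 (ae_supp m))
    exact absurd ((pos_iff m U).1 hU) (by rw [h0]; exact lt_irrefl _)
  refine ⟨hcl m, hone m, ?_, ?_, ?_, fun U _ hU => hmeet m U hU, ?_, ?_⟩
  · have h1 : (0 : ℝ≥0) < m univ := by
      rw [ProbabilityMeasure.coeFn_univ]; exact zero_lt_one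
    exact (hmeet m univ h1).mono inter_subset_right
  · intro z
    constructor
    · intro hz L
      exact hz _ (hC1 _ _).isOpen (hC3 z L)
    · intro hz U hU hzU
      obtain ⟨L₀, hL₀⟩ := hC5 z U (hU.mem_nhds hzU)
      exact lt_of_lt_of_le (hz L₀) (ProbabilityMeasure.apply_mono m (hL₀ L₀ le_rfl))
  · intro n z hz U hU hzU
    rw [hP1 m n U hU.measurableSet]
    exact hz _ (hU.preimage (sh_cont n)) hzU
  · intro K hK hmK
    have h1 : K ∈ ae (m : Measure (Om k)) := by
      rw [mem_ae_iff, prob_compl_eq_zero_iff hK.measurableSet]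
      exact (one_iff m K).1 hmK
    rw [supp_eq]
    exact Measure.support_subset_of_isClosed hK h1
  · intro z hz U hU
    obtain ⟨L₀, hL₀⟩ := hC5 z U hU
    have hpos : 0 < m (cyl (wordOf z L₀) 0) := hz _ (hC1 _ _).isOpen (hC3 z L₀)
    have hcont := hP3 (cyl (wordOf z L₀) 0) (hC1 _ _)
    have hev : ∀ᶠ m' in 𝓝 m, 0 < m' (cyl (wordOf z L₀) 0) :=
      hcont.continuousAt.eventually (lt_mem_nhds hpos)
    filter_upwards [hev] with m' hm'
    exact (hmeet m' _ hm').mono (inter_subset_inter_left _ (hL₀ L₀ le_rfl))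

end Pool.Agent.Work.MP_69fea5_lc.AK
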