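import Pool.Agent.Work.MP_69fea5_lc.AK.Stmts

/-!
# [69fea5 ALLK GLO]: `c` comes back to the new system
-/

set_option autoImplicit false

namespace Pool.Agent.Work.MP_69fea5_lc.AK

open MeasureTheory Topology Set Filter
open scoped NNReal

namespace I_GLO

variable {X : Type} [TopologicalSpace X] [Sys X]

theorem omg_iff (x q : X) :
    q ∈ omg x ↔ ∃ U : Ultrafilter ℕ, (U : Filter ℕ) ≤ atTop ∧
      Tendsto (fun n : ℕ => sh (n : ℤ) x) U (𝓝 q) := by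
  rw [← mapClusterPt_iff_ultrafilter, mapClusterPt_iff_frequently]
  constructor
  · intro h s hs
    rw [frequently_atTop]
    intro N
    obtain ⟨n, hn, hx⟩ := h s hs N
    exact ⟨n, hn, hx⟩
  · intro h s hs N
    obtain ⟨n, hn, hx⟩ := frequently_atTop.1 (h s hs) N
    exact ⟨n, hn, hx⟩

theorem exists_lim {Z : Type} [TopologicalSpace Z] [CompactSpace Z] (U : Ultrafilter ℕ)
    (s : ℕ → Z) : ∃ z, Tendsto s U (𝓝 z) := by
  obtain ⟨z, -, hz⟩ := isCompact_univ.ultrafilter_le_nhds (U.map s) (by simp)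
  exact ⟨z, hz⟩

theorem dist_lim {Z : Type} [TopologicalSpace Z] (D : Z → Z → ℝ)
    (hD : Continuous fun p : Z × Z => D p.1 p.2) (h0 : ∀ x y, 0 ≤ D x y) (W : Ultrafilter ℕ)
    (hW : (W : Filter ℕ) ≤ atTop) (s t : ℕ → Z) (hn : ∀ l : ℕ, D (s l) (t l) < 1 / ((l : ℝ) + 1))
    (a b : Z) (ha : Tendsto s W (𝓝 a)) (hb : Tendsto t W (𝓝 b)) : D a b = 0 := by
  have t1 : Tendsto (fun l => D (s l) (t l)) W (𝓝 (D a b)) :=
    (hD.tendsto (a, b)).comp (ha.prodMk_nhds hb)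
  have t2 : Tendsto (fun l => D (s l) (t l)) W (𝓝 0) := by
    have t3 : Tendsto (fun l : ℕ => 1 / ((l : ℝ) + 1)) W (𝓝 0) :=
      tendsto_one_div_add_atTop_nhds_zero_nat.mono_left hW
    exact squeeze_zero (fun l => h0 _ _) (fun l => (hn l).le) t3
  exact tendsto_nhds_unique t1 t2

theorem mem_lim {Z : Type} [TopologicalSpace Z] (S : Set Z) (hS : IsClosed S)
    (W : Ultrafilter ℕ) (s : ℕ → Z) (hs : ∀ l, s l ∈ S) (a : Z) (ha : Tendsto s W (𝓝 a)) :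
    a ∈ S := hS.mem_of_tendsto ha (Eventually.of_forall hs)

end I_GLO

open I_GLO in
theorem GLO_pf (hOMG : S_OMG) (hENG : S_ENG) (hPRX : S_PRX) (hGLX : S_GLX) (hGLM : S_GLM) :
    S_GLO := by
  intro k B _ _ _ _ M Y c v m hM hY hYA hvm hMc
  obtain ⟨⟨M', hM', hM's⟩, hproj⟩ := hGLX k B M Y hM hY hYA
  obtain ⟨hp1, -⟩ := hproj M' hM' hM's
  obtain ⟨⟨h, vh⟩, hh⟩ := hM.ne
  obtain ⟨U, hU, hlim⟩ := (omg_iff (c, v) (h, vh)).1 (hMc hh)
  obtain ⟨m1, hm1⟩ := exists_lim U (fun n : ℕ => sh (n : ℤ) m)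
  have hlim1 : Tendsto (fun n : ℕ => sh (n : ℤ) c) U (𝓝 h) :=
    ((continuous_fst.tendsto (h, vh)).comp hlim)
  have hlim2 : Tendsto (fun n : ℕ => sh (n : ℤ) v) U (𝓝 vh) :=
    ((continuous_snd.tendsto (h, vh)).comp hlim)
  -- `(h, m1) ∈ omg (c, m)`
  have ho : (h, m1) ∈ omg (c, m) := by
    rw [omg_iff]
    exact ⟨U, hU, hlim1.prodMk_nhds hm1⟩
  -- `(vh, m1) ∈ Y`
  have hy1 : (vh, m1) ∈ Y :=
    mem_lim Y hY.closed U (fun n : ℕ => (sh (n : ℤ) v, sh (n : ℤ) m))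
      (fun n => hY.inv (n : ℤ) (v, m) hvm) (vh, m1) (hlim2.prodMk_nhds hm1)
  obtain ⟨m2, hm2⟩ := hp1 (h, vh) hh
  have hy2 : (vh, m2) ∈ Y := (hM's hm2).1
  -- proximality
  have hprox : ∀ l : ℕ, ∃ n : ℤ, d2 (sh n m1) (sh n m2) < 1 / ((l : ℝ) + 1) := by
    intro l
    obtain ⟨n, hn, -⟩ := hPRX k B M hM vh m1 m2 (hYA hy1) (hYA hy2) (1 / ((l : ℝ) + 1))
      (by positivity)
    exact ⟨n, hn⟩
  choose n hn using hprox
  let W : Ultrafilter ℕ := hyperfilter ℕ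
  have hW : (W : Filter ℕ) ≤ atTop := Nat.hyperfilter_le_atTop
  obtain ⟨h', hh'⟩ := exists_lim W (fun l => sh (n l) h)
  obtain ⟨v', hv'⟩ := exists_lim W (fun l => sh (n l) vh)
  obtain ⟨a1, ha1⟩ := exists_lim W (fun l => sh (n l) m1)
  obtain ⟨a2, ha2⟩ := exists_lim W (fun l => sh (n l) m2)
  obtain ⟨-, -, hd2, hd0, -⟩ := hENG k
  have hd : d2 a1 a2 = 0 :=
    dist_lim d2 hd2 (fun x y => (hd0 x y).1) W hW (fun l => sh (n l) m1) (fun l => sh (n l) m2)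
      hn a1 a2 ha1 ha2
  have haa : a1 = a2 := (hd0 a1 a2).2.2 hd
  subst haa
  refine ⟨(h', a1), ?_, ?_⟩
  · rw [(hGLM k B M Y M' hM hY hYA hM' hM's (v, m) hvm).2]
    refine ⟨(h', (v', a1)), ?_, rfl⟩
    exact mem_lim M' hM'.closed W (fun l => (sh (n l) h, (sh (n l) vh, sh (n l) m2)))
      (fun l => hM'.inv (n l) (h, (vh, m2)) hm2) (h', (v', a1))
      (hh'.prodMk_nhds (hv'.prodMk_nhds ha2))
  · obtain ⟨hcl, hinv, -⟩ := hOMG (Om k × PM k) (c, m)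
    exact mem_lim (omg (c, m)) hcl W (fun l => (sh (n l) h, sh (n l) m1))
      (fun l => hinv (n l) (h, m1) ho) (h', a1) (hh'.prodMk_nhds ha1)

end Pool.Agent.Work.MP_69fea5_lc.AK
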