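import Pool.Agent.Work.MP_69fea5_lc.AK.I_KB

set_option autoImplicit false

namespace Pool.Agent.Work.MP_69fea5_lc.AK

open MeasureTheory Topology Set Filter
open scoped NNReal

namespace I_DNS82

/-- rational approximation of a probability vector -/
theorem approx {ι : Type} [Fintype ι] [DecidableEq ι] (p : ι → ℝ) (hp : ∀ u, 0 ≤ p u)
    (hs : ∑ u, p u = 1) (δ : ℝ) (hδ : 0 < δ) :
    ∃ l : List ι, l ≠ [] ∧ (∀ u ∈ l, 0 < p u) ∧
      ∀ u, |(l.count u : ℝ) / l.length - p u| < δ := by
  obtain ⟨u0, hu0⟩ : ∃ u, 0 < p u := by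
    by_contra hcon
    push Not at hcon
    have : ∑ u, p u ≤ 0 := Finset.sum_nonpos fun u _ => hcon u
    linarith
  obtain ⟨N, hN⟩ := exists_nat_gt ((Fintype.card ι : ℝ) / δ)
  have hcard : 0 < (Fintype.card ι : ℝ) := by
    exact_mod_cast Fintype.card_pos_iff.2 ⟨u0⟩
  have hNpos : (0 : ℝ) < N := lt_trans (div_pos hcard hδ) hN
  set T : ℕ := ∑ u ∈ Finset.univ.erase u0, ⌊(N : ℝ) * p u⌋₊ with hT
  have hTle : (T : ℝ) ≤ N * (1 - p u0) := by
    rw [hT]
    push_cast
    calc ∑ u ∈ Finset.univ.erase u0, ((⌊(N : ℝ) * p u⌋₊ : ℕ) : ℝ)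
        ≤ ∑ u ∈ Finset.univ.erase u0, (N : ℝ) * p u :=
          Finset.sum_le_sum fun u _ => Nat.floor_le (mul_nonneg hNpos.le (hp u))
      _ = N * (1 - p u0) := by
          rw [← Finset.mul_sum, Finset.sum_erase_eq_sub (Finset.mem_univ u0), hs]
  have hTge : (N : ℝ) * (1 - p u0) - Fintype.card ι < T := by
    rw [hT]
    push_cast
    have h1 : (N : ℝ) * (1 - p u0) = ∑ u ∈ Finset.univ.erase u0, (N : ℝ) * p u := by
      rw [← Finset.mul_sum, Finset.sum_erase_eq_sub (Finset.mem_univ u0), hs]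
    have h2 : ∑ u ∈ Finset.univ.erase u0, (N : ℝ) * p u ≤
        ∑ u ∈ Finset.univ.erase u0, (((⌊(N : ℝ) * p u⌋₊ : ℕ) : ℝ) + 1) :=
      Finset.sum_le_sum fun u _ => (Nat.lt_floor_add_one _).le
    rw [Finset.sum_add_distrib, Finset.sum_const, Finset.card_erase_of_mem (Finset.mem_univ u0),
      Finset.card_univ, nsmul_eq_mul, mul_one] at h2
    have h3 : ((Fintype.card ι - 1 : ℕ) : ℝ) = (Fintype.card ι : ℝ) - 1 := by
      rw [Nat.cast_sub (Fintype.card_pos_iff.2 ⟨u0⟩)]
      simp
    rw [h3] at h2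
    linarith
  have hTN : T < N := by
    have : (T : ℝ) < N := by
      have : 0 < (N : ℝ) * p u0 := mul_pos hNpos hu0
      nlinarith
    exact_mod_cast this
  set c : ι → ℕ := fun u => if u = u0 then N - T else ⌊(N : ℝ) * p u⌋₊ with hc
  have hcs : ∑ u, c u = N := by
    rw [← Finset.add_sum_erase _ _ (Finset.mem_univ u0)]
    have h1 : ∑ u ∈ Finset.univ.erase u0, c u = T := by
      rw [hT]
      refine Finset.sum_congr rfl fun u hu => ?_
      rw [hc]
      simp only
      rw [if_neg (Finset.ne_of_mem_erase hu)]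
    rw [h1, hc]
    simp only [if_true]
    omega
  set l : List ι := (Finset.univ : Finset ι).toList.flatMap fun u => List.replicate (c u) u with hl
  have hlen : l.length = N := by
    rw [hl, List.length_flatMap]
    simp only [List.length_replicate]
    rw [← hcs, Finset.sum_map_toList]
  have hcount : ∀ u, l.count u = c u := by
    intro u
    rw [hl, List.count_flatMap]
    have : (List.count u ∘ fun v => List.replicate (c v) v) = fun v => if v = u then c u else 0 := by
      funext v
      simp only [Function.comp, List.count_replicate]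
      by_cases h : v = u
      · subst h; simp
      · simp [h]
    rw [this, Finset.sum_map_toList]
    simp
  refine ⟨l, ?_, ?_, ?_⟩
  · intro h
    rw [h] at hlen
    simp at hlen
    rw [← hlen] at hTN
    omega
  · intro u hu
    have h1 : 0 < l.count u := List.count_pos_iff.2 hu
    rw [hcount, hc] at h1
    simp only at h1
    by_cases h : u = u0
    · rw [h]; exact hu0
    · rw [if_neg h] at h1
      by_contra hcon
      have : p u = 0 := le_antisymm (not_lt.1 hcon) (hp u)
      rw [this] at h1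
      simp at h1
  · intro u
    rw [hcount, hlen]
    have hkey : |(c u : ℝ) - N * p u| < Fintype.card ι ∨ |(c u : ℝ) - N * p u| ≤ 1 := by
      rw [hc]
      simp only
      by_cases h : u = u0
      · left
        rw [if_pos h, h, Nat.cast_sub hTN.le, abs_lt]
        constructor <;> linarith
      · right
        rw [if_neg h, abs_le]
        have h1 := Nat.floor_le (mul_nonneg hNpos.le (hp u))
        have h2 := Nat.lt_floor_add_one ((N : ℝ) * p u)
        constructor <;> linarith
    have h1 : |(c u : ℝ) - N * p u| ≤ Fintype.card ι := by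
      rcases hkey with h | h
      · exact h.le
      · refine h.trans ?_
        exact_mod_cast Fintype.card_pos_iff.2 ⟨u0⟩
    have h2 : (c u : ℝ) / N - p u = ((c u : ℝ) - N * p u) / N := by
      field_simp
    rw [h2, abs_div, abs_of_pos hNpos, div_lt_iff₀ hNpos]
    rw [div_lt_iff₀ hδ] at hN
    linarith

open Classical in
/-- values of the mixture -/
theorem mix_val {k : ℕ} (z : Om k) (C : Set (Om k)) (hC : MeasurableSet C) (a : ℤ) (b : List ℤ) :
    ((mix a b z C : ℝ≥0) : ℝ) =
      (((a :: b).map fun n => if sh n z ∈ C then (1 : ℝ) else 0).sum) / (a :: b).length := by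
  have h0 : ((mix a b z C : ℝ≥0) : ℝ) = (mixM a b z C).toReal := rfl
  have h1 : ∀ l : List ℤ, ((l.map fun n => if sh n z ∈ C then (1 : ENNReal) else 0).sum).toReal =
      (l.map fun n => if sh n z ∈ C then (1 : ℝ) else 0).sum ∧
      (l.map fun n => if sh n z ∈ C then (1 : ENNReal) else 0).sum ≠ ⊤ := by
    intro l
    induction l with
    | nil => simp
    | cons n l ih =>
      rw [List.map_cons, List.sum_cons, List.map_cons, List.sum_cons]
      by_cases h : sh n z ∈ C
      · rw [if_pos h, if_pos h, ENNReal.toReal_add (by simp) ih.2, ih.1]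
        exact ⟨by simp, ENNReal.add_ne_top.2 ⟨by simp, ih.2⟩⟩
      · rw [if_neg h, if_neg h, ENNReal.toReal_add (by simp) ih.2, ih.1]
        exact ⟨by simp, ENNReal.add_ne_top.2 ⟨by simp, ih.2⟩⟩
  rw [h0]
  unfold mixM
  rw [Measure.smul_apply, I_KB.sum_dirac z C hC, smul_eq_mul, ENNReal.toReal_mul, (h1 _).1,
    ENNReal.toReal_inv]
  simp only [List.length_cons]
  rw [ENNReal.toReal_natCast]
  field_simp

/-- the window map -/
def win {k : ℕ} (L : ℕ) (z : Om k) : Fin (2 * L + 1) → Fin k := fun i => z (i.val - L)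

theorem win_eq {k : ℕ} {L : ℕ} {z z' : Om k} (h : win L z' = win L z) :
    ∀ j : ℤ, |j| ≤ L → z' j = z j := by
  intro j hj
  rw [abs_le] at hj
  have := congrFun h ⟨(j + L).toNat, by omega⟩
  simp only [win] at this
  rw [show (((j + L).toNat : ℕ) : ℤ) - L = j by omega] at this
  exact this

theorem win_cont {k : ℕ} (L : ℕ) : Continuous (win (k := k) L) :=
  continuous_pi fun i => continuous_apply ((i.val : ℤ) - L)

theorem win_clopen {k : ℕ} (L : ℕ) (u : Fin (2 * L + 1) → Fin k) :
    IsClopen ((win L) ⁻¹' {u} : Set (Om k)) := (isClopen_discrete {u}).preimage (win_cont L)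

/-- one approximation -/
theorem one_step {k : ℕ} (z : Om k) (R : Set ℤ) (m : PM k) (hPOS : ∀ C : Set (Om k), IsOpen C →
    0 < m C → (C ∩ supp m).Nonempty)
    (hR : supp m ⊆ closure {z' | ∃ n ∈ R, z' = sh n z}) (L : ℕ) (ε : ℝ) (hε : 0 < ε) :
    ∃ (a : ℤ) (b : List ℤ), (∀ n ∈ a :: b, n ∈ R) ∧
      ∀ C : Set (Om k), (∀ y ∈ C, ∀ y', win L y' = win L y → y' ∈ C) →
        |((mix a b z C : ℝ≥0) : ℝ) - ((m C : ℝ≥0) : ℝ)| ≤ ε := by
  classical
  set ι := Fin (2 * L + 1) → Fin k
  set p : ι → ℝ := fun u => ((m ((win L) ⁻¹' {u}) : ℝ≥0) : ℝ) with hp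
  have hmeas : ∀ u : ι, MeasurableSet ((win L) ⁻¹' {u} : Set (Om k)) := fun u =>
    IsClosed.measurableSet (win_clopen L u).1
  have hadd : ∀ (q : PM k) (s : Finset ι), ((q ((win L) ⁻¹' (s : Set ι)) : ℝ≥0) : ℝ) =
      ∑ u ∈ s, ((q ((win L) ⁻¹' {u}) : ℝ≥0) : ℝ) := by
    intro q s
    have h1 := sum_measure_preimage_singleton (μ := (q : Measure (Om k))) s
      (f := (win L : Om k → ι)) (fun u _ => hmeas u)
    have h2 : ∀ A : Set (Om k), ((q A : ℝ≥0) : ℝ) = ((q : Measure (Om k)) A).toReal := fun A => rfl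
    rw [h2, ← h1, ENNReal.toReal_sum (fun u _ => measure_ne_top _ _)]
    exact Finset.sum_congr rfl fun u _ => rfl
  have hps : ∑ u, p u = 1 := by
    have h1 := hadd m Finset.univ
    rw [Finset.coe_univ, preimage_univ] at h1
    rw [← h1]
    simp
  have hcard : (0 : ℝ) < (Fintype.card ι : ℝ) + 1 := by positivity
  obtain ⟨l, hl, hlp, happ⟩ := approx p (fun u => NNReal.coe_nonneg _) hps
    (ε / ((Fintype.card ι : ℝ) + 1)) (by positivity)
  have hch : ∀ u : ι, ∃ n : ℤ, 0 < p u → n ∈ R ∧ win L (sh n z) = u := by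
    intro u
    by_cases hu : 0 < p u
    · obtain ⟨y, hy1, hy2⟩ := hPOS _ (win_clopen L u).2 (by exact_mod_cast hu)
      obtain ⟨y', hy'1, n, hn, rfl⟩ := mem_closure_iff_nhds.1 (hR hy2) _
        ((win_clopen L u).2.mem_nhds hy1)
      exact ⟨n, fun _ => ⟨hn, hy'1⟩⟩
    · exact ⟨0, fun h => absurd h hu⟩
  choose N hN using hch
  obtain ⟨a, b, hab⟩ : ∃ a b, l.map N = a :: b := by
    cases hlm : l.map N with
    | nil => exact absurd (List.map_eq_nil_iff.1 hlm) hl
    | cons a b => exact ⟨a, b, rfl⟩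
  refine ⟨a, b, ?_, fun C hC => ?_⟩
  · intro n hn
    rw [← hab, List.mem_map] at hn
    obtain ⟨u, hu, rfl⟩ := hn
    exact (hN u (hlp u hu)).1
  · have hval : ∀ u : ι, ((mix a b z ((win L) ⁻¹' {u}) : ℝ≥0) : ℝ) = (l.count u : ℝ) / l.length := by
      intro u
      rw [mix_val z _ (hmeas u), ← hab, List.length_map, List.map_map]
      congr 1
      have h1 : ∀ l' : List ι, (∀ v ∈ l', 0 < p v) →
          (l'.map ((fun n => if sh n z ∈ (win L) ⁻¹' {u} then (1 : ℝ) else 0) ∘ N)).sum =
            (l'.count u : ℝ) := by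
        intro l' hl'
        induction l' with
        | nil => simp
        | cons v l' ih =>
          rw [List.map_cons, List.sum_cons, ih fun w hw => hl' w (List.mem_cons_of_mem _ hw),
            List.count_cons]
          have h2 : win L (sh (N v) z) = v := (hN v (hl' v List.mem_cons_self)).2
          simp only [Function.comp, mem_preimage, mem_singleton_iff, h2]
          by_cases h : v = u
          · simp [h, add_comm]
          · simp [h]
      exact h1 l hlp
    set s : Finset ι := Finset.univ.filter fun u => ∃ y ∈ C, win L y = u with hs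
    have hCs : C = (win L) ⁻¹' (s : Set ι) := by
      ext y
      simp only [hs, Finset.coe_filter, Finset.mem_univ, true_and, mem_preimage]
      constructor
      · intro hy
        exact ⟨y, hy, rfl⟩
      · rintro ⟨y', hy', h⟩
        exact hC y' hy' y h.symm
    rw [hCs, hadd, hadd, ← Finset.sum_sub_distrib]
    refine (Finset.abs_sum_le_sum_abs _ _).trans ?_
    calc ∑ u ∈ s, |((mix a b z ((win L) ⁻¹' {u}) : ℝ≥0) : ℝ) - ((m ((win L) ⁻¹' {u}) : ℝ≥0) : ℝ)|
        ≤ ∑ u ∈ s, ε / ((Fintype.card ι : ℝ) + 1) := by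
          refine Finset.sum_le_sum fun u _ => ?_
          rw [hval]
          exact (happ u).le
      _ ≤ ε := by
          rw [Finset.sum_const, nsmul_eq_mul]
          have h1 : (s.card : ℝ) ≤ Fintype.card ι := by exact_mod_cast Finset.card_le_univ s
          rw [mul_div_assoc', div_le_iff₀ hcard]
          nlinarith

end I_DNS82

open I_DNS82 in
theorem DNS_pf82 (hCYL : S_CYL) (hPMB : S_PMB) (hSUP : S_SUP) : S_DNS := by
  intro k z R m hR U hU
  have hstep := fun L : ℕ => one_step z R m
    (fun C hC h => by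
      have := (hSUP k m).2.2.2.2.2.1 C hC h
      exact this) hR L (1 / ((L : ℝ) + 1)) (by positivity)
  choose a b hab hap using hstep
  have hF : Filter.map (fun L => mix (a L) (b L) z) atTop ≤ 𝓝 m := by
    refine (hPMB k).2.2.2.2 m _ fun w => ?_
    rw [tendsto_map'_iff, ← NNReal.tendsto_coe]
    rw [tendsto_iff_dist_tendsto_zero]
    obtain ⟨L₀, hL₀⟩ := (hCYL k).2.2.2.2.2.1 _ ((hCYL k).1 w 0)
    refine squeeze_zero' (Eventually.of_forall fun L => dist_nonneg) ?_
      tendsto_one_div_add_atTop_nhds_zero_nat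
    filter_upwards [eventually_ge_atTop L₀] with L hL
    rw [Real.dist_eq]
    refine hap L _ fun y hy y' hy' => hL₀ L hL y hy ?_
    exact ((hCYL k).2.2.2.1 y y' L).2 (win_eq hy')
  obtain ⟨L, hL⟩ := (Filter.mem_map.1 (hF hU) |> eventually_atTop.1)
  exact ⟨a L, b L, hab L, hL L le_rfl⟩

end Pool.Agent.Work.MP_69fea5_lc.AK
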