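import Pool.Agent.Work.MP_69fea5_lc.AK.Defs

/-!
# Block [69fea5 ALLK], part B (mathematics): the statements of the items

Every item is a theorem `XXX_pf (h1 : S_A) (h2 : S_B) ... : S_XXX` in its own file `AK/I_XXX.lean`;
the hypotheses may be any statements of EARLIER items in this file.
Paper proof: notes 3380, 3439 on MP_69fea5_lc; hints in the docstrings.
-/

set_option autoImplicit false

namespace Pool.Agent.Work.MP_69fea5_lc.AK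

open MeasureTheory Topology Set Filter
open scoped NNReal

/-! ## Systems -/

/-- [ZORN] minimal sets exist. -/
def S_ZORN : Prop := ∀ (X : Type) [TopologicalSpace X] [CompactSpace X] [Sys X] (K : Set X),
  IsClosed K → K.Nonempty → Inv K → ∃ L, L ⊆ K ∧ MinSet L

/-- [ORB] orbit closures. -/
def S_ORB : Prop := ∀ (X : Type) [TopologicalSpace X] [Sys X] (x : X),
  IsClosed (orb x) ∧ Inv (orb x) ∧ x ∈ orb x ∧
  (∀ K : Set X, IsClosed K → Inv K → x ∈ K → orb x ⊆ K) ∧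
  (∀ K : Set X, MinSet K → x ∈ K → orb x = K) ∧
  (∀ K L : Set X, MinSet K → IsClosed L → Inv L → (K ∩ L).Nonempty → K ⊆ L) ∧
  (∀ n : ℤ, orb (sh n x) = orb x)

/-- [OMG] limit sets at `+∞`. -/
def S_OMG : Prop := ∀ (X : Type) [TopologicalSpace X] [Sys X] (x : X),
  IsClosed (omg x) ∧ Inv (omg x) ∧ (CompactSpace X → (omg x).Nonempty)

/-- [CST] an invariant upper semicontinuous function is constant on a minimal set. -/
def S_CST : Prop := ∀ (X : Type) [TopologicalSpace X] [Sys X] (K : Set X) (f : X → ℝ),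
  MinSet K → (∀ (n : ℤ), ∀ x ∈ K, f (sh n x) = f x) → (∀ a : ℝ, IsClosed (K ∩ {x | a ≤ f x})) →
  ∀ x ∈ K, ∀ y ∈ K, f x = f y

/-- [IMG] images of minimal sets. -/
def S_IMG : Prop := ∀ (X Y : Type) [TopologicalSpace X] [TopologicalSpace Y] [CompactSpace X]
  [T2Space Y] [Sys X] [Sys Y] (K : Set X) (f : X → Y),
  MinSet K → ContinuousOn f K → (∀ (n : ℤ), ∀ x ∈ K, f (sh n x) = sh n (f x)) → MinSet (f '' K)

/-- [SEMI] factor maps of minimal sets are semi-open. -/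
def S_SEMI : Prop := ∀ (X Y : Type) [TopologicalSpace X] [TopologicalSpace Y] [CompactSpace X]
  [T2Space X] [T2Space Y] [Sys X] [Sys Y] (K : Set X) (f : X → Y),
  MinSet K → ContinuousOn f K → (∀ (n : ℤ), ∀ x ∈ K, f (sh n x) = sh n (f x)) →
  ∀ U : Set X, IsOpen U → (U ∩ K).Nonempty →
    ∃ V : Set Y, IsOpen V ∧ (V ∩ f '' K).Nonempty ∧ V ∩ f '' K ⊆ f '' (U ∩ K)

/-! ## Cylinders and measures -/

/-- [CYL] cylinders. -/
def S_CYL : Prop := ∀ k : ℕ,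
  (∀ (w : Wd k) (n : ℤ), IsClopen (cyl w n)) ∧
  (∀ (w : Wd k) (n a : ℤ) (z : Om k), sh a z ∈ cyl w n ↔ z ∈ cyl w (n + a)) ∧
  (∀ (z : Om k) (L : ℕ), z ∈ cyl (wordOf z L) 0) ∧
  (∀ (z z' : Om k) (L : ℕ), z' ∈ cyl (wordOf z L) 0 ↔ ∀ j : ℤ, |j| ≤ L → z' j = z j) ∧
  (∀ (z : Om k) (U : Set (Om k)), U ∈ 𝓝 z → ∃ L₀ : ℕ, ∀ L, L₀ ≤ L → cyl (wordOf z L) 0 ⊆ U) ∧
  (∀ B : Set (Om k), IsClopen B → ∃ L₀ : ℕ, ∀ L, L₀ ≤ L → ∀ z ∈ B, cyl (wordOf z L) 0 ⊆ B) ∧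
  (∀ (w : Wd k) (r : Fin k), mid w = some r → cyl w 0 ⊆ {z | z 0 = r})

/-- [PMB] evaluation of probability measures: shift, continuity, separation. -/
def S_PMB : Prop := ∀ k : ℕ,
  (∀ (m : PM k) (n : ℤ) (B : Set (Om k)), MeasurableSet B → sh n m B = m {z | sh n z ∈ B}) ∧
  (∀ (m : PM k) (w : Wd k) (n a : ℤ), sh a m (cyl w n) = m (cyl w (n + a))) ∧
  (∀ B : Set (Om k), IsClopen B → Continuous fun m : PM k => m B) ∧
  (∀ m m' : PM k, (∀ w : Wd k, m (cyl w 0) = m' (cyl w 0)) → m = m') ∧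
  (∀ (m : PM k) (F : Filter (PM k)),
    (∀ w : Wd k, Tendsto (fun m' : PM k => m' (cyl w 0)) F (𝓝 (m (cyl w 0)))) → F ≤ 𝓝 m)

/-- [USC] upper semicontinuity of the measure of the fibres of a closed set. -/
def S_USC : Prop := ∀ (k : ℕ) (X : Type) [TopologicalSpace X] (K : Set (Om k × X)), IsClosed K →
  ∀ a : ℝ≥0, IsClosed {p : PM k × X | a ≤ p.1 {z | (z, p.2) ∈ K}}

/-- [CLP] a closed set of measure `< a` is contained in a clopen set of measure `< a`. -/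
def S_CLP : Prop := ∀ (k : ℕ) (m : PM k) (K : Set (Om k)) (a : ℝ≥0), IsClosed K → m K < a →
  ∃ C, IsClopen C ∧ K ⊆ C ∧ m C < a

/-- [SUP] the support. -/
def S_SUP : Prop := ∀ (k : ℕ) (m : PM k),
  IsClosed (supp m) ∧ m (supp m) = 1 ∧ (supp m).Nonempty ∧
  (∀ z, z ∈ supp m ↔ ∀ L : ℕ, 0 < m (cyl (wordOf z L) 0)) ∧
  (∀ (n : ℤ) (z : Om k), z ∈ supp m → sh n z ∈ supp (sh n m)) ∧
  (∀ U : Set (Om k), IsOpen U → 0 < m U → (U ∩ supp m).Nonempty) ∧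
  (∀ K : Set (Om k), IsClosed K → m K = 1 → supp m ⊆ K) ∧
  (∀ z ∈ supp m, ∀ U ∈ 𝓝 z, ∀ᶠ m' in 𝓝 m, (U ∩ supp m').Nonempty)

/-- [MMB] `MM m` is closed, invariant, non-empty and contains `(z, m)`, `z ∈ supp m`. -/
def S_MMB : Prop := ∀ (k : ℕ) (m : PM k),
  IsClosed (MM m) ∧ Inv (MM m) ∧ (∀ z ∈ supp m, (z, m) ∈ MM m) ∧ (∀ p ∈ MM m, p.2 ∈ orb m)

/-! ## Facts on stages -/

/-- [STG] facts on a stage. For (b): `{m | 1 ≤ m {z | (z, m) ∈ MM m0}}` is closed (USC), invariant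
and contains `m0`. -/
def S_STG : Prop := ∀ (k : ℕ) (c : Om k) (m0 : PM k) (D : Finset (Fin k)), Stage c m0 D →
  MM m0 ⊆ omg (c, m0) ∧ MinSet (orb m0) ∧
  (∀ m ∈ orb m0, m {z | (z, m) ∈ MM m0} = 1) ∧
  (∀ m ∈ orb m0, ∀ z ∈ supp m, (z, m) ∈ MM m0) ∧
  m0 {z | z 0 ∉ D} = 0

/-- [NPB] McMahon's relation is closed and invariant. -/
def S_NPB : Prop := ∀ (k : ℕ) (c : Om k) (m0 : PM k) (P : Wd k),
  IsClosed (NP c m0 P) ∧ Inv (NP c m0 P) ∧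
  (∀ u z m, (u, z, m) ∈ NP c m0 P → (u, m) ∈ MM m0 ∧ (z, m) ∈ MM m0) ∧
  (∀ z m, IsClosed (AP c m0 P z m)) ∧
  (∀ (n : ℤ) z m u, sh n u ∈ AP c m0 P (sh n z) (sh n m) ↔ u ∈ AP c m0 P z m) ∧
  (¬ Pos m0 P → NP c m0 P = ∅)

/-- [MC1] the measure of the first sections of McMahon's relation is a constant `≥ m0 [P]`.
Lower bound: if `T^{x_i}(c, m0) → (u, m)` and `C` clopen contains `A = {z | (u, z, m) ∈ NP}`,
then `T^{x_i}([P] ∩ supp m0) ⊆ C` for late `i`, so `m0 [P] ≤ (T^{x_i} m0) C → m C`; then CLP. -/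
def S_MC1 : Prop := ∀ (k : ℕ) (c : Om k) (m0 : PM k) (D : Finset (Fin k)) (P : Wd k),
  Stage c m0 D → ∃ a : ℝ≥0, m0 (cyl P 0) ≤ a ∧
    ∀ u m, (u, m) ∈ MM m0 → m {z | (u, z, m) ∈ NP c m0 P} = a

/-- [MC2] the same constant for the second sections (Fubini over `m0 × m0`). -/
def S_MC2 : Prop := ∀ (k : ℕ) (c : Om k) (m0 : PM k) (D : Finset (Fin k)) (P : Wd k),
  Stage c m0 D → ∃ a : ℝ≥0, m0 (cyl P 0) ≤ a ∧
    (∀ u m, (u, m) ∈ MM m0 → m {z | (u, z, m) ∈ NP c m0 P} = a) ∧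
    (∀ z m, (z, m) ∈ MM m0 → m (AP c m0 P z m) = a)

/-- [PSI] `(z, m) ↦ m (B ∩ A^P(z, m))` is continuous on `MM m0` (it is usc, and so is the same
function for the complement of `B`; the sum is constant). -/
def S_PSI : Prop := ∀ (k : ℕ) (c : Om k) (m0 : PM k) (D : Finset (Fin k)) (P : Wd k),
  Stage c m0 D → ∀ B : Set (Om k), IsClopen B →
    ContinuousOn (fun p : Om k × PM k => p.2 (B ∩ AP c m0 P p.1 p.2)) (MM m0)

/-- [DDC] the pseudometrics `dd` are continuous on the fibre product (`m (A ∩ A')`, `m (A ∪ A')`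
are usc with constant sum). -/
def S_DDC : Prop := ∀ (k : ℕ) (c : Om k) (m0 : PM k) (D : Finset (Fin k)) (P : Wd k),
  Stage c m0 D →
    ContinuousOn (fun q : Om k × Om k × PM k => dd c m0 P q.1 q.2.1 q.2.2)
      {q | (q.1, q.2.2) ∈ MM m0 ∧ (q.2.1, q.2.2) ∈ MM m0}

/-- [DDA] algebra of `dd`. -/
def S_DDA : Prop := ∀ (k : ℕ) (c : Om k) (m0 : PM k) (P : Wd k),
  (∀ z m, dd c m0 P z z m = 0) ∧
  (∀ z z' m, 0 ≤ dd c m0 P z z' m ∧ dd c m0 P z z' m = dd c m0 P z' z m) ∧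
  (∀ z z' z'' m, dd c m0 P z z'' m ≤ dd c m0 P z z' m + dd c m0 P z' z'' m) ∧
  (∀ (n : ℤ) z z' m, dd c m0 P (sh n z) (sh n z') (sh n m) = dd c m0 P z z' m) ∧
  (∀ z z' m (B : Set (Om k)), MeasurableSet B →
    |(m (B ∩ AP c m0 P z m) : ℝ) - m (B ∩ AP c m0 P z' m)| ≤ dd c m0 P z z' m) ∧
  (∀ z z' m, Th c m0 (z, m) = Th c m0 (z', m) → dd c m0 P z z' m = 0)

/-- [THB] the map `Th`. -/
def S_THB : Prop := ∀ (k : ℕ) (c : Om k) (m0 : PM k),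
  (∀ (n : ℤ) p, Th c m0 (sh n p) = sh n (Th c m0 p)) ∧
  (∀ p p', Th c m0 p = Th c m0 p' → p.2 = p'.2) ∧
  (∀ D, Stage c m0 D → ContinuousOn (Th c m0) (MM m0) ∧ MinSet (M1 c m0))

/-- [BLK] over `m ([P] ∩ A^P(z, m)) > 0`, `P` blocked, the colour in the middle of `P` does not
occur. -/
def S_BLK : Prop := ∀ (k : ℕ) (c : Om k) (m0 : PM k) (P : Wd k) (r : Fin k),
  Blocked c m0 P → mid P = some r → ∀ (z : Om k) (m : PM k),
    0 < m (cyl P 0 ∩ AP c m0 P z m) → z 0 ≠ r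

/-! ## The base point and the zones -/

/-- [ZS1] base points exist. -/
def S_ZS1 : Prop := ∀ (k : ℕ) (c : Om k) (m0 : PM k) (D : Finset (Fin k)), Stage c m0 D →
  ∃ z, ZS c m0 z

/-- [ZS2] over a base point `z`: `T^x (c, Th (z, m0))` accumulates at all of `M1`. -/
def S_ZS2 : Prop := ∀ (k : ℕ) (c : Om k) (m0 : PM k) (D : Finset (Fin k)), Stage c m0 D →
  ∀ z, ZS c m0 z → z ∈ supp m0 ∧ (z, Th c m0 (z, m0)) ∈ M1 c m0 ∧
    M1 c m0 ⊆ omg (c, Th c m0 (z, m0))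

/-- [ZNA] (step (C) of note 3380, inside the fibre of `m0`): in Case II there are blocked words
`P`, positive, and `z' ∈ supp m0` with `m0 ([P] ∩ A^P(z', m0)) > 0` and `Th (z', m0)` close to
`Th (z, m0)`. -/
def S_ZNA : Prop := ∀ (k : ℕ) (c : Om k) (m0 : PM k) (D : Finset (Fin k)), Stage c m0 D →
  CaseII c m0 → ∀ z, ZS c m0 z → ∀ U ∈ 𝓝 (Th c m0 (z, m0)),
    ∃ P r, Pos m0 P ∧ Blocked c m0 P ∧ mid P = some r ∧ ∃ z' ∈ supp m0,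
      Th c m0 (z', m0) ∈ U ∧ 0 < m0 (cyl P 0 ∩ AP c m0 P z' m0)

/-- [ZNB] zones near the base point. -/
def S_ZNB : Prop := ∀ (k : ℕ) (c : Om k) (m0 : PM k) (D : Finset (Fin k)), Stage c m0 D →
  CaseII c m0 → ∀ z, ZS c m0 z → ∀ U ∈ 𝓝 (Th c m0 (z, m0)),
    ∃ r ∈ D, ∃ p ∈ MM m0, Th c m0 p ∈ U ∧ ZN c m0 D r (Th c m0 p)

/-- [ZNO] zones are relatively open and their colours are in `D.erase r`. -/
def S_ZNO : Prop := ∀ (k : ℕ) (c : Om k) (m0 : PM k) (D : Finset (Fin k)), Stage c m0 D →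
  (∀ r, ∀ p ∈ MM m0, ZN c m0 D r (Th c m0 p) →
    ∃ V ∈ 𝓝 (Th c m0 p), ∀ p' ∈ MM m0, Th c m0 p' ∈ V → ZN c m0 D r (Th c m0 p')) ∧
  (∀ r, ∀ p ∈ MM m0, ZN c m0 D r (Th c m0 p) → Th c m0 p ∈ Zn (M1 c m0) (D.erase r))

/-! ## Energy -/

/-- [ENG] the energy: continuity, bounds, the parallelogram identity, `d2 = 0` separates. -/
def S_ENG : Prop := ∀ k : ℕ,
  (Continuous fun m : PM k => FF m) ∧ (∀ m : PM k, 0 ≤ FF m ∧ FF m ≤ 2) ∧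
  (Continuous fun p : PM k × PM k => d2 p.1 p.2) ∧
  (∀ m m' : PM k, 0 ≤ d2 m m' ∧ d2 m m' = d2 m' m ∧ (d2 m m' = 0 → m = m')) ∧
  (∀ m m' : PM k, ∃ a : PM k, (∀ B, MeasurableSet B → (a B : ℝ) = (m B + m' B) / 2) ∧
    ∀ n : ℤ, FF (sh n a) = (FF (sh n m) + FF (sh n m')) / 2 - d2 (sh n m) (sh n m') / 4)

section

/-- [AAB] the energy set is closed, invariant, and lies over all of the base. -/
def S_AAB : Prop := ∀ (k : ℕ) (B : Type) [TopologicalSpace B] [CompactSpace B] [T2Space B]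
  [Sys B] (M : Set (Om k × B)), MinSet M →
  IsClosed (QQ M) ∧ Inv (QQ M) ∧ IsClosed (AA M) ∧ Inv (AA M) ∧
    ∀ z v, (z, v) ∈ M → ∃ m, (v, m) ∈ AA M

/-- [PRX] two measures of the energy set over the same point are proximal, along times of almost
maximal energy. -/
def S_PRX : Prop := ∀ (k : ℕ) (B : Type) [TopologicalSpace B] [CompactSpace B] [T2Space B]
  [Sys B] (M : Set (Om k × B)), MinSet M → ∀ v m m', (v, m) ∈ AA M → (v, m') ∈ AA M →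
  ∀ ε : ℝ, 0 < ε → ∃ n : ℤ, d2 (sh n m) (sh n m') < ε ∧ GG m - ε < FF (sh n m) ∧
    GG m - ε < FF (sh n m')

/-- [GL] (elementary proof in note 3439): relatively invariant measures. -/
def S_GL : Prop := ∀ (k : ℕ) (B : Type) [TopologicalSpace B] [CompactSpace B] [T2Space B]
  [Sys B] (M : Set (Om k × B)) (Y : Set (B × PM k)) (M' : Set (Om k × (B × PM k))),
  MinSet M → MinSet Y → Y ⊆ AA M → MinSet M' →
  M' ⊆ {q | q.2 ∈ Y ∧ (q.1, q.2.1) ∈ M} → ∀ p ∈ Y, p.2 {z | (z, p) ∈ M'} = 1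

/-- [GLX] `M'` as in GL exists; it projects onto `M` and onto `Y`. -/
def S_GLX : Prop := ∀ (k : ℕ) (B : Type) [TopologicalSpace B] [CompactSpace B] [T2Space B]
  [Sys B] (M : Set (Om k × B)) (Y : Set (B × PM k)), MinSet M → MinSet Y → Y ⊆ AA M →
  (∃ M' : Set (Om k × (B × PM k)), MinSet M' ∧ M' ⊆ {q | q.2 ∈ Y ∧ (q.1, q.2.1) ∈ M}) ∧
  ∀ M' : Set (Om k × (B × PM k)), MinSet M' → M' ⊆ {q | q.2 ∈ Y ∧ (q.1, q.2.1) ∈ M} →
    (∀ q ∈ M, ∃ m, (q.1, (q.2, m)) ∈ M') ∧ (∀ p ∈ Y, ∃ z, (z, p) ∈ M')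

/-- [GLM] the system of the measure `m`, `(v, m) ∈ Y`, is minimal: it is the image of `M'`. -/
def S_GLM : Prop := ∀ (k : ℕ) (B : Type) [TopologicalSpace B] [CompactSpace B] [T2Space B]
  [Sys B] (M : Set (Om k × B)) (Y : Set (B × PM k)) (M' : Set (Om k × (B × PM k))),
  MinSet M → MinSet Y → Y ⊆ AA M → MinSet M' →
  M' ⊆ {q | q.2 ∈ Y ∧ (q.1, q.2.1) ∈ M} → ∀ p ∈ Y,
    MinSet (MM p.2) ∧ MM p.2 = (fun q : Om k × (B × PM k) => (q.1, q.2.2)) '' M'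

/-- [GLO] (D4): `c` comes back to the new system. -/
def S_GLO : Prop := ∀ (k : ℕ) (B : Type) [TopologicalSpace B] [CompactSpace B] [T2Space B]
  [Sys B] (M : Set (Om k × B)) (Y : Set (B × PM k)) (c : Om k) (v : B) (m : PM k),
  MinSet M → MinSet Y → Y ⊆ AA M → (v, m) ∈ Y → M ⊆ omg (c, v) →
    (MM m ∩ omg (c, m)).Nonempty

/-- [GLR] colours of the new stage (uses SEMI). -/
def S_GLR : Prop := ∀ (k : ℕ) (B : Type) [TopologicalSpace B] [CompactSpace B] [T2Space B]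
  [Sys B] (M : Set (Om k × B)) (Y : Set (B × PM k)) (D : Finset (Fin k)) (v : B) (m : PM k),
  MinSet M → MinSet Y → Y ⊆ AA M → (v, m) ∈ Y →
  (v, m) ∈ closure {p | p ∈ Y ∧ p.1 ∈ Zn M D} →
    ∀ U ∈ 𝓝 m, ∃ n : ℤ, sh n m ∈ U ∧ Rb D (sh n m)

/-- [DNS] averages of point masses are dense. -/
def S_DNS : Prop := ∀ (k : ℕ) (z : Om k) (R : Set ℤ) (m : PM k),
  supp m ⊆ closure {z' | ∃ n ∈ R, z' = sh n z} → ∀ U ∈ 𝓝 m,
    ∃ (a : ℤ) (b : List ℤ), (∀ n ∈ a :: b, n ∈ R) ∧ mix a b z ∈ U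

/-- [APX] limits of almost optimal averages are in the energy set. -/
def S_APX : Prop := ∀ (k : ℕ) (B : Type) [TopologicalSpace B] [CompactSpace B] [T2Space B]
  [Sys B] (M : Set (Om k × B)) (z : Om k) (v : B) (V : ℕ → Set B) (a : ℕ → ℤ)
  (b : ℕ → List ℤ), MinSet M → (z, v) ∈ M → (∀ L, V L ∈ 𝓝 v) →
  (∀ U ∈ 𝓝 v, ∃ L₀, ∀ L, L₀ ≤ L → V L ⊆ U) →
  (∀ L, ∀ n ∈ a L :: b L, sh n v ∈ V L) →
  (∀ L a' b', (∀ n ∈ a' :: b', sh n v ∈ V L) → ∀ j : ℤ, |j| ≤ (L : ℤ) →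
    ∃ j' : ℤ, |j'| ≤ (L : ℤ) ∧
      FF (sh j (mix (a L) (b L) z)) ≤ FF (sh j' (mix a' b' z)) + 1 / ((L : ℝ) + 1)) →
  ∀ m, MapClusterPt m atTop (fun L => mix (a L) (b L) z) → (v, m) ∈ AA M

end

/-! ## The step -/

/-- [STP] the step. -/
def S_STP : Prop := ∀ (k : ℕ) (c : Om k) (m0 : PM k) (D : Finset (Fin k)), Stage c m0 D →
  CaseII c m0 → ∀ z, ZS c m0 z → ∀ m, (Th c m0 (z, m0), m) ∈ AA (M1 c m0) →
  ∀ v1 m1, (v1, m1) ∈ orb (Th c m0 (z, m0), m) → MinSet (orb (v1, m1)) →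
  ∃ r ∈ D, (∀ U ∈ 𝓝 (Th c m0 (z, m0)), ∃ n : ℤ, sh n v1 ∈ U ∧ ZN c m0 D r (sh n v1)) ∧
    ∀ (n : ℕ → ℤ) (m' : PM k), (∀ i, ZN c m0 D r (sh (n i) v1)) →
      (∀ U ∈ 𝓝 (Th c m0 (z, m0)), ∀ᶠ i in atTop, sh (n i) v1 ∈ U) →
      MapClusterPt m' atTop (fun i => sh (n i) m1) → Stage c m' (D.erase r)

/-! ## The first stage and the greedy -/

/-- [KB] Krylov–Bogoliubov. -/
def S_KB : Prop := ∀ (k : ℕ) (g : Om k) (m : PM k),
  MapClusterPt m atTop (fun L : ℕ => mix 0 ((List.range L).map (fun i : ℕ => ((i : ℤ) + 1))) g) →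
    sh 1 m = m ∧ m (orb g) = 1

/-- [ST0] the first stage. -/
def S_ST0 : Prop := ∀ (k : ℕ) (c g : Om k) (m : PM k), MinSet (orb g) → g ∈ omg c →
  sh 1 m = m → m (orb g) = 1 → Stage c m Finset.univ

/-- [STE] there is no stage without colours. -/
def S_STE : Prop := ∀ (k : ℕ) (c : Om k) (m : PM k), ¬ Stage c m ∅

/-- [CS1] Case I: the words for the greedy. -/
def S_CS1 : Prop := ∀ (k : ℕ) (c : Om k) (m : PM k), ¬ CaseII c m →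
  ∃ Q r, Pos m Q ∧ cyl Q 0 ⊆ {g | g 0 = r} ∧ ∀ P, cyl P 0 ⊆ cyl Q 0 → Pos m P → ∀ N : ℕ,
    ∃ x : ℕ, N ≤ x ∧ ∃ P', sh (x : ℤ) c ∈ cyl P 0 ∧ cyl P' 0 ⊆ cyl P 0 ∧
      cyl P' 0 ⊆ {g | g x = r} ∧ Pos m P'

end Pool.Agent.Work.MP_69fea5_lc.AK
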