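import Pool.Agent.Work.MP_69fea5_lc.AK.Stmts

/-!
# Block [69fea5 ALLK], item APX: limits of almost optimal averages are in the energy set
-/

set_option autoImplicit false

namespace Pool.Agent.Work.MP_69fea5_lc.AK

open MeasureTheory Topology Set Filter
open scoped NNReal

namespace I_APX

variable {k : ℕ}

theorem sum_dirac (l : List ℤ) (z : Om k) (C : Set (Om k)) (hC : MeasurableSet C)
    (h : ∀ n ∈ l, sh n z ∈ C) :
    ((l.map fun n => Measure.dirac (sh n z)).sum : Measure (Om k)) C = l.length := by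
  induction l with
  | nil => simp
  | cons a l ih =>
    have ha : sh a z ∈ C := h a (by simp)
    have hl := ih (fun n hn => h n (by simp [hn]))
    simp [hl, Measure.dirac_apply' _ hC, ha, add_comm]

theorem mix_eq_one (a : ℤ) (b : List ℤ) (z : Om k) (C : Set (Om k)) (hC : MeasurableSet C)
    (h : ∀ n ∈ a :: b, sh n z ∈ C) : mix a b z C = 1 := by
  have h1 : (mixM a b z) C = 1 := by
    unfold mixM
    rw [Measure.smul_apply, sum_dirac _ _ _ hC h]
    simp only [List.length_cons, smul_eq_mul]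
    exact ENNReal.inv_mul_cancel (by simp) (by simp)
  change ((mixM a b z) C).toNNReal = 1
  rw [h1]; rfl

theorem mem_of_cluster {X : Type*} [TopologicalSpace X] {u : ℕ → X} {x : X} {C : Set X}
    (hC : IsClosed C) (hx : MapClusterPt x atTop u) (h : ∀ᶠ L in atTop, u L ∈ C) : x ∈ C := by
  have h1 : ClusterPt x (𝓟 C) := ClusterPt.mono hx (le_principal_iff.2 h)
  have h2 : x ∈ closure C := mem_closure_iff_clusterPt.2 h1
  rwa [hC.closure_eq] at h2

theorem fibre_near {B : Type} [TopologicalSpace B] {M : Set (Om k × B)} [CompactSpace B]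
    [T2Space B] (hM : IsClosed M) {v : B} {C : Set (Om k)} (hC : IsClopen C)
    (h : {z | (z, v) ∈ M} ⊆ C) : ∃ U ∈ 𝓝 v, ∀ z, ∀ v' ∈ U, (z, v') ∈ M → z ∈ C := by
  have hcl : IsClosed (M ∩ {p | p.1 ∉ C}) :=
    hM.inter (hC.compl.isClosed.preimage continuous_fst)
  have him : IsClosed (Prod.snd '' (M ∩ {p | p.1 ∉ C})) :=
    (hcl.isCompact.image continuous_snd).isClosed
  refine ⟨(Prod.snd '' (M ∩ {p | p.1 ∉ C}))ᶜ, him.isOpen_compl.mem_nhds ?_, ?_⟩
  · rintro ⟨⟨z, v'⟩, ⟨h1, h2⟩, h3⟩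
    simp only at h3
    subst h3
    exact h2 (h h1)
  · intro z v' hv' hz
    by_contra hzC
    exact hv' ⟨(z, v'), ⟨hz, hzC⟩, rfl⟩

end I_APX

open I_APX in
theorem APX_pf (hORB : S_ORB) (hPMB : S_PMB) (hCLP : S_CLP) (hSUP : S_SUP) (hENG : S_ENG)
    (hAAB : S_AAB) (hDNS : S_DNS) : S_APX := by
  intro k B _ _ _ _ M z v V a b hM hzv hV hVU hab hopt m hm
  obtain ⟨hFc, hFb, -, -, -⟩ := hENG k
  have hfib : ∀ w : B, IsClosed {z' : Om k | (z', w) ∈ M} := fun w =>
    hM.closed.preimage (continuous_id.prodMk continuous_const)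
  have hbdd : ∀ q : PM k, BddAbove (Set.range fun n : ℤ => FF (sh n q)) := fun q =>
    ⟨2, by rintro _ ⟨n, rfl⟩; exact (hFb _).2⟩
  have hle : ∀ (q : PM k) (n : ℤ), FF (sh n q) ≤ GG q := fun q n => le_ciSup (hbdd q) n
  -- (i)
  have hQ : (v, m) ∈ QQ M := by
    change m {z' | (z', v) ∈ M} = 1
    by_contra hne
    have hlt : m {z' | (z', v) ∈ M} < 1 := lt_of_le_of_ne (m.apply_le_one _) hne
    obtain ⟨C, hC, hsub, hmC⟩ := hCLP k m _ 1 (hfib v) hlt
    obtain ⟨U, hU, hUC⟩ := fibre_near hM.closed hC hsub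
    obtain ⟨L₀, hL₀⟩ := hVU U hU
    have hcl : IsClosed {m' : PM k | m' C = 1} :=
      isClosed_eq ((hPMB k).2.2.1 C hC) continuous_const
    have : m ∈ {m' : PM k | m' C = 1} := by
      refine mem_of_cluster hcl hm ?_
      filter_upwards [eventually_ge_atTop L₀] with L hL
      refine mix_eq_one _ _ _ _ hC.isClosed.measurableSet ?_
      intro n hn
      exact hUC _ _ (hL₀ L hL (hab L n hn)) (hM.inv n (z, v) hzv)
    exact absurd this (ne_of_lt hmC)
  -- (ii)
  obtain ⟨-, -, -, -, hex⟩ := hAAB k B M hM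
  obtain ⟨m', hm'⟩ := hex z v hzv
  have hsupp : supp m' ⊆ {z' | (z', v) ∈ M} :=
    (hSUP k m').2.2.2.2.2.2.1 _ (hfib v) hm'.1
  have horb : orb (z, v) = M := (hORB (Om k × B) (z, v)).2.2.2.2.1 M hM hzv
  have key : GG m ≤ GG m' := by
    refine ciSup_le fun j => ?_
    refine le_of_forall_pos_le_add fun ε hε => ?_
    have hcl : IsClosed {q : PM k | FF (sh j q) ≤ GG m' + ε} :=
      isClosed_le (hFc.comp (sh_cont j)) continuous_const
    refine mem_of_cluster (C := {q : PM k | FF (sh j q) ≤ GG m' + ε}) hcl hm ?_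
    have hev : ∀ᶠ L : ℕ in atTop, 1 / ((L : ℝ) + 1) < ε / 2 :=
      (tendsto_one_div_add_atTop_nhds_zero_nat (𝕜 := ℝ)).eventually_lt_const (by positivity)
    filter_upwards [hev, eventually_ge_atTop j.natAbs] with L hL1 hL2
    have hj : |j| ≤ (L : ℤ) := by
      rw [Int.abs_eq_natAbs]; exact_mod_cast hL2
    have hsub : supp m' ⊆ closure {z' | ∃ n ∈ {n : ℤ | sh n v ∈ V L}, z' = sh n z} := by
      intro z' hz'
      have h1 : (z', v) ∈ orb (z, v) := by rw [horb]; exact hsupp hz'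
      rw [mem_closure_iff_nhds]
      intro W hW
      have h2 : W ×ˢ V L ∈ 𝓝 (z', v) := prod_mem_nhds hW (hV L)
      obtain ⟨⟨p, q⟩, hp, n, hn⟩ := mem_closure_iff_nhds.1 h1 _ h2
      have hn' : (sh n z, sh n v) = (p, q) := hn
      have hp1 : sh n z = p := congrArg Prod.fst hn'
      have hp2 : sh n v = q := congrArg Prod.snd hn'
      exact ⟨p, hp.1, n, by change sh n v ∈ V L; rw [hp2]; exact hp.2, hp1.symm⟩
    have hUn : {q : PM k | ∀ j' ∈ Finset.Icc (-(L : ℤ)) L, FF (sh j' q) < GG m' + ε / 2}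
        ∈ 𝓝 m' := by
      have : {q : PM k | ∀ j' ∈ Finset.Icc (-(L : ℤ)) L, FF (sh j' q) < GG m' + ε / 2}
          = ⋂ j' ∈ Finset.Icc (-(L : ℤ)) L, {q : PM k | FF (sh j' q) < GG m' + ε / 2} := by
        ext q; simp
      rw [this]
      refine (Filter.biInter_finset_mem _).2 fun j' _ => ?_
      have ho : IsOpen {q : PM k | FF (sh j' q) < GG m' + ε / 2} :=
        isOpen_lt (hFc.comp (sh_cont j')) continuous_const
      refine ho.mem_nhds ?_
      have := hle m' j'
      change FF (sh j' m') < GG m' + ε / 2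
      linarith
    obtain ⟨a', b', hR, hmix⟩ := hDNS k z {n : ℤ | sh n v ∈ V L} m' hsub _ hUn
    obtain ⟨j', hj', hle'⟩ := hopt L a' b' (fun n hn => hR n hn) j hj
    have hmem : j' ∈ Finset.Icc (-(L : ℤ)) L := by
      rw [Finset.mem_Icc]; exact abs_le.1 hj'
    have h3 := hmix j' hmem
    change FF (sh j (mix (a L) (b L) z)) ≤ GG m' + ε
    linarith
  refine ⟨hQ, fun p' hp' => ?_⟩
  exact key.trans (hm'.2 p' hp')

end Pool.Agent.Work.MP_69fea5_lc.AK
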