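import Pool.Agent.Work.MP_69fea5_lc.AK.Stmts

/-!
# Block [69fea5 ALLK]: item CLP
-/

set_option autoImplicit false

namespace Pool.Agent.Work.MP_69fea5_lc.AK

open MeasureTheory Topology Set Filter
open scoped NNReal

theorem CLP_pf (hCYL : S_CYL) : S_CLP := by
  classical
  intro k m K a hK hlt
  obtain ⟨hcl, -, hself, -, hnb, -, -⟩ := hCYL k
  have hlt' : (m : Measure (Om k)) K < (a : ENNReal) := by
    rw [← ProbabilityMeasure.ennreal_coeFn_eq_coeFn_toMeasure]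
    exact_mod_cast hlt
  obtain ⟨U, hKU, hU, hmU⟩ := K.exists_isOpen_lt_of_lt (a : ENNReal) hlt'
  have h1 : ∀ z ∈ K, ∃ L : ℕ, cyl (wordOf z L) 0 ⊆ U := by
    intro z hz
    obtain ⟨L₀, hL⟩ := hnb z U (hU.mem_nhds (hKU hz))
    exact ⟨L₀, hL L₀ le_rfl⟩
  choose! L hL using h1
  obtain ⟨t, ht, hKt⟩ := hK.isCompact.elim_nhds_subcover (fun z => cyl (wordOf z (L z)) 0)
    (fun z _ => (hcl _ _).isOpen.mem_nhds (hself z (L z)))
  refine ⟨⋃ z ∈ t, cyl (wordOf z (L z)) 0, ?_, hKt, ?_⟩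
  · exact t.finite_toSet.isClopen_biUnion fun z _ => hcl _ _
  · have hsub : (⋃ z ∈ t, cyl (wordOf z (L z)) 0) ⊆ U :=
      iUnion₂_subset fun z hz => hL z (ht z hz)
    have h2 : (m : Measure (Om k)) (⋃ z ∈ t, cyl (wordOf z (L z)) 0) < (a : ENNReal) :=
      lt_of_le_of_lt (measure_mono hsub) hmU
    rw [← ProbabilityMeasure.ennreal_coeFn_eq_coeFn_toMeasure] at h2
    exact_mod_cast h2

end Pool.Agent.Work.MP_69fea5_lc.AK
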