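import Pool.Agent.Work.MP_69fea5_lc.AK.Stmts

/-!
Item KB: Krylov–Bogoliubov.
-/

set_option autoImplicit false

namespace Pool.Agent.Work.MP_69fea5_lc.AK

open MeasureTheory Topology Set Filter
open scoped NNReal

namespace I_KB

open Classical in
theorem sum_dirac {k : ℕ} (z : Om k) (B : Set (Om k)) (hB : MeasurableSet B) (l : List ℤ) :
    ((l.map fun n => Measure.dirac (sh n z)).sum : Measure (Om k)) B =
      (l.map fun n => if sh n z ∈ B then (1 : ENNReal) else 0).sum := by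
  induction l with
  | nil => simp
  | cons a l ih =>
    simp only [List.map_cons, List.sum_cons, Measure.add_apply, ih]
    rw [Measure.dirac_apply' _ hB]
    simp [Set.indicator_apply]

theorem sum_range {M : Type*} [AddCommMonoid M] (f : ℤ → M) (n : ℕ) :
    (((List.range n).map fun i : ℕ => f (i : ℤ)).sum : M) = ∑ i ∈ Finset.range n, f (i : ℤ) := by
  induction n with
  | zero => simp
  | succ n ih => rw [List.range_succ, List.map_append, List.sum_append, ih,
      Finset.sum_range_succ]; simp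

open Classical in
theorem mix_apply {k : ℕ} (g : Om k) (L : ℕ) (B : Set (Om k)) (hB : MeasurableSet B) :
    ((mix 0 ((List.range L).map (fun i : ℕ => ((i : ℤ) + 1))) g B : ℝ≥0) : ℝ) =
      (∑ i ∈ Finset.range (L + 1), if sh (i : ℤ) g ∈ B then (1 : ℝ) else 0) / ((L : ℝ) + 1) := by
  have h0 : ((mix 0 ((List.range L).map (fun i : ℕ => ((i : ℤ) + 1))) g B : ℝ≥0) : ℝ) =
      (mixM 0 ((List.range L).map (fun i : ℕ => ((i : ℤ) + 1))) g B).toReal := rfl
  rw [h0]
  unfold mixM
  rw [Measure.smul_apply, smul_eq_mul, ENNReal.toReal_mul, ENNReal.toReal_inv,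
    ENNReal.toReal_natCast, sum_dirac _ _ hB]
  have h1 : (0 : ℤ) :: (List.range L).map (fun i : ℕ => ((i : ℤ) + 1)) =
      (List.range (L + 1)).map (fun i : ℕ => (i : ℤ)) := by
    rw [List.range_succ_eq_map]
    simp
  rw [h1, List.map_map]
  have h2 := sum_range (fun n : ℤ => if sh n g ∈ B then (1 : ENNReal) else 0) (L + 1)
  simp only [Function.comp_def] at h2 ⊢
  rw [h2, ENNReal.toReal_sum]
  · simp only [List.length_map, List.length_range]
    rw [inv_mul_eq_div]
    congr 1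
    · refine Finset.sum_congr rfl fun i _ => ?_
      split_ifs <;> simp
    · push_cast
      rfl
  · intro i _
    split_ifs <;> simp

theorem diff_le {k : ℕ} (g : Om k) (L : ℕ) (B : Set (Om k)) (hB : MeasurableSet B)
    (hB' : MeasurableSet {z : Om k | sh 1 z ∈ B}) :
    |((mix 0 ((List.range L).map (fun i : ℕ => ((i : ℤ) + 1))) g {z | sh 1 z ∈ B} : ℝ≥0) : ℝ) -
      ((mix 0 ((List.range L).map (fun i : ℕ => ((i : ℤ) + 1))) g B : ℝ≥0) : ℝ)| ≤
      1 / ((L : ℝ) + 1) := by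
  classical
  rw [mix_apply g L B hB, mix_apply g L _ hB', ← sub_div, abs_div]
  have hL : |((L : ℝ) + 1)| = (L : ℝ) + 1 := abs_of_pos (by positivity)
  rw [hL]
  gcongr
  have h1 : ∀ i : ℕ, (if sh (i : ℤ) g ∈ {z : Om k | sh 1 z ∈ B} then (1 : ℝ) else 0) =
      if sh (((i + 1 : ℕ) : ℤ)) g ∈ B then (1 : ℝ) else 0 := by
    intro i
    have h2 : sh (((i + 1 : ℕ) : ℤ)) g = sh 1 (sh (i : ℤ) g) := by
      rw [← sh_add]
      congr 1
      push_cast
      ring
    rw [h2]
    rfl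
  simp only [h1]
  have h3 := Finset.sum_range_succ (fun i : ℕ => if sh (i : ℤ) g ∈ B then (1 : ℝ) else 0) (L + 1)
  have h4 := Finset.sum_range_succ' (fun i : ℕ => if sh (i : ℤ) g ∈ B then (1 : ℝ) else 0) (L + 1)
  rw [h3] at h4
  have h5 : ∀ n : ℤ, 0 ≤ (if sh n g ∈ B then (1 : ℝ) else 0) ∧
      (if sh n g ∈ B then (1 : ℝ) else 0) ≤ 1 := by
    intro n
    split_ifs <;> norm_num
  have h6 := h5 ((L + 1 : ℕ) : ℤ)
  have h7 := h5 ((0 : ℕ) : ℤ)
  rw [abs_le]
  constructor <;> linarith [h6.1, h6.2, h7.1, h7.2]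

end I_KB

theorem KB_pf (hORB : S_ORB) (hCYL : S_CYL) (hPMB : S_PMB) (hUSC : S_USC) : S_KB := by
  intro k g m hm
  obtain ⟨hP1, _, hP3, hP4, _⟩ := hPMB k
  obtain ⟨_, hOinv, hOself, _⟩ := hORB (Om k) g
  have hOinv : Inv (orb g) := hOinv
  have hOcl : IsClosed (orb g) := (hORB (Om k) g).1
  constructor
  · apply hP4
    intro w
    have hcl : IsClopen (cyl w 0 : Set (Om k)) := (hCYL k).1 w 0
    have hcl' : IsClopen {z : Om k | sh 1 z ∈ cyl w 0} := hcl.preimage (sh_cont 1)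
    rw [hP1 m 1 (cyl w 0) hcl.1.measurableSet]
    have hf : Continuous fun m' : PM k =>
        |((m' {z : Om k | sh 1 z ∈ cyl w 0} : ℝ≥0) : ℝ) - ((m' (cyl w 0) : ℝ≥0) : ℝ)| :=
      ((NNReal.continuous_coe.comp (hP3 _ hcl')).sub
        (NNReal.continuous_coe.comp (hP3 _ hcl))).abs
    by_contra hne
    have hpos : 0 < |((m {z : Om k | sh 1 z ∈ cyl w 0} : ℝ≥0) : ℝ) -
        ((m (cyl w 0) : ℝ≥0) : ℝ)| := by
      rw [abs_pos, sub_ne_zero]
      intro h
      exact hne (NNReal.coe_injective h)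
    set e := |((m {z : Om k | sh 1 z ∈ cyl w 0} : ℝ≥0) : ℝ) - ((m (cyl w 0) : ℝ≥0) : ℝ)| with he
    have hU : {m' : PM k | e / 2 < |((m' {z : Om k | sh 1 z ∈ cyl w 0} : ℝ≥0) : ℝ) -
        ((m' (cyl w 0) : ℝ≥0) : ℝ)|} ∈ 𝓝 m :=
      (isOpen_lt continuous_const hf).mem_nhds (by
        change e / 2 < _
        rw [← he]
        linarith)
    have hfr := (mapClusterPt_iff_frequently.1 hm) _ hU
    have hev : ∀ᶠ L : ℕ in atTop, 1 / ((L : ℝ) + 1) < e / 2 :=
      tendsto_one_div_add_atTop_nhds_zero_nat.eventually_lt_const (half_pos hpos)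
    obtain ⟨L, hL1, hL2⟩ := (hfr.and_eventually hev).exists
    have h1 := I_KB.diff_le g L (cyl w 0) hcl.1.measurableSet hcl'.1.measurableSet
    have h2 : e / 2 < _ := hL1
    linarith
  · have hK : IsClosed ((orb g) ×ˢ (univ : Set Unit)) := hOcl.prod isClosed_univ
    have hC := hUSC k Unit _ hK 1
    have hC' : IsClosed {m' : PM k | (1 : ℝ≥0) ≤ m' (orb g)} := by
      have h1 := hC.preimage (f := fun m' : PM k => (m', ())) (by fun_prop)
      convert h1 using 1
      ext m'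
      simp
    have hmem : ∀ L : ℕ, mix 0 ((List.range L).map (fun i : ℕ => ((i : ℤ) + 1))) g ∈
        {m' : PM k | (1 : ℝ≥0) ≤ m' (orb g)} := by
      classical
      intro L
      change (1 : ℝ≥0) ≤ _
      rw [← NNReal.coe_le_coe, I_KB.mix_apply g L (orb g) hOcl.measurableSet]
      have h1 : ∀ i : ℕ, sh (i : ℤ) g ∈ orb g := fun i => hOinv _ _ hOself
      simp only [h1, if_true]
      simp
      rw [div_self]
      positivity
    have h2 : m ∈ {m' : PM k | (1 : ℝ≥0) ≤ m' (orb g)} := by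
      by_contra hc
      have hfr := (mapClusterPt_iff_frequently.1 hm) _ (hC'.isOpen_compl.mem_nhds hc)
      obtain ⟨L, hL⟩ := hfr.exists
      exact hL (hmem L)
    exact le_antisymm (m.apply_le_one _) h2

end Pool.Agent.Work.MP_69fea5_lc.AK
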