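import Pool.Agent.Work.MP_69fea5_lc.AK.Stmts

/-! Block [69fea5 ALLK], item GL: relatively invariant measures (elementary proof of note 3439). -/

set_option autoImplicit false
set_option linter.unusedSectionVars false

namespace Pool.Agent.Work.MP_69fea5_lc.AK

open MeasureTheory Topology Set Filter
open scoped NNReal ENNReal

namespace I_GL

variable {k : ℕ}

/-! ### Coordinates -/

/-- coordinates -/
noncomputable def co (m : PM k) (i : ℕ) : ℝ := (m (cyl (wd k i) 0) : ℝ)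

theorem co_nonneg (m : PM k) (i : ℕ) : 0 ≤ co m i := (m (cyl (wd k i) 0)).2

theorem co_le_one (m : PM k) (i : ℕ) : co m i ≤ 1 := by
  unfold co
  exact_mod_cast m.apply_le_one _

theorem summ {g : ℕ → ℝ} (h0 : ∀ i, 0 ≤ g i) (h1 : ∀ i, g i ≤ 1) :
    Summable (fun i => (1 / 2 : ℝ) ^ i * g i) := by
  refine Summable.of_nonneg_of_le (fun i => by have := h0 i; positivity) (fun i => ?_)
    summable_geometric_two
  have : (0 : ℝ) ≤ (1 / 2) ^ i := by positivity
  nlinarith [h1 i]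

theorem FF_eq (m : PM k) : FF m = ∑' i : ℕ, (1 / 2 : ℝ) ^ i * (co m i) ^ 2 := rfl

theorem d2_eq (m m' : PM k) : d2 m m' = ∑' i : ℕ, (1 / 2 : ℝ) ^ i * (co m i - co m' i) ^ 2 := rfl

theorem summ_FF (m : PM k) : Summable (fun i : ℕ => (1 / 2 : ℝ) ^ i * (co m i) ^ 2) :=
  summ (fun i => by positivity) fun i => by
    have h0 := co_nonneg m i
    have h1 := co_le_one m i
    nlinarith

theorem summ_d2 (m m' : PM k) :
    Summable (fun i : ℕ => (1 / 2 : ℝ) ^ i * (co m i - co m' i) ^ 2) :=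
  summ (fun i => by positivity) fun i => by
    have h0 := co_nonneg m i
    have h1 := co_le_one m i
    have h0' := co_nonneg m' i
    have h1' := co_le_one m' i
    nlinarith

theorem d2_self (m : PM k) : d2 m m = 0 := by
  rw [d2_eq]
  simp

theorem d2_tri (x y z : PM k) : d2 x z ≤ 2 * d2 x y + 2 * d2 y z := by
  rw [d2_eq, d2_eq, d2_eq, ← tsum_mul_left, ← tsum_mul_left,
    ← ((summ_d2 x y).mul_left 2).tsum_add ((summ_d2 y z).mul_left 2)]
  refine (summ_d2 x z).tsum_le_tsum (fun i => ?_)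
    (((summ_d2 x y).mul_left 2).add ((summ_d2 y z).mul_left 2))
  have hp : (0 : ℝ) ≤ (1 / 2) ^ i := by positivity
  have h : (co x i - co z i) ^ 2 ≤ 2 * (co x i - co y i) ^ 2 + 2 * (co y i - co z i) ^ 2 := by
    nlinarith [sq_nonneg (co x i - co y i - (co y i - co z i))]
  nlinarith [mul_le_mul_of_nonneg_left h hp]

theorem d2_comm (x y : PM k) : d2 x y = d2 y x := by
  rw [d2_eq, d2_eq]
  congr 1
  funext i
  ring

theorem d2_nonneg (x y : PM k) : 0 ≤ d2 x y := by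
  rw [d2_eq]
  exact tsum_nonneg fun i => by positivity

/-! ### Finite convex combinations -/

section comb

variable {W : Type} [Fintype W]

/-- a finite convex combination -/
noncomputable def comb (α : W → ℝ≥0) (h : ∑ w, α w = 1) (μ : W → PM k) : PM k :=
  ⟨∑ w, (α w : ℝ≥0∞) • (μ w : Measure (Om k)), ⟨by
    rw [Measure.finsetSum_apply]
    simp only [Measure.smul_apply, smul_eq_mul, measure_univ, mul_one]
    exact_mod_cast h⟩⟩

theorem comb_apply (α : W → ℝ≥0) (h : ∑ w, α w = 1) (μ : W → PM k) (B : Set (Om k)) :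
    comb α h μ B = ∑ w, α w * μ w B := by
  have h1 : ((comb α h μ B : ℝ≥0) : ℝ≥0∞) = ((∑ w, α w * μ w B : ℝ≥0) : ℝ≥0∞) := by
    rw [ProbabilityMeasure.ennreal_coeFn_eq_coeFn_toMeasure]
    change (∑ w, (α w : ℝ≥0∞) • (μ w : Measure (Om k))) B = _
    rw [Measure.finsetSum_apply]
    push_cast
    refine Finset.sum_congr rfl fun w _ => ?_
    rw [ProbabilityMeasure.ennreal_coeFn_eq_coeFn_toMeasure]
    rfl
  exact_mod_cast h1

theorem comb_co (hPMB : S_PMB) (α : W → ℝ≥0) (h : ∑ w, α w = 1) (μ : W → PM k) (n : ℤ) (i : ℕ) :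
    co (sh n (comb α h μ)) i = ∑ w, (α w : ℝ) * co (sh n (μ w)) i := by
  unfold co
  rw [(hPMB k).2.1, comb_apply]
  push_cast
  refine Finset.sum_congr rfl fun w _ => ?_
  rw [(hPMB k).2.1]

theorem variance (hPMB : S_PMB) (α : W → ℝ≥0) (h : ∑ w, α w = 1) (μ : W → PM k) (n : ℤ) :
    ∑ w, (α w : ℝ) * d2 (sh n (μ w)) (sh n (comb α h μ)) =
      ∑ w, (α w : ℝ) * FF (sh n (μ w)) - FF (sh n (comb α h μ)) := by
  have h' : ∑ w, (α w : ℝ) = 1 := by exact_mod_cast congrArg (fun x : ℝ≥0 => (x : ℝ)) h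
  simp only [d2_eq, FF_eq, ← tsum_mul_left]
  rw [← Summable.tsum_finsetSum fun w _ => (summ_d2 _ _).mul_left _,
    ← Summable.tsum_finsetSum fun w _ => (summ_FF _).mul_left _,
    ← (summable_sum fun w _ => (summ_FF _).mul_left _).tsum_sub (summ_FF _)]
  congr 1
  funext i
  have hb := comb_co hPMB α h μ n i
  set b := co (sh n (comb α h μ)) i with hbdef
  have e1 : ∑ w, (α w : ℝ) * ((1 / 2 : ℝ) ^ i * (co (sh n (μ w)) i - b) ^ 2) =
      (1 / 2 : ℝ) ^ i * (∑ w, (α w : ℝ) * (co (sh n (μ w)) i) ^ 2 -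
        2 * b * ∑ w, (α w : ℝ) * co (sh n (μ w)) i + b ^ 2 * ∑ w, (α w : ℝ)) := by
    rw [Finset.mul_sum, Finset.mul_sum, ← Finset.sum_sub_distrib, ← Finset.sum_add_distrib,
      Finset.mul_sum]
    refine Finset.sum_congr rfl fun w _ => ?_
    ring
  have e2 : ∑ w, (α w : ℝ) * ((1 / 2 : ℝ) ^ i * (co (sh n (μ w)) i) ^ 2) =
      (1 / 2 : ℝ) ^ i * ∑ w, (α w : ℝ) * (co (sh n (μ w)) i) ^ 2 := by
    rw [Finset.mul_sum]
    refine Finset.sum_congr rfl fun w _ => ?_
    ring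
  rw [e1, e2, ← hb, h']
  ring

end comb

/-! ### Cells -/

/-- the window of radius `N` -/
def win (N : ℕ) (z : Om k) : Fin (2 * N + 1) → Fin k := fun i => z ((i.val : ℤ) - N)

theorem win_cont (N : ℕ) : Continuous (win N : Om k → _) :=
  continuous_pi fun i => continuous_apply ((i.val : ℤ) - N)

theorem win_meas (N : ℕ) (S : Set (Fin (2 * N + 1) → Fin k)) :
    MeasurableSet ((win N : Om k → _) ⁻¹' S) :=
  ((isClopen_discrete S).preimage (win_cont N)).isOpen.measurableSet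

theorem win_eq {N : ℕ} {z z' : Om k} (h : win N z = win N z') (j : ℤ) (hj : |j| ≤ (N : ℤ)) :
    z j = z' j := by
  have h1 := abs_le.1 hj
  have h2 : (j + N).toNat < 2 * N + 1 := by omega
  have h3 := congrFun h ⟨(j + N).toNat, h2⟩
  have h4 : (((j + N).toNat : ℕ) : ℤ) - N = j := by omega
  simpa only [win, h4] using h3

/-- weights of the cells -/
noncomputable def wt (m : PM k) (N : ℕ) (w : Fin (2 * N + 1) → Fin k) : ℝ≥0 :=
  m (win N ⁻¹' {w})

theorem wt_sum_finset (m : PM k) (N : ℕ) (S : Finset (Fin (2 * N + 1) → Fin k)) :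
    ∑ w ∈ S, wt m N w = m (win N ⁻¹' (S : Set (Fin (2 * N + 1) → Fin k))) := by
  have h := sum_measure_preimage_singleton (μ := (m : Measure (Om k))) S
    (f := (win N : Om k → _)) fun w _ => win_meas N {w}
  have h1 : ((∑ w ∈ S, wt m N w : ℝ≥0) : ℝ≥0∞) =
      ((m (win N ⁻¹' (S : Set (Fin (2 * N + 1) → Fin k))) : ℝ≥0) : ℝ≥0∞) := by
    rw [ProbabilityMeasure.ennreal_coeFn_eq_coeFn_toMeasure, ← h]
    push_cast
    refine Finset.sum_congr rfl fun w _ => ?_
    exact ProbabilityMeasure.ennreal_coeFn_eq_coeFn_toMeasure _ _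
  exact_mod_cast h1

theorem wt_sum (m : PM k) (N : ℕ) : ∑ w, wt m N w = 1 := by
  rw [wt_sum_finset]
  simp

/-! ### Convexity of the energy set -/

section AAs

variable {B : Type} [TopologicalSpace B] [Sys B]

theorem bdd (hENG : S_ENG) (m : PM k) : BddAbove (range fun n : ℤ => FF (sh n m)) :=
  ⟨2, by
    rintro _ ⟨n, rfl⟩
    exact ((hENG k).2.1 _).2⟩

theorem FF_le_GG (hENG : S_ENG) (m : PM k) (n : ℤ) : FF (sh n m) ≤ GG m :=
  le_ciSup (bdd hENG m) n

theorem comb_AA (hPMB : S_PMB) (hENG : S_ENG) {M : Set (Om k × B)} {v : B} {m : PM k}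
    (hm : (v, m) ∈ AA M) {W : Type} [Fintype W] (α : W → ℝ≥0) (h : ∑ w, α w = 1)
    (μ : W → PM k) (hμ : ∀ w, α w ≠ 0 → (v, μ w) ∈ AA M) : (v, comb α h μ) ∈ AA M := by
  have h' : ∑ w, (α w : ℝ) = 1 := by exact_mod_cast congrArg (fun x : ℝ≥0 => (x : ℝ)) h
  refine ⟨?_, fun p' hp' => ?_⟩
  · change comb α h μ {z | (z, v) ∈ M} = 1
    rw [comb_apply, ← h]
    refine Finset.sum_congr rfl fun w _ => ?_
    by_cases hw : α w = 0
    · simp [hw]
    · have := (hμ w hw).1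
      change μ w {z | (z, v) ∈ M} = 1 at this
      rw [this, mul_one]
  · have hle : GG m ≤ GG p'.2 := hm.2 p' hp'
    refine le_trans ?_ hle
    change GG (comb α h μ) ≤ GG m
    have key : ∀ n : ℤ, FF (sh n (comb α h μ)) ≤ GG m := ?_
    · unfold GG at key ⊢
      exact ciSup_le key
    intro n
    have hv := variance hPMB α h μ n
    have h0 : 0 ≤ ∑ w, (α w : ℝ) * d2 (sh n (μ w)) (sh n (comb α h μ)) :=
      Finset.sum_nonneg fun w _ => mul_nonneg (α w).2 (d2_nonneg _ _)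
    have h1 : ∑ w, (α w : ℝ) * FF (sh n (μ w)) ≤ ∑ w, (α w : ℝ) * GG m := by
      refine Finset.sum_le_sum fun w _ => ?_
      by_cases hw : α w = 0
      · simp [hw]
      · refine mul_le_mul_of_nonneg_left ?_ (α w).2
        have h2 : GG (μ w) ≤ GG m := (hμ w hw).2 (v, m) hm.1
        exact (FF_le_GG hENG (μ w) n).trans h2
    rw [← Finset.sum_mul, h', one_mul] at h1
    linarith

end AAs

/-! ### The projection of `M'` -/

theorem proj {B : Type} [TopologicalSpace B] [CompactSpace B] [T2Space B] [Sys B]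
    {M : Set (Om k × B)} {Y : Set (B × PM k)} {M' : Set (Om k × (B × PM k))}
    (hM : MinSet M) (hM' : MinSet M') (hsub : M' ⊆ {q | q.2 ∈ Y ∧ (q.1, q.2.1) ∈ M}) :
    ∀ q ∈ M, ∃ m, (q.1, (q.2, m)) ∈ M' := by
  have hf : Continuous fun q : Om k × (B × PM k) => (q.1, q.2.1) :=
    continuous_fst.prodMk (continuous_fst.comp continuous_snd)
  have h := hM.min ((fun q : Om k × (B × PM k) => (q.1, q.2.1)) '' M')
    (hM'.closed.isCompact.image hf).isClosed (hM'.ne.image _)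
    (by
      rintro n _ ⟨q, hq, rfl⟩
      exact ⟨sh n q, hM'.inv n q hq, rfl⟩)
    (by
      rintro _ ⟨q, hq, rfl⟩
      exact (hsub hq).2)
  intro q hq
  rw [← h] at hq
  obtain ⟨⟨z, v, m⟩, hq', rfl⟩ := hq
  exact ⟨m, hq'⟩

/-- the measure of the fibres of `M'` is constant -/
theorem const (hCST : S_CST) (hPMB : S_PMB) (hUSC : S_USC) {B : Type} [TopologicalSpace B]
    [CompactSpace B] [T2Space B] [Sys B] {Y : Set (B × PM k)} {M' : Set (Om k × (B × PM k))}
    (hY : MinSet Y) (hM' : MinSet M') :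
    ∀ p ∈ Y, ∀ p' ∈ Y, p.2 {z | (z, p) ∈ M'} = p'.2 {z | (z, p') ∈ M'} := by
  have key := hCST (B × PM k) Y (fun p => (p.2 {z | (z, p) ∈ M'} : ℝ)) hY ?_ ?_
  · intro p hp p' hp'
    exact_mod_cast key p hp p' hp'
  · intro n p _
    have hcl : IsClosed {z : Om k | (z, sh n p) ∈ M'} :=
      hM'.closed.preimage (by fun_prop)
    have h1 : (sh n p).2 {z : Om k | (z, sh n p) ∈ M'} =
        p.2 {z : Om k | sh n z ∈ {z : Om k | (z, sh n p) ∈ M'}} :=
      (hPMB k).1 p.2 n _ hcl.measurableSet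
    have h2 : {z : Om k | sh n z ∈ {z : Om k | (z, sh n p) ∈ M'}} = {z : Om k | (z, p) ∈ M'} := by
      ext z
      constructor
      · intro hz
        have := hM'.inv (-n) _ hz
        change sh (-n) ((sh n z, sh n p) : Om k × (B × PM k)) ∈ M' at this
        rw [sh_prod, ← sh_add, ← sh_add, neg_add_cancel, sh_zero, sh_zero] at this
        exact this
      · intro hz
        exact hM'.inv n _ hz
    change (((sh n p).2 {z : Om k | (z, sh n p) ∈ M'} : ℝ≥0) : ℝ) = _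
    rw [h1, h2]
  · intro a
    rcases le_or_gt a 0 with ha | ha
    · have : {x : B × PM k | a ≤ ((x.2 {z | (z, x) ∈ M'} : ℝ≥0) : ℝ)} = univ := by
        ext x
        exact ⟨fun _ => mem_univ _, fun _ => ha.trans (x.2 _).2⟩
      rw [this, inter_univ]
      exact hY.closed
    · lift a to ℝ≥0 using ha.le
      have h := hUSC k (B × PM k) M' hM'.closed a
      have h2 : IsClosed {x : B × PM k | a ≤ x.2 {z | (z, x) ∈ M'}} :=
        h.preimage (f := fun x : B × PM k => (x.2, x)) (by fun_prop)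
      have h3 : {x : B × PM k | (a : ℝ) ≤ ((x.2 {z | (z, x) ∈ M'} : ℝ≥0) : ℝ)} =
          {x : B × PM k | a ≤ x.2 {z | (z, x) ∈ M'}} := by
        ext x
        exact NNReal.coe_le_coe
      rw [h3]
      exact hY.closed.inter h2

/-! ### Separation, complements, data -/

theorem sep (hENG : S_ENG) (m : PM k) {U : Set (PM k)} (hU : IsOpen U) (hm : m ∈ U) :
    ∃ ρ : ℝ, 0 < ρ ∧ ∀ m', m' ∉ U → ρ ≤ d2 m' m := by
  by_cases hne : (Uᶜ).Nonempty
  · have hcont : Continuous fun m' : PM k => d2 m' m :=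
      (hENG k).2.2.1.comp (continuous_id.prodMk continuous_const)
    obtain ⟨m₁, h1, h2⟩ := hU.isClosed_compl.isCompact.exists_isMinOn hne hcont.continuousOn
    refine ⟨d2 m₁ m, ?_, fun m' hm' => h2 hm'⟩
    rcases (d2_nonneg m₁ m).lt_or_eq with h | h
    · exact h
    · have h3 := ((hENG k).2.2.2.1 m₁ m).2.2 h.symm
      exact (h1 (h3 ▸ hm)).elim
  · exact ⟨1, one_pos, fun m' hm' => (hne ⟨m', hm'⟩).elim⟩

theorem compl_add (m : PM k) {C : Set (Om k)} (hC : MeasurableSet C) :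
    (m C : ℝ) + (m Cᶜ : ℝ) = 1 := by
  have h : ((m C + m Cᶜ : ℝ≥0) : ℝ≥0∞) = 1 := by
    push_cast
    rw [ProbabilityMeasure.ennreal_coeFn_eq_coeFn_toMeasure,
      ProbabilityMeasure.ennreal_coeFn_eq_coeFn_toMeasure, measure_add_measure_compl hC,
      measure_univ]
  have h' : m C + m Cᶜ = 1 := by exact_mod_cast h
  exact_mod_cast congrArg (fun x : ℝ≥0 => (x : ℝ)) h'

theorem data {B : Type} [TopologicalSpace B] [CompactSpace B] [T2Space B] [Sys B]
    {M : Set (Om k × B)} {Y : Set (B × PM k)} {M' : Set (Om k × (B × PM k))}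
    (hM : MinSet M) (hM' : MinSet M') (hsub : M' ⊆ {q | q.2 ∈ Y ∧ (q.1, q.2.1) ∈ M})
    {v : B} {m : PM k} (hm : m {z | (z, v) ∈ M} = 1) (N : ℕ) :
    ∃ (zz : (Fin (2 * N + 1) → Fin k) → Om k) (μ : (Fin (2 * N + 1) → Fin k) → PM k),
      ∀ w, wt m N w ≠ 0 → win N (zz w) = w ∧ (zz w, (v, μ w)) ∈ M' := by
  have hcl : IsClosed {z : Om k | (z, v) ∈ M} := hM.closed.preimage (by fun_prop)
  have key : ∀ w, ∃ zm : Om k × PM k, wt m N w ≠ 0 → win N zm.1 = w ∧ (zm.1, (v, zm.2)) ∈ M' := by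
    intro w
    by_cases hw : wt m N w = 0
    · obtain ⟨q, hq⟩ := hM'.ne
      exact ⟨(q.1, q.2.2), fun h => (h hw).elim⟩
    · have hne : ∃ z, win N z = w ∧ (z, v) ∈ M := by
        by_contra hcon
        push Not at hcon
        apply hw
        have h1 : (m : Measure (Om k)) {z : Om k | (z, v) ∈ M}ᶜ = 0 := by
          rw [prob_compl_eq_zero_iff hcl.measurableSet,
            ← ProbabilityMeasure.ennreal_coeFn_eq_coeFn_toMeasure, hm]
          rfl
        have h2 : (m : Measure (Om k)) (win N ⁻¹' {w}) = 0 :=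
          measure_mono_null (fun z hz => hcon z hz) h1
        unfold wt
        rw [← ProbabilityMeasure.ennreal_coeFn_eq_coeFn_toMeasure] at h2
        exact_mod_cast h2
      obtain ⟨z, hz1, hz2⟩ := hne
      obtain ⟨m', hm'⟩ := proj hM hM' hsub (z, v) hz2
      exact ⟨(z, m'), fun _ => ⟨hz1, hm'⟩⟩
  choose f hf using key
  exact ⟨fun w => (f w).1, fun w => (f w).2, hf⟩

end I_GL

open I_GL in
theorem GL_pf (hCST : S_CST) (hCYL : S_CYL) (hPMB : S_PMB) (hUSC : S_USC) (hCLP : S_CLP)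
    (hENG : S_ENG) (hAAB : S_AAB) (hPRX : S_PRX) : S_GL := by
  intro k B _ _ _ _ M Y M' hM hY hYA hM' hsub p hp
  obtain ⟨v, m⟩ := p
  by_contra hne
  change ¬ m {z | (z, ((v, m) : B × PM k)) ∈ M'} = 1 at hne
  set a : ℝ≥0 := m {z | (z, ((v, m) : B × PM k)) ∈ M'} with ha
  have ha1 : a < 1 := lt_of_le_of_ne (m.apply_le_one _) hne
  have ha1' : (a : ℝ) < 1 := by exact_mod_cast ha1
  have hmA : (v, m) ∈ AA M := hYA hp
  -- the finite combinations
  choose zz μ hd using fun N => data hM hM' hsub hmA.1 N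
  set b : ℕ → PM k := fun N => comb (wt m N) (wt_sum m N) (μ N) with hb
  have hμY : ∀ N w, wt m N w ≠ 0 → (v, μ N w) ∈ Y := fun N w hw => (hsub (hd N w hw).2).1
  have hbA : ∀ N, (v, b N) ∈ AA M := fun N =>
    comb_AA hPMB hENG hmA _ _ _ fun w hw => hYA (hμY N w hw)
  -- the limit of the combinations
  obtain ⟨β, -, hβ⟩ := (isCompact_univ (X := PM k)).ultrafilter_le_nhds
    ((hyperfilter ℕ).map b) (by simp)
  have hβt : Tendsto b (hyperfilter ℕ) (𝓝 β) := hβ
  have hclA : IsClosed (AA M) := (hAAB k B M hM).2.2.1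
  have hβA : (v, β) ∈ AA M := by
    have h1 : IsClosed {m' : PM k | (v, m') ∈ AA M} := hclA.preimage (by fun_prop)
    exact h1.mem_of_tendsto hβt (Eventually.of_forall hbA)
  -- proximal times
  have hprx := fun l : ℕ => hPRX k B M hM v m β hmA hβA (1 / ((l : ℝ) + 1)) (by positivity)
  choose n hn1 _ hn3 using hprx
  obtain ⟨⟨ve, me⟩, -, he⟩ := (isCompact_univ (X := B × PM k)).ultrafilter_le_nhds
    ((hyperfilter ℕ).map (fun l => sh (n l) ((v, m) : B × PM k))) (by simp)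
  have het : Tendsto (fun l => sh (n l) ((v, m) : B × PM k)) (hyperfilter ℕ) (𝓝 (ve, me)) := he
  have heY : (ve, me) ∈ Y :=
    hY.closed.mem_of_tendsto het (Eventually.of_forall fun l => hY.inv _ _ hp)
  have hev : Tendsto (fun l => sh (n l) v) (hyperfilter ℕ) (𝓝 ve) :=
    (continuous_fst.tendsto _).comp het
  have hem : Tendsto (fun l => sh (n l) m) (hyperfilter ℕ) (𝓝 me) :=
    (continuous_snd.tendsto _).comp het
  -- the clopen set
  have hea : me {z | (z, ((ve, me) : B × PM k)) ∈ M'} = a :=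
    (const hCST hPMB hUSC hY hM' _ hp _ heY).symm
  have hKcl : IsClosed {z : Om k | (z, ((ve, me) : B × PM k)) ∈ M'} :=
    hM'.closed.preimage (by fun_prop)
  have ha2 : a < (1 + a) / 2 := by
    rw [← NNReal.coe_lt_coe]
    push_cast
    linarith
  obtain ⟨C, hC, hKC, hCa⟩ := hCLP k me _ ((1 + a) / 2) hKcl (by rw [hea]; exact ha2)
  have hCa' : (me C : ℝ) < (1 + a) / 2 := by
    have := NNReal.coe_lt_coe.2 hCa
    push_cast at this
    exact this
  have hCc : (1 - (a : ℝ)) / 2 < (me Cᶜ : ℝ) := by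
    have := compl_add me hC.isOpen.measurableSet
    linarith
  -- the tube
  have hEcl : IsClosed ((fun q : Om k × (B × PM k) => q.2) '' (M' ∩ {q | q.1 ∉ C})) := by
    have h1 : IsClosed (M' ∩ {q : Om k × (B × PM k) | q.1 ∉ C}) :=
      hM'.closed.inter (hC.compl.isClosed.preimage continuous_fst)
    exact (h1.isCompact.image continuous_snd).isClosed
  have hEn : ((ve, me) : B × PM k) ∉
      ((fun q : Om k × (B × PM k) => q.2) '' (M' ∩ {q | q.1 ∉ C})) := by
    rintro ⟨⟨z, q⟩, ⟨h1, h2⟩, h3⟩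
    change q = (ve, me) at h3
    subst h3
    exact h2 (hKC h1)
  obtain ⟨G1, G2, hG1, hv1, hG2, hm2, hG⟩ :=
    mem_nhds_prod_iff'.1 (hEcl.isOpen_compl.mem_nhds hEn)
  obtain ⟨ρ, hρ, hρ2⟩ := sep hENG me hG2 hm2
  set ε : ℝ := min (ρ / 80) (ρ * (1 - a) / 16) with hε
  have hε0 : 0 < ε := by
    rw [hε, lt_min_iff]
    constructor
    · positivity
    · have : 0 < 1 - (a : ℝ) := by linarith
      positivity
  have hε1 : ε ≤ ρ / 80 := min_le_left _ _
  have hε2 : ε ≤ ρ * (1 - a) / 16 := min_le_right _ _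
  -- choice of the time
  have e1 : ∀ᶠ l : ℕ in (hyperfilter ℕ : Filter ℕ), 1 / ((l : ℝ) + 1) < ε :=
    Nat.hyperfilter_le_atTop
      ((tendsto_one_div_add_atTop_nhds_zero_nat (𝕜 := ℝ)).eventually (gt_mem_nhds hε0))
  have e2 : ∀ᶠ l in (hyperfilter ℕ : Filter ℕ), d2 (sh (n l) m) me < ε := by
    have h1 : Tendsto (fun l => d2 (sh (n l) m) me) (hyperfilter ℕ) (𝓝 (d2 me me)) :=
      (((hENG k).2.2.1.comp (continuous_id.prodMk continuous_const)).tendsto me).comp hem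
    rw [d2_self] at h1
    exact h1.eventually (gt_mem_nhds hε0)
  have e3 : ∀ᶠ l in (hyperfilter ℕ : Filter ℕ), sh (n l) v ∈ G1 := hev (hG1.mem_nhds hv1)
  have e4 : ∀ᶠ l in (hyperfilter ℕ : Filter ℕ), (1 - (a : ℝ)) / 2 < ((sh (n l) m) Cᶜ : ℝ) := by
    have h1 : Continuous fun m' : PM k => ((m' Cᶜ : ℝ≥0) : ℝ) :=
      NNReal.continuous_coe.comp ((hPMB k).2.2.1 Cᶜ hC.compl)
    exact ((h1.tendsto me).comp hem).eventually (lt_mem_nhds hCc)
  obtain ⟨l, h1, h2, h3, h4⟩ := (e1.and (e2.and (e3.and e4))).exists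
  have g1 := hn1 l
  have g3 := hn3 l
  set t : ℤ := n l with ht
  have q1 : d2 (sh t m) (sh t β) < ε := g1.trans h1
  have q3 : GG m - ε < FF (sh t β) := by linarith
  -- choice of the window
  have f1 : ∀ᶠ N in (hyperfilter ℕ : Filter ℕ), d2 (sh t (b N)) (sh t β) < ε := by
    have h1 : Tendsto (fun N => d2 (sh t (b N)) (sh t β)) (hyperfilter ℕ)
        (𝓝 (d2 (sh t β) (sh t β))) :=
      (((hENG k).2.2.1.comp ((sh_cont t).prodMk continuous_const)).tendsto β).comp hβt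
    rw [d2_self] at h1
    exact h1.eventually (gt_mem_nhds hε0)
  have f2 : ∀ᶠ N in (hyperfilter ℕ : Filter ℕ), GG m - ε < FF (sh t (b N)) := by
    have h1 : Tendsto (fun N => FF (sh t (b N))) (hyperfilter ℕ) (𝓝 (FF (sh t β))) :=
      (((hENG k).1.comp (sh_cont t)).tendsto β).comp hβt
    exact h1.eventually (lt_mem_nhds q3)
  have hCn : IsClopen {z : Om k | sh t z ∉ C} := hC.compl.preimage (sh_cont t)
  obtain ⟨N₀, hN₀⟩ := (hCYL k).2.2.2.2.2.1 _ hCn
  have f3 : ∀ᶠ N in (hyperfilter ℕ : Filter ℕ), N₀ ≤ N :=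
    Nat.hyperfilter_le_atTop (eventually_ge_atTop N₀)
  obtain ⟨N, i1, i2, i3⟩ := (f1.and (f2.and f3)).exists
  classical
  set S : Finset (Fin (2 * N + 1) → Fin k) :=
    Finset.univ.filter fun w => ∃ z : Om k, sh t z ∉ C ∧ win N z = w with hS
  have hsat : ∀ z z' : Om k, sh t z ∉ C → win N z' = win N z → sh t z' ∉ C := by
    intro z z' hz hzz
    have h1 := hN₀ N i3 z hz
    refine h1 (((hCYL k).2.2.2.1 z z' N).2 fun j hj => ?_)
    exact win_eq hzz j hj
  have hpre : (win N : Om k → _) ⁻¹' (S : Set (Fin (2 * N + 1) → Fin k)) =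
      {z : Om k | sh t z ∈ Cᶜ} := by
    ext z
    constructor
    · intro hz
      have hz' : win N z ∈ S := hz
      rw [hS, Finset.mem_filter] at hz'
      obtain ⟨_, z', hz1, hz2⟩ := hz'
      exact hsat z' z hz1 hz2.symm
    · intro hz
      change win N z ∈ S
      rw [hS, Finset.mem_filter]
      exact ⟨Finset.mem_univ _, z, hz, rfl⟩
  have hmass : ((∑ w ∈ S, wt m N w : ℝ≥0) : ℝ) = ((sh t m) Cᶜ : ℝ) := by
    rw [wt_sum_finset, hpre, (hPMB k).1 m t Cᶜ hC.compl.isOpen.measurableSet]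
  -- the variance
  have hvar := variance hPMB (wt m N) (wt_sum m N) (μ N) t
  change ∑ w, (wt m N w : ℝ) * d2 (sh t (μ N w)) (sh t (b N)) =
    ∑ w, (wt m N w : ℝ) * FF (sh t (μ N w)) - FF (sh t (b N)) at hvar
  have hsum1 : ∑ w, (wt m N w : ℝ) = 1 := by
    exact_mod_cast congrArg (fun x : ℝ≥0 => (x : ℝ)) (wt_sum m N)
  have hup : ∑ w, (wt m N w : ℝ) * FF (sh t (μ N w)) ≤ GG m := by
    have h1 : ∑ w, (wt m N w : ℝ) * FF (sh t (μ N w)) ≤ ∑ w, (wt m N w : ℝ) * GG m := by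
      refine Finset.sum_le_sum fun w _ => ?_
      by_cases hw : wt m N w = 0
      · simp [hw]
      · refine mul_le_mul_of_nonneg_left ?_ (wt m N w).2
        have h2 : GG (μ N w) ≤ GG m := (hYA (hμY N w hw)).2 (v, m) hmA.1
        exact (FF_le_GG hENG (μ N w) t).trans h2
    rw [← Finset.sum_mul, hsum1, one_mul] at h1
    exact h1
  have hbe : d2 (sh t (b N)) me ≤ 10 * ε := by
    have r1 := d2_tri (sh t (b N)) (sh t β) me
    have r2 := d2_tri (sh t β) (sh t m) me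
    have r3 := d2_comm (sh t β) (sh t m)
    rw [r3] at r2
    linarith
  have hlow : ∀ w ∈ S, (wt m N w : ℝ) * (ρ / 4) ≤
      (wt m N w : ℝ) * d2 (sh t (μ N w)) (sh t (b N)) := by
    intro w hw
    by_cases hw0 : wt m N w = 0
    · simp [hw0]
    refine mul_le_mul_of_nonneg_left ?_ (wt m N w).2
    obtain ⟨hz1, hz2⟩ := hd N w hw0
    rw [hS, Finset.mem_filter] at hw
    obtain ⟨_, z', hz3, hz4⟩ := hw
    have hzC : sh t (zz N w) ∉ C := hsat z' (zz N w) hz3 (hz1.trans hz4.symm)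
    have hzM : (sh t (zz N w), (sh t v, sh t (μ N w))) ∈ M' := hM'.inv t _ hz2
    have hG2' : sh t (μ N w) ∉ G2 := by
      intro hin
      have := hG (mk_mem_prod h3 hin)
      exact this ⟨(sh t (zz N w), (sh t v, sh t (μ N w))), ⟨hzM, hzC⟩, rfl⟩
    have r1 := hρ2 _ hG2'
    have r2 := d2_tri (sh t (μ N w)) (sh t (b N)) me
    linarith
  have hfin : (∑ w ∈ S, (wt m N w : ℝ)) * (ρ / 4) ≤
      ∑ w, (wt m N w : ℝ) * d2 (sh t (μ N w)) (sh t (b N)) := by
    rw [Finset.sum_mul]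
    refine (Finset.sum_le_sum hlow).trans ?_
    exact Finset.sum_le_sum_of_subset_of_nonneg (Finset.subset_univ _)
      fun w _ _ => mul_nonneg (wt m N w).2 (d2_nonneg _ _)
  have hmass' : (∑ w ∈ S, (wt m N w : ℝ)) = ((sh t m) Cᶜ : ℝ) := by
    rw [← hmass]
    push_cast
    rfl
  rw [hmass', hvar] at hfin
  have hx : (1 - (a : ℝ)) / 2 * (ρ / 4) < ((sh t m) Cᶜ : ℝ) * (ρ / 4) :=
    mul_lt_mul_of_pos_right h4 (by positivity)
  nlinarith

end Pool.Agent.Work.MP_69fea5_lc.AK
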