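import Pool.Agent.Work.MP_69fea5_lc.AK.Stmts

/-!
# Block [69fea5 ALLK], item GLM

The system `MM m` of the measure `m`, `(v, m) ∈ Y`, is minimal: it is the image of `M'`.
-/

set_option autoImplicit false

namespace Pool.Agent.Work.MP_69fea5_lc.AK

open MeasureTheory Topology Set Filter
open scoped NNReal

theorem GLM_pf (hIMG : S_IMG) (hSUP : S_SUP) (hMMB : S_MMB) (hGL : S_GL) : S_GLM := by
  intro k B _ _ _ _ M Y M' hM hY hYA hM' hsub p hp
  have hfc : Continuous (fun q : Om k × (B × PM k) => (q.1, q.2.2)) :=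
    continuous_fst.prodMk (continuous_snd.comp continuous_snd)
  have hI : MinSet ((fun q : Om k × (B × PM k) => (q.1, q.2.2)) '' M') :=
    hIMG _ _ M' _ hM' hfc.continuousOn (fun n x _ => rfl)
  have key : ∀ z ∈ supp p.2, (z, p.2) ∈ (fun q : Om k × (B × PM k) => (q.1, q.2.2)) '' M' := by
    intro z hz
    have h1 : p.2 {z | (z, p) ∈ M'} = 1 := hGL k B M Y M' hM hY hYA hM' hsub p hp
    have hcl : IsClosed {z | (z, p) ∈ M'} :=
      hM'.closed.preimage (continuous_id.prodMk continuous_const)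
    exact ⟨(z, p), (hSUP k p.2).2.2.2.2.2.2.1 _ hcl h1 hz, rfl⟩
  have hsub2 : MM p.2 ⊆ (fun q : Om k × (B × PM k) => (q.1, q.2.2)) '' M' := by
    refine closure_minimal ?_ hI.closed
    rintro _ ⟨n, z, hz, rfl⟩
    exact hI.inv n _ (key z hz)
  obtain ⟨z, hz⟩ := (hSUP k p.2).2.2.1
  have heq : MM p.2 = (fun q : Om k × (B × PM k) => (q.1, q.2.2)) '' M' :=
    hI.min (MM p.2) (hMMB k p.2).1 ⟨(z, p.2), (hMMB k p.2).2.2.1 z hz⟩ (hMMB k p.2).2.1 hsub2
  exact ⟨heq ▸ hI, heq⟩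

end Pool.Agent.Work.MP_69fea5_lc.AK
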