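import Pool.Agent.Work.MP_69fea5_lc.AK.Stmts

/-! Block [69fea5 ALLK], item MMB: the system of a measure is closed and invariant (helper50). -/

set_option autoImplicit false

namespace Pool.Agent.Work.MP_69fea5_lc.AK

open MeasureTheory Topology Set Filter
open scoped NNReal

namespace I_MMB

variable {k : ℕ}

/-- the set whose closure is `MM m` -/
def gen (m : PM k) : Set (Om k × PM k) := {p | ∃ n : ℤ, ∃ z ∈ supp m, p = (sh n z, sh n m)}

theorem gen_sh (m : PM k) (a : ℤ) {p : Om k × PM k} (hp : p ∈ gen m) : sh a p ∈ gen m := by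
  obtain ⟨n, z, hz, rfl⟩ := hp
  refine ⟨a + n, z, hz, ?_⟩
  rw [sh_prod, ← sh_add, ← sh_add]

end I_MMB

open I_MMB in
theorem MMB_pf : S_MMB := by
  intro k m
  have hMM : MM m = closure (gen m) := rfl
  refine ⟨?_, ?_, ?_, ?_⟩
  · rw [hMM]
    exact isClosed_closure
  · intro a p hp
    rw [hMM] at hp ⊢
    exact map_mem_closure (sh_cont a) hp fun q hq => gen_sh m a hq
  · intro z hz
    rw [hMM]
    refine subset_closure ⟨0, z, hz, ?_⟩
    rw [sh_zero, sh_zero]
  · have hcl : IsClosed {p : Om k × PM k | p.2 ∈ orb m} :=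
      (isClosed_closure (s := Set.range fun n : ℤ => sh n m)).preimage continuous_snd
    intro p hp
    rw [hMM] at hp
    refine (closure_minimal ?_ hcl) hp
    rintro q ⟨n, z, hz, rfl⟩
    exact subset_closure ⟨n, rfl⟩

end Pool.Agent.Work.MP_69fea5_lc.AK
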