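import Pool.Agent.Work.MP_69fea5_lc.AK.Stmts

/-!
# [69fea5 ALLK] item PRX

Two measures of the energy set over the same base point are proximal, along times of almost
maximal energy.
-/

set_option autoImplicit false

namespace Pool.Agent.Work.MP_69fea5_lc.AK

open MeasureTheory Topology Set Filter
open scoped NNReal

namespace I_PRX

variable {k : ℕ}

theorem bdd (hENG : S_ENG) (m : PM k) : BddAbove (Set.range fun n : ℤ => FF (sh n m)) :=
  ⟨2, by rintro _ ⟨n, rfl⟩; exact ((hENG k).2.1 (sh n m)).2⟩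

theorem FF_le (hENG : S_ENG) (m : PM k) (n : ℤ) : FF (sh n m) ≤ GG m :=
  le_ciSup (bdd hENG m) n

theorem exists_near (m : PM k) (δ : ℝ) (hδ : 0 < δ) : ∃ n : ℤ, GG m - δ < FF (sh n m) :=
  exists_lt_of_lt_ciSup (by unfold GG; linarith)

theorem fibre_closed {B : Type} [TopologicalSpace B] (M : Set (Om k × B)) (hM : IsClosed M)
    (v : B) : IsClosed {z : Om k | (z, v) ∈ M} :=
  hM.preimage (Continuous.prodMk continuous_id continuous_const)

end I_PRX

open I_PRX in
/-- [PRX] -/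
theorem PRX_pf (hENG : S_ENG) : S_PRX := by
  intro k B _ _ _ _ M hM v m m' hm hm' ε hε
  obtain ⟨a, ha, hF⟩ := (hENG k).2.2.2.2 m m'
  have haQ : (v, a) ∈ QQ M := by
    have h1 : m {z : Om k | (z, v) ∈ M} = 1 := hm.1
    have h2 : m' {z : Om k | (z, v) ∈ M} = 1 := hm'.1
    have h3 := ha {z : Om k | (z, v) ∈ M} (fibre_closed M hM.closed v).measurableSet
    rw [h1, h2] at h3
    change a {z : Om k | (z, v) ∈ M} = 1
    have : (a {z : Om k | (z, v) ∈ M} : ℝ) = 1 := by rw [h3]; norm_num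
    exact_mod_cast this
  have e1 : GG m ≤ GG a := hm.2 (v, a) haQ
  have e2 : GG m ≤ GG m' := hm.2 (v, m') hm'.1
  have e3 : GG m' ≤ GG m := hm'.2 (v, m) hm.1
  obtain ⟨n, hn⟩ := exists_near a (ε / 4) (by linarith)
  have f1 := FF_le hENG m n
  have f2 := FF_le hENG m' n
  have f3 := hF n
  have f4 := ((hENG k).2.2.2.1 (sh n m) (sh n m')).1
  refine ⟨n, ?_, ?_, ?_⟩ <;> linarith

end Pool.Agent.Work.MP_69fea5_lc.AK
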