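import Pool.Agent.Work.MP_69fea5_lc.AK.Stmts

/-!
# [69fea5 ALLK SEMI] factor maps of minimal sets are semi-open
-/

set_option autoImplicit false

namespace Pool.Agent.Work.MP_69fea5_lc.AK

open MeasureTheory Topology Set

namespace I_SEMI

theorem interior_biUnion_empty {S : Type*} [TopologicalSpace S] (F : Finset ℤ)
    (D : ℤ → Set S) (hc : ∀ n ∈ F, IsClosed (D n)) (hi : ∀ n ∈ F, interior (D n) = ∅) :
    interior (⋃ n ∈ F, D n) = ∅ := by
  classical
  induction F using Finset.induction_on with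
  | empty => simp
  | insert a s ha ih =>
    have h1 : interior (⋃ n ∈ s, D n) = ∅ :=
      ih (fun n hn => hc n (Finset.mem_insert_of_mem hn))
        (fun n hn => hi n (Finset.mem_insert_of_mem hn))
    rw [Finset.set_biUnion_insert]
    rw [interior_union_isClosed_of_interior_empty (hc a (Finset.mem_insert_self a s)) h1]
    exact hi a (Finset.mem_insert_self a s)

theorem cover {X : Type*} [TopologicalSpace X] [CompactSpace X] [Sys X] {K : Set X}
    (hK : MinSet K) {O : Set X} (hO : IsOpen O) (hne : (O ∩ K).Nonempty) :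
    ∃ F : Finset ℤ, K ⊆ ⋃ n ∈ F, (sh n : X → X) ⁻¹' O := by
  have hall : ∀ x ∈ K, ∃ n : ℤ, sh n x ∈ O := by
    by_contra hcon
    push Not at hcon
    obtain ⟨x, hx, hxn⟩ := hcon
    have hLc : IsClosed (K ∩ ⋂ n : ℤ, (sh n : X → X) ⁻¹' Oᶜ) :=
      hK.closed.inter (isClosed_iInter fun n => hO.isClosed_compl.preimage (sh_cont n))
    have hLi : Inv (K ∩ ⋂ n : ℤ, (sh n : X → X) ⁻¹' Oᶜ) := by
      intro m y hy
      refine ⟨hK.inv m y hy.1, ?_⟩
      rw [mem_iInter]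
      intro n
      change sh n (sh m y) ∈ Oᶜ
      rw [← sh_add]
      exact (mem_iInter.1 hy.2 (n + m) : sh (n + m) y ∈ Oᶜ)
    have hLe := hK.min _ hLc ⟨x, hx, mem_iInter.2 fun n => hxn n⟩ hLi inter_subset_left
    obtain ⟨y, hyO, hyK⟩ := hne
    rw [← hLe] at hyK
    have h0 := mem_iInter.1 hyK.2 0
    have h1 : sh (0 : ℤ) y ∈ Oᶜ := h0
    rw [sh_zero] at h1
    exact h1 hyO
  obtain ⟨F, hF⟩ := hK.closed.isCompact.elim_finite_subcover
    (fun n : ℤ => (sh n : X → X) ⁻¹' O) (fun n => hO.preimage (sh_cont n))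
    (fun x hx => by
      obtain ⟨n, hn⟩ := hall x hx
      exact mem_iUnion.2 ⟨n, hn⟩)
  exact ⟨F, hF⟩

end I_SEMI

open I_SEMI in
theorem SEMI_pf : S_SEMI := by
  intro X Y _ _ _ _ _ _ _ K f hK hf hsh U hU hUK
  classical
  obtain ⟨x, hxU, hxK⟩ := hUK
  obtain ⟨O, hOo, hxO, hOU⟩ : ∃ O : Set X, IsOpen O ∧ x ∈ O ∧ closure O ⊆ U := by
    obtain ⟨t, ht, htc, htU⟩ := exists_mem_nhds_isClosed_subset (hU.mem_nhds hxU)
    refine ⟨interior t, isOpen_interior, mem_interior_iff_mem_nhds.2 ht, ?_⟩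
    exact (closure_minimal interior_subset htc).trans htU
  obtain ⟨F, hF⟩ := cover hK hOo ⟨x, hxO, hxK⟩
  -- the closed pieces
  set C : ℤ → Set Y := fun n => f '' (K ∩ (sh n : X → X) ⁻¹' closure O) with hC
  have hCc : ∀ n, IsClosed (C n) := by
    intro n
    have h1 : IsCompact (K ∩ (sh n : X → X) ⁻¹' closure O) :=
      (hK.closed.inter (isClosed_closure.preimage (sh_cont n))).isCompact
    exact (h1.image_of_continuousOn (hf.mono inter_subset_left)).isClosed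
  have hcov : f '' K ⊆ ⋃ n ∈ F, C n := by
    rintro _ ⟨y, hy, rfl⟩
    have := hF hy
    simp only [mem_iUnion, exists_prop] at this ⊢
    obtain ⟨n, hn, hyn⟩ := this
    exact ⟨n, hn, y, ⟨hy, subset_closure hyn⟩, rfl⟩
  have hex : ∃ n ∈ F, (interior ((Subtype.val : (f '' K) → Y) ⁻¹' C n)).Nonempty := by
    by_contra hcon
    push Not at hcon
    have h1 := interior_biUnion_empty F (fun n => (Subtype.val : (f '' K) → Y) ⁻¹' C n)
      (fun n _ => (hCc n).preimage continuous_subtype_val)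
      (fun n hn => hcon n hn)
    have h2 : (⋃ n ∈ F, (Subtype.val : (f '' K) → Y) ⁻¹' C n) = univ := by
      apply eq_univ_of_forall
      intro y
      have := hcov y.2
      simp only [mem_iUnion, exists_prop, mem_preimage] at this ⊢
      exact this
    rw [h2, interior_univ] at h1
    have : (⟨f x, mem_image_of_mem f hxK⟩ : (f '' K)) ∈ (univ : Set (f '' K)) := mem_univ _
    rw [h1] at this
    exact this
  obtain ⟨n, -, y0, hy0⟩ := hex
  obtain ⟨V0, hV0o, hV0⟩ := isOpen_induced_iff.1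
    (isOpen_interior (s := (Subtype.val : (f '' K) → Y) ⁻¹' C n))
  have hV0C : ∀ y, y ∈ V0 → y ∈ f '' K → y ∈ C n := by
    intro y hy hyK
    have h1 : (⟨y, hyK⟩ : (f '' K)) ∈ (Subtype.val : (f '' K) → Y) ⁻¹' V0 := hy
    rw [hV0] at h1
    have h2 : (⟨y, hyK⟩ : (f '' K)) ∈ (Subtype.val : (f '' K) → Y) ⁻¹' C n := interior_subset h1
    exact h2
  have hinvK : ∀ (m : ℤ) (y : Y), y ∈ f '' K → sh m y ∈ f '' K := by
    rintro m _ ⟨z, hz, rfl⟩
    exact ⟨sh m z, hK.inv m z hz, hsh m z hz⟩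
  refine ⟨(sh (-n) : Y → Y) ⁻¹' V0, hV0o.preimage (sh_cont (-n)), ⟨sh n y0.1, ?_, ?_⟩, ?_⟩
  · change sh (-n) (sh n y0.1) ∈ V0
    rw [← sh_add, neg_add_cancel, sh_zero]
    have h1 : y0 ∈ (Subtype.val : (f '' K) → Y) ⁻¹' V0 := by rw [hV0]; exact hy0
    exact h1
  · exact hinvK n _ y0.2
  · rintro y ⟨hyV, hyK⟩
    have hy1 : sh (-n) y ∈ V0 := hyV
    obtain ⟨z, ⟨hzK, hzO⟩, hz⟩ := hV0C _ hy1 (hinvK (-n) y hyK)
    refine ⟨sh n z, ⟨hOU hzO, hK.inv n z hzK⟩, ?_⟩
    rw [hsh n z hzK, hz, ← sh_add, add_neg_cancel, sh_zero]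

end Pool.Agent.Work.MP_69fea5_lc.AK
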