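import Pool.Agent.Work.MP_69fea5_lc.AK.Stmts

/-!
# Block [69fea5 ALLK], item STG: facts on a stage
-/

set_option autoImplicit false

namespace Pool.Agent.Work.MP_69fea5_lc.AK

open MeasureTheory Topology Set Filter
open scoped NNReal

namespace I_STG

variable {k : ℕ}

theorem isClosed_fibre {X : Type} [TopologicalSpace X] {K : Set (Om k × X)} (hK : IsClosed K)
    (x : X) : IsClosed {z | (z, x) ∈ K} :=
  hK.preimage (continuous_id.prodMk continuous_const)

theorem clopen_col (D : Finset (Fin k)) : IsClopen {z : Om k | z 0 ∉ D} := by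
  have : {z : Om k | z 0 ∉ D} = (fun z : Om k => z 0) ⁻¹' {a | a ∉ D} := rfl
  rw [this]
  exact (isClopen_discrete _).preimage (continuous_apply 0)

end I_STG

open I_STG in
theorem STG_pf (hORB : S_ORB) (hOMG : S_OMG) (hIMG : S_IMG) (hPMB : S_PMB) (hUSC : S_USC)
    (hSUP : S_SUP) (hMMB : S_MMB) : S_STG := by
  intro k c m0 D hS
  obtain ⟨hMc, hMi, hMs, hMo⟩ := hMMB k m0
  obtain ⟨hs1, hs2, hs3, -, -, -, hs7, -⟩ := hSUP k m0
  obtain ⟨z0, hz0⟩ := hs3
  have h1 : MM m0 ⊆ omg (c, m0) := by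
    obtain ⟨hc, hi, -⟩ := hOMG (Om k × PM k) (c, m0)
    exact (hORB (Om k × PM k) (c, m0)).2.2.2.2.2.1 _ _ hS.min hc hi hS.base
  have h2 : MinSet (orb m0) := by
    have hM : MinSet (Prod.snd '' MM m0) :=
      hIMG (Om k × PM k) (PM k) (MM m0) Prod.snd hS.min continuous_snd.continuousOn
        (fun n x _ => rfl)
    have he : orb m0 = Prod.snd '' MM m0 :=
      (hORB (PM k) m0).2.2.2.2.1 _ hM ⟨(z0, m0), hMs z0 hz0, rfl⟩
    rw [he]; exact hM
  have hcl : ∀ m : PM k, IsClosed {z : Om k | (z, m) ∈ MM m0} := fun m => isClosed_fibre hMc m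
  have h3 : ∀ m ∈ orb m0, m {z | (z, m) ∈ MM m0} = 1 := by
    have hclS : IsClosed {m : PM k | 1 ≤ m {z | (z, m) ∈ MM m0}} :=
      (hUSC k (PM k) (MM m0) hMc 1).preimage (continuous_id.prodMk continuous_id)
    have hinv : Inv {m : PM k | 1 ≤ m {z | (z, m) ∈ MM m0}} := by
      intro n m hm
      have hm' : 1 ≤ m {z | (z, m) ∈ MM m0} := hm
      change 1 ≤ sh n m {z | (z, sh n m) ∈ MM m0}
      rw [(hPMB k).1 m n _ (hcl _).measurableSet]
      refine hm'.trans (m.apply_mono ?_)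
      intro z hz
      exact hMi n (z, m) hz
    have hmem : m0 ∈ {m : PM k | 1 ≤ m {z | (z, m) ∈ MM m0}} := by
      change 1 ≤ m0 {z | (z, m0) ∈ MM m0}
      rw [← hs2]
      exact m0.apply_mono fun z hz => hMs z hz
    intro m hm
    exact le_antisymm (m.apply_le_one _)
      ((hORB (PM k) m0).2.2.2.1 _ hclS hinv hmem hm)
  refine ⟨h1, h2, h3, ?_, ?_⟩
  · intro m hm z hz
    exact (hSUP k m).2.2.2.2.2.2.1 _ (hcl m) (h3 m hm) hz
  · have hclS : IsClosed {m : PM k | m {z | z 0 ∉ D} = 0} := by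
      have := (hPMB k).2.2.1 _ (clopen_col D)
      exact isClosed_eq this continuous_const
    have : m0 ∈ closure {m : PM k | m {z | z 0 ∉ D} = 0} := by
      rw [mem_closure_iff_nhds]
      intro U hU
      obtain ⟨n, hn, V, hV, hVm⟩ := hS.rob U hU
      exact ⟨sh n m0, hn, hVm _ ((hORB (PM k) (sh n m0)).2.2.1) (mem_of_mem_nhds hV)⟩
    rw [hclS.closure_eq] at this
    exact this

end Pool.Agent.Work.MP_69fea5_lc.AK
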