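import Mathlib

/-!
# Block [69fea5 ALLK], mathematics: definitions

Systems (continuous actions of `ℤ`), minimal sets, the space `Om k = ℤ → Fin k`, its probability
measures `PM k`, stages, McMahon's relation, the energy set.
Paper proof: notes 3380, 3439 on MP_69fea5_lc.
-/

set_option autoImplicit false

namespace Pool.Agent.Work.MP_69fea5_lc.AK

open MeasureTheory Topology Set
open scoped NNReal

/-! ### Systems -/

/-- a continuous action of `ℤ` -/
class Sys (X : Type*) [TopologicalSpace X] where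
  sh : ℤ → X → X
  zero' : ∀ x, sh 0 x = x
  add' : ∀ m n x, sh (m + n) x = sh m (sh n x)
  cont' : ∀ n, Continuous (sh n)

export Sys (sh)

section dyn

variable {X : Type*} [TopologicalSpace X] [Sys X]

theorem sh_zero (x : X) : sh 0 x = x := Sys.zero' x
theorem sh_add (m n : ℤ) (x : X) : sh (m + n) x = sh m (sh n x) := Sys.add' m n x
theorem sh_cont (n : ℤ) : Continuous (sh n : X → X) := Sys.cont' n

/-- invariant sets -/
def Inv (K : Set X) : Prop := ∀ n : ℤ, ∀ x ∈ K, sh n x ∈ K

/-- the orbit closure -/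
def orb (x : X) : Set X := closure (Set.range fun n : ℤ => sh n x)

/-- minimal sets -/
structure MinSet (K : Set X) : Prop where
  closed : IsClosed K
  ne : K.Nonempty
  inv : Inv K
  min : ∀ L : Set X, IsClosed L → L.Nonempty → Inv L → L ⊆ K → L = K

/-- the limit points of `sh n x`, `n → +∞` -/
def omg (x : X) : Set X := {q | ∀ U ∈ 𝓝 q, ∀ N : ℕ, ∃ n : ℕ, N ≤ n ∧ sh (n : ℤ) x ∈ U}

end dyn

instance {X Y : Type*} [TopologicalSpace X] [TopologicalSpace Y] [Sys X] [Sys Y] :
    Sys (X × Y) where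
  sh n p := (sh n p.1, sh n p.2)
  zero' p := by simp [sh_zero]
  add' m n p := by simp [sh_add]
  cont' n := ((sh_cont n).comp continuous_fst).prodMk ((sh_cont n).comp continuous_snd)

@[simp] theorem sh_prod {X Y : Type*} [TopologicalSpace X] [TopologicalSpace Y] [Sys X] [Sys Y]
    (n : ℤ) (x : X) (y : Y) : sh n (x, y) = (sh n x, sh n y) := rfl

instance seqSys {A : Type*} [TopologicalSpace A] : Sys (ℤ → A) where
  sh n z := fun i => z (i + n)
  zero' z := by simp
  add' m n z := by funext i; simp [add_assoc]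
  cont' n := continuous_pi fun i => continuous_apply (i + n)

/-- points of `[0,1]^(I × ℤ)` -/
abbrev Cube (I : Type*) := I → ℤ → unitInterval

instance cubeSys {I : Type*} : Sys (Cube I) where
  sh n y := fun i j => y i (j + n)
  zero' z := by simp
  add' m n z := by funext i j; simp [add_assoc]
  cont' n := continuous_pi fun i => continuous_pi fun j =>
    (continuous_apply (j + n)).comp (continuous_apply i)

/-! ### Colour sequences, words, measures -/

/-- two-sided sequences of colours -/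
abbrev Om (k : ℕ) := ℤ → Fin k

/-- probability measures on `Om k` (compact and metrizable) -/
abbrev PM (k : ℕ) := ProbabilityMeasure (Om k)

/-- words -/
abbrev Wd (k : ℕ) := List (Fin k)

variable {k : ℕ}

noncomputable instance pmSys : Sys (PM k) where
  sh n m := m.map (f := (sh n : Om k → Om k)) (sh_cont n).measurable.aemeasurable
  zero' m := by
    apply Subtype.ext
    have : (sh 0 : Om k → Om k) = id := funext fun z => sh_zero z
    change Measure.map (sh 0 : Om k → Om k) (m : Measure (Om k)) = m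
    rw [this, Measure.map_id]
  add' a b m := by
    apply Subtype.ext
    change Measure.map (sh (a + b) : Om k → Om k) (m : Measure (Om k)) =
      Measure.map (sh a : Om k → Om k) (Measure.map (sh b : Om k → Om k) (m : Measure (Om k)))
    rw [Measure.map_map (sh_cont a).measurable (sh_cont b).measurable]
    congr 1
    exact funext fun z => sh_add a b z
  cont' n := ProbabilityMeasure.continuous_map (sh_cont n)

/-- the cylinder of the word `w`, centred at `n`: `z (n - |w|/2 + i) = w i` -/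
def cyl (w : Wd k) (n : ℤ) : Set (Om k) :=
  {z | ∀ (i : ℕ) (a : Fin k), w[i]? = some a → z (n - ((w.length / 2 : ℕ) : ℤ) + i) = a}

/-- the letter in the middle -/
def mid (w : Wd k) : Option (Fin k) := w[w.length / 2]?

/-- the word of `z` on `[-L, L]` -/
def wordOf (z : Om k) (L : ℕ) : Wd k := List.ofFn fun i : Fin (2 * L + 1) => z (i.val - L)

/-- the support -/
def supp (m : PM k) : Set (Om k) := {z | ∀ U, IsOpen U → z ∈ U → 0 < m U}

/-- the system of a measure: closure of all `(T^n z, T^n m)`, `z` in the support of `m` -/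
def MM (m : PM k) : Set (Om k × PM k) :=
  closure {p | ∃ n : ℤ, ∃ z ∈ supp m, p = (sh n z, sh n m)}

/-- the colours of `m'` are in `D` for all `m'` in the orbit closure of `m` close to `m` -/
def Rb (D : Finset (Fin k)) (m : PM k) : Prop :=
  ∃ U ∈ 𝓝 m, ∀ m' ∈ orb m, m' ∈ U → m' {z | z 0 ∉ D} = 0

/-- positive words -/
def Pos (m : PM k) (w : Wd k) : Prop := 0 < m (cyl w 0)

/-- blocked words -/
def Blocked (c : Om k) (m : PM k) (w : Wd k) : Prop :=
  ∃ r, mid w = some r ∧ ∃ N : ℕ, ∀ x : ℕ, N ≤ x → c ∈ cyl w x →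
    m (cyl w 0 ∩ {g | g x = r}) = 0

/-- Case II: every positive word has a positive blocked extension -/
def CaseII (c : Om k) (m : PM k) : Prop :=
  ∀ w, Pos m w → ∃ w', cyl w' 0 ⊆ cyl w 0 ∧ Pos m w' ∧ Blocked c m w'

/-- a stage is one measure -/
structure Stage (c : Om k) (m : PM k) (D : Finset (Fin k)) : Prop where
  min : MinSet (MM m)
  base : (MM m ∩ omg (c, m)).Nonempty
  rob : ∀ U ∈ 𝓝 m, ∃ n : ℤ, sh n m ∈ U ∧ Rb D (sh n m)

/-! ### McMahon's relation -/

/-- limit points of `T^x (c, g, m0)`, `x → +∞`, `g ∈ [P] ∩ supp m0`, over `MM m0` -/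
def NP (c : Om k) (m0 : PM k) (P : Wd k) : Set (Om k × Om k × PM k) :=
  {q | (q.1, q.2.2) ∈ MM m0 ∧ ∀ U ∈ 𝓝 q, ∀ N : ℕ, ∃ x : ℕ, N ≤ x ∧
    ∃ g ∈ cyl P 0 ∩ supp m0, (sh (x : ℤ) c, sh (x : ℤ) g, sh (x : ℤ) m0) ∈ U}

/-- `A^P(z, m)` -/
def AP (c : Om k) (m0 : PM k) (P : Wd k) (z : Om k) (m : PM k) : Set (Om k) :=
  {u | (u, z, m) ∈ NP c m0 P}

/-- the measure of a symmetric difference -/
noncomputable def dd (c : Om k) (m0 : PM k) (P : Wd k) (z z' : Om k) (m : PM k) : ℝ :=
  m (AP c m0 P z m \ AP c m0 P z' m) + m (AP c m0 P z' m \ AP c m0 P z m)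

/-- a measure of a set as a point of `[0,1]` -/
noncomputable def toI (m : PM k) (B : Set (Om k)) : unitInterval :=
  ⟨(m B : ℝ), (m B).2, by exact_mod_cast m.apply_le_one B⟩

/-- index set of the coordinates of the next base -/
abbrev Ix (k : ℕ) := Wd k ⊕ (Wd k × Wd k)

/-- the map onto the isometric extension: all `m (cyl w n)` and all
`m (cyl w n ∩ A^P(z, m))` -/
noncomputable def Th (c : Om k) (m0 : PM k) (p : Om k × PM k) : Cube (Ix k) :=
  fun i n => match i with
    | .inl w => toI p.2 (cyl w n)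
    | .inr q => toI p.2 (cyl q.2 n ∩ AP c m0 q.1 p.1 p.2)

/-- the copy of `MM m0` over the isometric extension -/
def M1 (c : Om k) (m0 : PM k) : Set (Om k × Cube (Ix k)) :=
  {q | ∃ m, (q.1, m) ∈ MM m0 ∧ q.2 = Th c m0 (q.1, m)}

/-- the base points: limits of points `g` of the support such that `T^x g` and `T^x c` agree on
long windows, with `T^x m0` close to `m0` -/
def ZS (c : Om k) (m0 : PM k) (z : Om k) : Prop :=
  ∀ U ∈ 𝓝 z, ∀ V ∈ 𝓝 m0, ∀ L : ℕ, ∃ x : ℕ, L ≤ x ∧ sh (x : ℤ) m0 ∈ V ∧
    ∃ g ∈ supp m0 ∩ U, ∀ j : ℤ, |j| ≤ L → g (x + j) = c (x + j)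

/-- the zone of the colour `r`, as a condition on a point of the isometric extension -/
def ZN (c : Om k) (m0 : PM k) (D : Finset (Fin k)) (r : Fin k) (v : Cube (Ix k)) : Prop :=
  (∃ P, Blocked c m0 P ∧ mid P = some r ∧ 0 < v (.inr (P, P)) 0) ∧
    ∃ m : PM k, (∀ w n, v (.inl w) n = toI m (cyl w n)) ∧ Rb D m

/-! ### Energy -/

/-- the `i`-th word -/
def wd (k : ℕ) (i : ℕ) : Wd k := ((Encodable.decode i : Option (Wd k))).getD []

/-- the energy `F(m) = ∑ 2^-i m[w_i]^2` -/
noncomputable def FF (m : PM k) : ℝ := ∑' i : ℕ, (1 / 2) ^ i * ((m (cyl (wd k i) 0) : ℝ)) ^ 2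

/-- the square distance `∑ 2^-i (m[w_i] - m'[w_i])^2` -/
noncomputable def d2 (m m' : PM k) : ℝ :=
  ∑' i : ℕ, (1 / 2) ^ i * ((m (cyl (wd k i) 0) : ℝ) - (m' (cyl (wd k i) 0) : ℝ)) ^ 2

section energy

variable {B : Type*} [TopologicalSpace B] [Sys B]

/-- points of the base with a probability measure on the fibre -/
def QQ (M : Set (Om k × B)) : Set (B × PM k) := {p | p.2 {z | (z, p.1) ∈ M} = 1}

/-- the supremum of the energies along the orbit -/
noncomputable def GG (m : PM k) : ℝ := ⨆ n : ℤ, FF (sh n m)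

/-- the energy set -/
def AA (M : Set (Om k × B)) : Set (B × PM k) := {p | p ∈ QQ M ∧ ∀ p' ∈ QQ M, GG p.2 ≤ GG p'.2}

/-- the points of the base over which all colours near by are in `D` -/
def Zn (M : Set (Om k × B)) (D : Finset (Fin k)) : Set B :=
  {v | ∃ U ∈ 𝓝 v, ∀ z v', (z, v') ∈ M → v' ∈ U → z 0 ∈ D}

end energy

/-- the average of the point masses at `T^n z`, `n ∈ a :: b` -/
noncomputable def mixM (a : ℤ) (b : List ℤ) (z : Om k) : Measure (Om k) :=
  ((b.length + 1 : ℕ) : ENNReal)⁻¹ • ((a :: b).map fun n => Measure.dirac (sh n z)).sum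

theorem mixM_sum_univ (l : List ℤ) (z : Om k) :
    ((l.map fun n => Measure.dirac (sh n z)).sum : Measure (Om k)) univ = l.length := by
  induction l with
  | nil => simp
  | cons a l ih => simp [ih, add_comm]

instance mixM_prob (a : ℤ) (b : List ℤ) (z : Om k) : IsProbabilityMeasure (mixM a b z) := by
  constructor
  unfold mixM
  rw [Measure.smul_apply, mixM_sum_univ]
  simp only [List.length_cons, smul_eq_mul]
  exact ENNReal.inv_mul_cancel (by simp) (by simp)

/-- the same as a point of `PM k` -/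
noncomputable def mix (a : ℤ) (b : List ℤ) (z : Om k) : PM k := ⟨mixM a b z, mixM_prob a b z⟩

end Pool.Agent.Work.MP_69fea5_lc.AK
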