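import Pool.Agent.Work.MP_69fea5_lc.AK.Stmts

/-!
# Item AAB: the energy set is closed, invariant, and lies over all of the base
-/

set_option autoImplicit false

namespace Pool.Agent.Work.MP_69fea5_lc.AK

open MeasureTheory Topology Set Filter
open scoped NNReal

namespace I_AAB

variable {k : ℕ}

theorem bdd (hENG : S_ENG) (m : PM k) : BddAbove (Set.range fun n : ℤ => FF (sh n m)) :=
  ⟨2, by rintro _ ⟨n, rfl⟩; exact ((hENG k).2.1 (sh n m)).2⟩

theorem GG_le (hENG : S_ENG) (m : PM k) (q : ℝ) : GG m ≤ q ↔ ∀ n : ℤ, FF (sh n m) ≤ q := by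
  unfold GG
  exact ciSup_le_iff (bdd hENG m)

theorem GG_sh (n : ℤ) (m : PM k) : GG (sh n m) = GG m := by
  unfold GG
  have h : ∀ j : ℤ, FF (sh j (sh n m)) = (fun i : ℤ => FF (sh i m)) (Equiv.addRight n j) := by
    intro j
    simp only [Equiv.coe_addRight, sh_add]
  rw [iSup_congr h]
  exact Equiv.iSup_comp (Equiv.addRight n) (g := fun i : ℤ => FF (sh i m))

theorem GG_lsc (hENG : S_ENG) : LowerSemicontinuous fun m : PM k => GG m := by
  rw [lowerSemicontinuous_iff_isClosed_preimage]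
  intro q
  have : (fun m : PM k => GG m) ⁻¹' Iic q = ⋂ n : ℤ, {m : PM k | FF (sh n m) ≤ q} := by
    ext m
    simp only [mem_preimage, mem_Iic, mem_iInter, mem_ofPred_eq]
    exact GG_le hENG m q
  rw [this]
  refine isClosed_iInter fun n => ?_
  exact isClosed_le ((hENG k).1.comp (sh_cont n)) continuous_const

variable {B : Type} [TopologicalSpace B] [Sys B]

omit [Sys B] in
theorem QQ_closed (hUSC : S_USC) (M : Set (Om k × B)) (hM : IsClosed M) :
    IsClosed (QQ M) := by
  have h := hUSC k B M hM 1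
  have e : QQ M = Prod.swap ⁻¹' {p : PM k × B | (1 : ℝ≥0) ≤ p.1 {z | (z, p.2) ∈ M}} := by
    ext p
    simp only [QQ, mem_ofPred_eq, mem_preimage, Prod.fst_swap, Prod.snd_swap]
    exact ⟨fun h => h.ge, fun h => le_antisymm (ProbabilityMeasure.apply_le_one _ _) h⟩
  rw [e]
  exact h.preimage continuous_swap

theorem QQ_inv (hPMB : S_PMB) (M : Set (Om k × B)) (hM : IsClosed M) (hi : Inv M) :
    Inv (QQ M) := by
  rintro n ⟨v, m⟩ h
  simp only [QQ, mem_ofPred_eq] at h
  change (sh n m : PM k) {z | (z, sh n v) ∈ M} = 1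
  have hc : IsClosed {z : Om k | (z, sh n v) ∈ M} :=
    hM.preimage (continuous_id.prodMk continuous_const)
  rw [(hPMB k).1 m n _ hc.measurableSet]
  have e : {z : Om k | sh n z ∈ {z : Om k | (z, sh n v) ∈ M}} = {z | (z, v) ∈ M} := by
    ext z
    simp only [mem_ofPred_eq]
    constructor
    · intro hz
      have := hi (-n) _ hz
      simpa [← sh_add, sh_zero] using this
    · intro hz
      exact hi n _ hz
  rw [e]
  exact h

end I_AAB

theorem AAB_pf (hPMB : S_PMB) (hUSC : S_USC) (hENG : S_ENG) : S_AAB := by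
  intro k B _ _ _ _ M hM
  have hQc := I_AAB.QQ_closed hUSC M hM.closed
  have hQi := I_AAB.QQ_inv hPMB M hM.closed hM.inv
  have hQn : (QQ M).Nonempty := by
    obtain ⟨⟨z, v⟩, hz⟩ := hM.ne
    have key : ∀ m1 : PM k, (m1 : Measure (Om k)) = Measure.dirac z → (v, m1) ∈ QQ M := by
      intro m1 h1
      have hms : MeasurableSet {z' : Om k | (z', v) ∈ M} :=
        (hM.closed.preimage (continuous_id.prodMk continuous_const)).measurableSet
      change m1 {z' : Om k | (z', v) ∈ M} = 1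
      rw [← ENNReal.coe_inj, ProbabilityMeasure.ennreal_coeFn_eq_coeFn_toMeasure, h1,
        Measure.dirac_apply' _ hms]
      simp [hz]
    exact ⟨(v, ⟨Measure.dirac z, inferInstance⟩), key _ rfl⟩
  have hlsc : LowerSemicontinuousOn (fun p : B × PM k => GG p.2) (QQ M) :=
    ((I_AAB.GG_lsc hENG).comp continuous_snd).lowerSemicontinuousOn _
  obtain ⟨p0, hp0, hmin⟩ := hlsc.exists_isMinOn hQn hQc.isCompact
  have hAA : AA M = QQ M ∩ {p | GG p.2 ≤ GG p0.2} := by
    ext p
    simp only [AA, mem_ofPred_eq, mem_inter_iff]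
    refine and_congr_right fun hp => ?_
    constructor
    · intro h
      exact h p0 hp0
    · intro h p' hp'
      exact le_trans h (hmin hp')
  have hAc : IsClosed (AA M) := by
    rw [hAA]
    refine hQc.inter ?_
    exact (lowerSemicontinuous_iff_isClosed_preimage.1
      ((I_AAB.GG_lsc hENG).comp continuous_snd) (GG p0.2))
  have hAi : Inv (AA M) := by
    rintro n ⟨v, m⟩ ⟨h1, h2⟩
    refine ⟨hQi n _ h1, ?_⟩
    intro p' hp'
    change GG (sh n m) ≤ GG p'.2
    rw [I_AAB.GG_sh]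
    exact h2 p' hp'
  refine ⟨hQc, hQi, hAc, hAi, ?_⟩
  have hL : {q : Om k × B | q ∈ M ∧ ∃ m, (q.2, m) ∈ AA M} = M := by
    refine hM.min _ ?_ ?_ ?_ (fun q hq => hq.1)
    · have : {q : Om k × B | q ∈ M ∧ ∃ m, (q.2, m) ∈ AA M} =
          M ∩ Prod.snd ⁻¹' (Prod.fst '' AA M) := by
        ext q
        simp only [mem_ofPred_eq, mem_inter_iff, mem_preimage, mem_image, Prod.exists,
          exists_and_right, exists_eq_right]
      rw [this]
      refine hM.closed.inter (IsClosed.preimage continuous_snd ?_)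
      exact (hAc.isCompact.image continuous_fst).isClosed
    · have hA0 : p0 ∈ AA M := ⟨hp0, fun p' hp' => hmin hp'⟩
      have h1 : p0.2 {z | (z, p0.1) ∈ M} = 1 := hp0
      have h2 : {z : Om k | (z, p0.1) ∈ M}.Nonempty := by
        rw [Set.nonempty_iff_ne_empty]
        intro he
        rw [he] at h1
        simp at h1
      obtain ⟨z, hz⟩ := h2
      exact ⟨(z, p0.1), hz, p0.2, hA0⟩
    · rintro n ⟨z, v⟩ ⟨h1, m, h2⟩
      exact ⟨hM.inv n _ h1, sh n m, hAi n _ h2⟩
  intro z v hzv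
  have : (z, v) ∈ {q : Om k × B | q ∈ M ∧ ∃ m, (q.2, m) ∈ AA M} := by rw [hL]; exact hzv
  exact this.2

end Pool.Agent.Work.MP_69fea5_lc.AK
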