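import Pool.Agent.Work.MP_69fea5_lc.AK.Stmts

/-!
# Block [69fea5 ALLK], item BLK: what a blocked word forbids
-/

set_option autoImplicit false

namespace Pool.Agent.Work.MP_69fea5_lc.AK

open MeasureTheory Topology Set Filter
open scoped NNReal

theorem BLK_pf (hCYL : S_CYL) : S_BLK := by
  intro k c m0 P r hB hmid z m hpos hz
  obtain ⟨hclo, hsh, -⟩ := hCYL k
  -- a point of `[P] ∩ A^P(z, m)`
  have hne : (cyl P 0 ∩ AP c m0 P z m).Nonempty := by
    by_contra hcon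
    rw [Set.not_nonempty_iff_eq_empty] at hcon
    rw [hcon] at hpos
    simp at hpos
  obtain ⟨u, hu, -, hlim⟩ := hne
  obtain ⟨r', hr', N, hN⟩ := hB
  have hrr : r' = r := by
    rw [hmid] at hr'
    exact (Option.some.inj hr').symm
  subst hrr
  have hopen : ∀ (i : ℤ) (a : Fin k), IsOpen {g : Om k | g i = a} := fun i a =>
    (isOpen_discrete ({a} : Set (Fin k))).preimage
      (show Continuous fun g : Om k => g i from continuous_apply i)
  have hU : (cyl P 0 ×ˢ ({z' : Om k | z' 0 = r'} ×ˢ (univ : Set (PM k)))) ∈ 𝓝 (u, z, m) := by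
    refine prod_mem_nhds ((hclo P 0).isOpen.mem_nhds hu) (prod_mem_nhds ?_ univ_mem)
    exact (hopen 0 r').mem_nhds hz
  obtain ⟨x, hx, g, ⟨hg1, hg2⟩, hc, hg0, -⟩ := hlim _ hU N
  have hcx : c ∈ cyl P (x : ℤ) := by
    have := (hsh P 0 (x : ℤ) c).1 hc
    rwa [zero_add] at this
  have hgx : g (x : ℤ) = r' := by
    have h0 : g (0 + (x : ℤ)) = r' := hg0
    rwa [zero_add] at h0
  have h1 := hN x hx hcx
  have h2 : 0 < m0 (cyl P 0 ∩ {g | g (x : ℤ) = r'}) :=
    hg2 _ ((hclo P 0).isOpen.inter (hopen x r')) ⟨hg1, hgx⟩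
  rw [h1] at h2
  exact lt_irrefl _ h2

end Pool.Agent.Work.MP_69fea5_lc.AK
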