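import Pool.Agent.Work.MP_69fea5_lc.AK.Stmts

/-! Block [69fea5 ALLK], item CS1: Case I, the words for the greedy (helper90). -/

set_option autoImplicit false

namespace Pool.Agent.Work.MP_69fea5_lc.AK

open MeasureTheory Topology Set Filter
open scoped NNReal

namespace I_CS1

variable {k : ℕ}

theorem clopen_coord (i : ℤ) (a : Fin k) : IsClopen {g : Om k | g i = a} :=
  (isClopen_discrete ({a} : Set (Fin k))).preimage
    (show Continuous fun g : Om k => g i from continuous_apply i)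

theorem ne_of_pos (m : PM k) (B : Set (Om k)) (h : 0 < m B) : B.Nonempty := by
  by_contra hne
  rw [not_nonempty_iff_eq_empty] at hne
  rw [hne] at h
  simp at h

theorem mid_none (w : Wd k) (h : mid w = none) : w = [] := by
  unfold mid at h
  rw [List.getElem?_eq_none_iff] at h
  have : w.length = 0 := by omega
  exact List.length_eq_zero_iff.1 this

end I_CS1

open I_CS1 in
theorem CS1_pf (hCYL : S_CYL) (hSUP : S_SUP) : S_CS1 := by
  intro k c m hnot
  obtain ⟨hC1, hC2, hC3, hC4, hC5, hC6, hC7⟩ := hCYL k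
  obtain ⟨hS1, hS2, hS3, hS4, hS5, hS6, hS7, hS8⟩ := hSUP k m
  unfold CaseII at hnot
  push Not at hnot
  obtain ⟨w, hw, hnb⟩ := hnot
  obtain ⟨z, hzw, hzs⟩ := hS6 (cyl w 0) (hC1 w 0).isOpen hw
  obtain ⟨L₀, hL₀⟩ := hC6 (cyl w 0) (hC1 w 0)
  have hQw : cyl (wordOf z L₀) 0 ⊆ cyl w 0 := hL₀ L₀ le_rfl z hzw
  have hQr : cyl (wordOf z L₀) 0 ⊆ {g : Om k | g 0 = z 0} := by
    intro g hg
    exact (hC4 z g L₀).1 hg 0 (by simp)
  refine ⟨wordOf z L₀, z 0, (hS4 z).1 hzs L₀, hQr, ?_⟩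
  intro P hPQ hP N
  have hPb : ¬ Blocked c m P := hnb P (hPQ.trans hQw) hP
  rcases hmid : mid P with _ | r'
  · have hnil := mid_none P hmid
    subst hnil
    have huniv : ∀ g : Om k, g ∈ cyl ([] : Wd k) 0 := by
      intro g i a h
      simp at h
    refine ⟨N, le_rfl, [], huniv _, subset_rfl, ?_, hP⟩
    intro g _
    have h1 : (sh (N : ℤ) g) 0 = z 0 := hQr (hPQ (huniv (sh (N : ℤ) g)))
    have h2 : g (0 + (N : ℤ)) = z 0 := h1
    rwa [zero_add] at h2
  · have hr' : r' = z 0 := by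
      obtain ⟨g, hg⟩ := ne_of_pos m _ hP
      have h1 : g 0 = r' := hC7 P r' hmid hg
      have h2 : g 0 = z 0 := hQr (hPQ hg)
      rw [← h1, h2]
    subst hr'
    have hex : ∃ x : ℕ, N ≤ x ∧ c ∈ cyl P x ∧ m (cyl P 0 ∩ {g | g x = z 0}) ≠ 0 := by
      by_contra hcon
      push Not at hcon
      exact hPb ⟨z 0, hmid, N, hcon⟩
    obtain ⟨x, hx, hc, hm⟩ := hex
    have hB : IsClopen (cyl P 0 ∩ {g : Om k | g (x : ℤ) = z 0}) :=
      (hC1 P 0).inter (clopen_coord (x : ℤ) (z 0))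
    obtain ⟨g, hgB, hgs⟩ := hS6 _ hB.isOpen (pos_iff_ne_zero.2 hm)
    obtain ⟨L₁, hL₁⟩ := hC6 _ hB
    have hsub := hL₁ L₁ le_rfl g hgB
    refine ⟨x, hx, wordOf g L₁, ?_, hsub.trans inter_subset_left,
      hsub.trans inter_subset_right, (hS4 g).1 hgs L₁⟩
    rw [hC2 P 0 (x : ℤ) c, zero_add]
    exact hc

end Pool.Agent.Work.MP_69fea5_lc.AK
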