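import Pool.Agent.Work.MP_69fea5_lc.AK.Stmts

/-!
# Block [69fea5 ALLK], item DDA: algebra of `dd`
-/

set_option autoImplicit false

namespace Pool.Agent.Work.MP_69fea5_lc.AK

open MeasureTheory Topology Set Filter
open scoped NNReal

namespace I_DDA

variable {k : ℕ}

theorem union_le (m : PM k) {A B C : Set (Om k)} (h : A ⊆ B ∪ C) :
    (m A : ℝ) ≤ m B + m C := by
  have h1 : m A ≤ m B + m C := by
    have h2 : (m : Measure (Om k)) A ≤ (m : Measure (Om k)) B + (m : Measure (Om k)) C :=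
      (measure_mono h).trans (measure_union_le B C)
    have e1 := ProbabilityMeasure.ennreal_coeFn_eq_coeFn_toMeasure m A
    have e2 := ProbabilityMeasure.ennreal_coeFn_eq_coeFn_toMeasure m B
    have e3 := ProbabilityMeasure.ennreal_coeFn_eq_coeFn_toMeasure m C
    rw [← e1, ← e2, ← e3] at h2
    exact_mod_cast h2
  exact_mod_cast h1

theorem abs_le (m : PM k) (A A' B : Set (Om k)) :
    |(m (B ∩ A) : ℝ) - m (B ∩ A')| ≤ m (A \ A') + m (A' \ A) := by
  have h1 : (m (B ∩ A) : ℝ) ≤ m (B ∩ A') + m (A \ A') := by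
    apply union_le
    rintro x ⟨hB, hA⟩
    by_cases h : x ∈ A'
    · exact Or.inl ⟨hB, h⟩
    · exact Or.inr ⟨hA, h⟩
  have h2 : (m (B ∩ A') : ℝ) ≤ m (B ∩ A) + m (A' \ A) := by
    apply union_le
    rintro x ⟨hB, hA⟩
    by_cases h : x ∈ A
    · exact Or.inl ⟨hB, h⟩
    · exact Or.inr ⟨hA, h⟩
  have h3 : (0 : ℝ) ≤ m (A \ A') := NNReal.coe_nonneg _
  have h4 : (0 : ℝ) ≤ m (A' \ A) := NNReal.coe_nonneg _
  rw [_root_.abs_le]
  constructor <;> linarith

/-- the key step: equal measures of intersections with all cylinders -/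
theorem diff_zero (hPMB : S_PMB) (m : PM k) (A A' : Set (Om k)) (hA : MeasurableSet A)
    (hA' : MeasurableSet A')
    (h : ∀ w : Wd k, m (cyl w 0 ∩ A) = m (cyl w 0 ∩ A')) : m (A \ A') = 0 := by
  have hconv : ∀ S : Set (Om k), m S = 0 ↔ (m : Measure (Om k)) S = 0 := by
    intro S
    have e := ProbabilityMeasure.ennreal_coeFn_eq_coeFn_toMeasure m S
    rw [← e]; simp
  have huniv : (cyl ([] : Wd k) 0) = univ := by
    ext z; simp [cyl]
  have hAA : m A = m A' := by
    have := h []
    rwa [huniv, univ_inter, univ_inter] at this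
  by_cases h0 : m A = 0
  · rw [hconv] at h0 ⊢
    exact measure_mono_null sdiff_subset h0
  · have h0' : (m : Measure (Om k)) A ≠ 0 := fun h' => h0 ((hconv A).2 h')
    have h1' : (m : Measure (Om k)) A' ≠ 0 := fun h' => h0 (hAA.trans ((hconv A').2 h'))
    have hAAm : (m : Measure (Om k)) A = (m : Measure (Om k)) A' := by
      have e1 := ProbabilityMeasure.ennreal_coeFn_eq_coeFn_toMeasure m A
      have e2 := ProbabilityMeasure.ennreal_coeFn_eq_coeFn_toMeasure m A'
      rw [← e1, ← e2, hAA]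
    have hpA : IsProbabilityMeasure (ProbabilityTheory.cond (m : Measure (Om k)) A) :=
      ProbabilityTheory.cond_isProbabilityMeasure h0'
    have hpA' : IsProbabilityMeasure (ProbabilityTheory.cond (m : Measure (Om k)) A') :=
      ProbabilityTheory.cond_isProbabilityMeasure h1'
    have heq : (⟨ProbabilityTheory.cond (m : Measure (Om k)) A, hpA⟩ : PM k) =
        ⟨ProbabilityTheory.cond (m : Measure (Om k)) A', hpA'⟩ := by
      apply (hPMB k).2.2.2.1
      intro w
      have e : ∀ (S : Set (Om k)) (hS : MeasurableSet S)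
          (hp : IsProbabilityMeasure (ProbabilityTheory.cond (m : Measure (Om k)) S)),
          (show PM k from ⟨ProbabilityTheory.cond (m : Measure (Om k)) S, hp⟩) (cyl w 0) =
            (((m : Measure (Om k)) S)⁻¹ * (m : Measure (Om k)) (cyl w 0 ∩ S)).toNNReal := by
        intro S hS hp
        change ((ProbabilityTheory.cond (m : Measure (Om k)) S) (cyl w 0)).toNNReal = _
        rw [ProbabilityTheory.cond_apply hS, inter_comm]
      rw [e A hA, e A' hA', hAAm]
      congr 2
      have e1 := ProbabilityMeasure.ennreal_coeFn_eq_coeFn_toMeasure m (cyl w 0 ∩ A)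
      have e2 := ProbabilityMeasure.ennreal_coeFn_eq_coeFn_toMeasure m (cyl w 0 ∩ A')
      rw [← e1, ← e2, h w]
    have heq' : ProbabilityTheory.cond (m : Measure (Om k)) A =
        ProbabilityTheory.cond (m : Measure (Om k)) A' := congrArg Subtype.val heq
    have hz : ProbabilityTheory.cond (m : Measure (Om k)) A A'ᶜ = 0 := by
      rw [heq', ProbabilityTheory.cond_apply hA']
      simp
    rw [ProbabilityTheory.cond_apply hA] at hz
    rw [hconv]
    rcases mul_eq_zero.1 hz with h2 | h2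
    · exact absurd (ENNReal.inv_eq_zero.1 h2) (measure_ne_top _ _)
    · exact h2

end I_DDA

theorem DDA_pf (hPMB : S_PMB) (hNPB : S_NPB) : S_DDA := by
  intro k c m0 P
  have hcl : ∀ z m, IsClosed (AP c m0 P z m) := (hNPB k c m0 P).2.2.2.1
  have hms : ∀ z m, MeasurableSet (AP c m0 P z m) := fun z m => (hcl z m).measurableSet
  refine ⟨?_, ?_, ?_, ?_, ?_, ?_⟩
  · intro z m
    simp [dd]
  · intro z z' m
    refine ⟨by unfold dd; positivity, ?_⟩
    unfold dd
    rw [add_comm]
  · intro z z' z'' m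
    unfold dd
    have h1 := I_DDA.union_le m (A := AP c m0 P z m \ AP c m0 P z'' m)
      (B := AP c m0 P z m \ AP c m0 P z' m) (C := AP c m0 P z' m \ AP c m0 P z'' m) (by
        rintro x ⟨ha, hb⟩
        by_cases h : x ∈ AP c m0 P z' m
        · exact Or.inr ⟨h, hb⟩
        · exact Or.inl ⟨ha, h⟩)
    have h2 := I_DDA.union_le m (A := AP c m0 P z'' m \ AP c m0 P z m)
      (B := AP c m0 P z' m \ AP c m0 P z m) (C := AP c m0 P z'' m \ AP c m0 P z' m) (by
        rintro x ⟨ha, hb⟩
        by_cases h : x ∈ AP c m0 P z' m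
        · exact Or.inl ⟨h, hb⟩
        · exact Or.inr ⟨ha, h⟩)
    linarith
  · intro n z z' m
    unfold dd
    have hset : ∀ a b : Om k, {u | sh n u ∈ AP c m0 P (sh n a) (sh n m) \
        AP c m0 P (sh n b) (sh n m)} = AP c m0 P a m \ AP c m0 P b m := by
      intro a b
      ext u
      simp only [mem_ofPred_eq, Set.mem_sdiff]
      rw [(hNPB k c m0 P).2.2.2.2.1 n a m u, (hNPB k c m0 P).2.2.2.2.1 n b m u]
    rw [(hPMB k).1 m n _ ((hms _ _).diff (hms _ _)), (hPMB k).1 m n _ ((hms _ _).diff (hms _ _)),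
      hset, hset]
  · intro z z' m B _
    exact I_DDA.abs_le m _ _ B
  · intro z z' m h
    have hw : ∀ w : Wd k, m (cyl w 0 ∩ AP c m0 P z m) = m (cyl w 0 ∩ AP c m0 P z' m) := by
      intro w
      have h1 : Th c m0 (z, m) (.inr (P, w)) 0 = Th c m0 (z', m) (.inr (P, w)) 0 := by rw [h]
      have h2 : ((m (cyl w 0 ∩ AP c m0 P z m) : ℝ≥0) : ℝ) =
          ((m (cyl w 0 ∩ AP c m0 P z' m) : ℝ≥0) : ℝ) :=
        congrArg (Subtype.val : unitInterval → ℝ) h1
      exact NNReal.coe_injective h2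
    unfold dd
    rw [I_DDA.diff_zero hPMB m _ _ (hms _ _) (hms _ _) hw,
      I_DDA.diff_zero hPMB m _ _ (hms _ _) (hms _ _) (fun w => (hw w).symm)]
    simp

end Pool.Agent.Work.MP_69fea5_lc.AK
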