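import Pool.Agent.Work.MP_69fea5_lc.AK.Stmts

/-!
# DDC: the pseudometrics `dd` are continuous on the fibre product
-/

set_option autoImplicit false

namespace Pool.Agent.Work.MP_69fea5_lc.AK

open MeasureTheory Topology Set Filter
open scoped NNReal

namespace I_DDC

/-- two usc functions with constant sum on a set are continuous on it -/
theorem cont_of_usc {X : Type*} [TopologicalSpace X] {F : Set X} {f g : X → ℝ≥0} {s : ℝ}
    (hf : ∀ a : ℝ≥0, IsClosed {q | a ≤ f q}) (hg : ∀ a : ℝ≥0, IsClosed {q | a ≤ g q})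
    (hs : ∀ q ∈ F, (f q : ℝ) + g q = s) : ContinuousOn (fun q => (f q : ℝ)) F := by
  have up : ∀ (h : X → ℝ≥0), (∀ a : ℝ≥0, IsClosed {q | a ≤ h q}) → ∀ (q₀ : X) (b : ℝ),
      (h q₀ : ℝ) < b → ∀ᶠ q in 𝓝 q₀, (h q : ℝ) < b := by
    intro h hh q₀ b hb
    have hb0 : 0 ≤ b := (h q₀).2.trans hb.le
    have h1 := (hh ⟨b, hb0⟩).isOpen_compl
    have h2 : q₀ ∈ {q | (⟨b, hb0⟩ : ℝ≥0) ≤ h q}ᶜ := by
      intro hle
      have h3 : b ≤ (h q₀ : ℝ) := hle
      linarith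
    filter_upwards [h1.mem_nhds h2] with q hq
    by_contra hcon
    push Not at hcon
    exact hq hcon
  intro q₀ hq₀
  refine tendsto_order.2 ⟨fun b hb => ?_, fun b hb => ?_⟩
  · have h0 := hs q₀ hq₀
    have hb' : b < (f q₀ : ℝ) := hb
    have h1 := up g hg q₀ (s - b) (by linarith)
    filter_upwards [nhdsWithin_le_nhds h1, self_mem_nhdsWithin] with q hq hqF
    have h2 := hs q hqF
    show b < (f q : ℝ)
    linarith
  · exact nhdsWithin_le_nhds (up f hf q₀ b hb)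

theorem real_eq {k : ℕ} (m : PM k) (B : Set (Om k)) :
    ((m B : ℝ≥0) : ℝ) = (m : Measure (Om k)).real B := rfl

/-- a closed relation gives an usc function on the product -/
theorem usc_aux (hUSC : S_USC) (k : ℕ) (K : Set (Om k × (Om k × Om k × PM k)))
    (hK : IsClosed K) (a : ℝ≥0) :
    IsClosed {q : Om k × Om k × PM k | a ≤ q.2.2 {u | (u, q) ∈ K}} := by
  have h1 := hUSC k (Om k × Om k × PM k) K hK a
  have h2 : Continuous fun q : Om k × Om k × PM k => (q.2.2, q) :=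
    (continuous_snd.comp continuous_snd).prodMk continuous_id
  exact h1.preimage h2

end I_DDC

theorem DDC_pf (hUSC : S_USC) (hNPB : S_NPB) (hMC2 : S_MC2) : S_DDC := by
  intro k c m0 D P hst
  obtain ⟨hcl, -, -, hAcl, -, -⟩ := hNPB k c m0 P
  obtain ⟨a, -, -, ha⟩ := hMC2 k c m0 D P hst
  set F : Set (Om k × Om k × PM k) := {q | (q.1, q.2.2) ∈ MM m0 ∧ (q.2.1, q.2.2) ∈ MM m0} with hF
  set K1 : Set (Om k × (Om k × Om k × PM k)) :=
    {p | (p.1, p.2.1, p.2.2.2) ∈ NP c m0 P ∧ (p.1, p.2.2.1, p.2.2.2) ∈ NP c m0 P} with hK1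
  set K2 : Set (Om k × (Om k × Om k × PM k)) :=
    {p | (p.1, p.2.1, p.2.2.2) ∈ NP c m0 P ∨ (p.1, p.2.2.1, p.2.2.2) ∈ NP c m0 P} with hK2
  have c1 : Continuous fun p : Om k × (Om k × Om k × PM k) => (p.1, p.2.1, p.2.2.2) := by
    fun_prop
  have c2 : Continuous fun p : Om k × (Om k × Om k × PM k) => (p.1, p.2.2.1, p.2.2.2) := by
    fun_prop
  have k1 : IsClosed K1 := (hcl.preimage c1).inter (hcl.preimage c2)
  have k2 : IsClosed K2 := (hcl.preimage c1).union (hcl.preimage c2)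
  have meas : ∀ z m, MeasurableSet (AP c m0 P z m) := fun z m => (hAcl z m).measurableSet
  have e1 : ∀ q : Om k × Om k × PM k, {u | (u, q) ∈ K1} =
      AP c m0 P q.1 q.2.2 ∩ AP c m0 P q.2.1 q.2.2 := fun q => rfl
  have e2 : ∀ q : Om k × Om k × PM k, {u | (u, q) ∈ K2} =
      AP c m0 P q.1 q.2.2 ∪ AP c m0 P q.2.1 q.2.2 := fun q => rfl
  have hval : ∀ q ∈ F, ((q.2.2 (AP c m0 P q.1 q.2.2) : ℝ≥0) : ℝ) = a ∧
      ((q.2.2 (AP c m0 P q.2.1 q.2.2) : ℝ≥0) : ℝ) = a := by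
    rintro q ⟨h1, h2⟩
    exact ⟨by rw [ha _ _ h1], by rw [ha _ _ h2]⟩
  have hcont : ContinuousOn (fun q : Om k × Om k × PM k =>
      ((q.2.2 {u | (u, q) ∈ K1} : ℝ≥0) : ℝ)) F := by
    refine I_DDC.cont_of_usc (f := fun q : Om k × Om k × PM k => q.2.2 {u | (u, q) ∈ K1})
      (g := fun q : Om k × Om k × PM k => q.2.2 {u | (u, q) ∈ K2}) (s := 2 * (a : ℝ))
      (I_DDC.usc_aux hUSC k K1 k1) (I_DDC.usc_aux hUSC k K2 k2) ?_
    intro q hq
    obtain ⟨h1, h2⟩ := hval q hq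
    rw [e1, e2, I_DDC.real_eq, I_DDC.real_eq]
    rw [I_DDC.real_eq] at h1 h2
    have h3 := measureReal_union_add_inter (μ := (q.2.2 : Measure (Om k)))
      (s := AP c m0 P q.1 q.2.2) (t := AP c m0 P q.2.1 q.2.2) (meas q.2.1 q.2.2)
    linarith
  refine ((continuousOn_const (c := 2 * (a : ℝ))).sub (hcont.const_smul (2 : ℝ))).congr ?_
  intro q hq
  obtain ⟨h1, h2⟩ := hval q hq
  show dd c m0 P q.1 q.2.1 q.2.2 = 2 * (a : ℝ) - (2 : ℝ) • ((q.2.2 {u | (u, q) ∈ K1} : ℝ≥0) : ℝ)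
  rw [e1, smul_eq_mul]
  unfold dd
  rw [I_DDC.real_eq, I_DDC.real_eq, I_DDC.real_eq]
  rw [I_DDC.real_eq] at h1 h2
  have h3 := measureReal_sdiff_add_inter (μ := (q.2.2 : Measure (Om k)))
    (s := AP c m0 P q.1 q.2.2) (t := AP c m0 P q.2.1 q.2.2) (meas q.2.1 q.2.2)
  have h4 := measureReal_sdiff_add_inter (μ := (q.2.2 : Measure (Om k)))
    (s := AP c m0 P q.2.1 q.2.2) (t := AP c m0 P q.1 q.2.2) (meas q.1 q.2.2)
  rw [inter_comm (AP c m0 P q.2.1 q.2.2)] at h4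
  linarith

end Pool.Agent.Work.MP_69fea5_lc.AK
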