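import Pool.Agent.Work.MP_69fea5_lc.AK.Stmts

/-! Item GLR: colours of the new stage. -/

set_option autoImplicit false

namespace Pool.Agent.Work.MP_69fea5_lc.AK

open MeasureTheory Topology Set Filter
open scoped NNReal

namespace I_GLR

theorem Zn_open {k : ℕ} {B : Type} [TopologicalSpace B] (M : Set (Om k × B))
    (D : Finset (Fin k)) : IsOpen (Zn M D) := by
  rw [isOpen_iff_mem_nhds]
  rintro v ⟨U, hU, h⟩
  refine Filter.mem_of_superset (interior_mem_nhds.2 hU) ?_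
  intro v' hv'
  refine ⟨U, mem_interior_iff_mem_nhds.1 hv', h⟩

theorem meas_D {k : ℕ} (D : Finset (Fin k)) : MeasurableSet {z : Om k | z 0 ∈ D} := by
  have : {z : Om k | z 0 ∈ D} = (fun z : Om k => z 0) ⁻¹' (D : Set (Fin k)) := rfl
  rw [this]
  exact (measurable_pi_apply 0) (D.measurableSet)

theorem zero_of {k : ℕ} {B : Type} [TopologicalSpace B] {M : Set (Om k × B)}
    {D : Finset (Fin k)} {v : B} {m : PM k} (hv : v ∈ Zn M D)
    (hm : m {z | (z, v) ∈ M} = 1) : m {z | z 0 ∉ D} = 0 := by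
  obtain ⟨U, hU, h⟩ := hv
  have h1 : {z : Om k | (z, v) ∈ M} ⊆ {z | z 0 ∈ D} := fun z hz =>
    h z v hz (mem_of_mem_nhds hU)
  have h2 : m {z | z 0 ∈ D} = 1 := by
    refine le_antisymm (m.apply_le_one _) ?_
    rw [← hm]
    exact m.apply_mono h1
  have h3 : (m : Measure (Om k)) {z | z 0 ∈ D} = 1 := by
    have h4 := congrArg (fun x : ℝ≥0 => (x : ENNReal)) h2
    simpa using h4
  have h5 : (m : Measure (Om k)) {z | z 0 ∉ D} = 0 := by
    have h6 := (prob_compl_eq_zero_iff (μ := (m : Measure (Om k))) (meas_D D)).2 h3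
    exact h6
  have h7 : ((m {z | z 0 ∉ D} : ℝ≥0) : ENNReal) = 0 := by
    simpa using h5
  exact_mod_cast h7

end I_GLR

theorem GLR_pf (hORB : S_ORB) (hIMG : S_IMG) (hSEMI : S_SEMI) : S_GLR := by
  intro k B _ _ _ _ M Y D v m hM hY hYA hvm hcl U hU
  have hf : ContinuousOn (Prod.snd : B × PM k → PM k) Y := continuous_snd.continuousOn
  have heq : ∀ (n : ℤ), ∀ x ∈ Y, (Prod.snd : B × PM k → PM k) (sh n x) = sh n (Prod.snd x) :=
    fun _ _ _ => rfl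
  have himg : MinSet ((Prod.snd : B × PM k → PM k) '' Y) := hIMG _ _ Y Prod.snd hY hf heq
  have hmem : m ∈ (Prod.snd : B × PM k → PM k) '' Y := ⟨(v, m), hvm, rfl⟩
  obtain ⟨_, _, _, _, o5, _, o7⟩ := hORB (PM k) m
  have horb : orb m = (Prod.snd : B × PM k → PM k) '' Y := o5 _ himg hmem
  -- the open set
  have hWo : IsOpen {p : B × PM k | p.2 ∈ interior U ∧ p.1 ∈ Zn M D} :=
    (isOpen_interior.preimage continuous_snd).inter ((I_GLR.Zn_open M D).preimage continuous_fst)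
  have hWn : ({p : B × PM k | p.2 ∈ interior U ∧ p.1 ∈ Zn M D} ∩ Y).Nonempty := by
    rw [mem_closure_iff] at hcl
    obtain ⟨p, hp1, hp2, hp3⟩ := hcl {p | p.2 ∈ interior U}
      (isOpen_interior.preimage continuous_snd) (mem_interior_iff_mem_nhds.2 hU)
    exact ⟨p, ⟨hp1, hp3⟩, hp2⟩
  obtain ⟨V, hVo, ⟨m1, hm1, hm1'⟩, hVs⟩ := hSEMI _ _ Y (Prod.snd : B × PM k → PM k) hY hf heq _
    hWo hWn
  rw [← horb] at hm1'
  have hn : ∃ n : ℤ, sh n m ∈ V := by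
    unfold orb at hm1'
    rw [mem_closure_iff] at hm1'
    obtain ⟨y, hy1, n, rfl⟩ := hm1' V hVo hm1
    exact ⟨n, hy1⟩
  obtain ⟨n, hn⟩ := hn
  refine ⟨n, ?_, V, hVo.mem_nhds hn, ?_⟩
  · have h1 : sh n m ∈ (Prod.snd : B × PM k → PM k) '' Y := ⟨sh n (v, m), hY.inv n _ hvm, rfl⟩
    obtain ⟨p, ⟨⟨hp1, _⟩, _⟩, hp3⟩ := hVs ⟨hn, h1⟩
    rw [← hp3]
    exact interior_subset hp1
  · intro m' hm' hmV
    rw [o7 n, horb] at hm'
    obtain ⟨p, ⟨⟨_, hp2⟩, hp3⟩, hp4⟩ := hVs ⟨hmV, hm'⟩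
    have h1 : p.2 {z | (z, p.1) ∈ M} = 1 := (hYA hp3).1
    rw [← hp4]
    exact I_GLR.zero_of hp2 h1

end Pool.Agent.Work.MP_69fea5_lc.AK
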