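import Pool.Agent.Work.MP_69fea5_lc.AK.Stmts

/-!
# Block [69fea5 ALLK], item GLX

`M'` as in GL exists; it projects onto `M` and onto `Y`.
-/

set_option autoImplicit false

namespace Pool.Agent.Work.MP_69fea5_lc.AK

open MeasureTheory Topology Set Filter
open scoped NNReal

theorem GLX_pf (hZORN : S_ZORN) (hIMG : S_IMG) : S_GLX := by
  intro k B _ _ _ _ M Y hM hY hYA
  have hc1 : Continuous (fun q : Om k × (B × PM k) => (q.1, q.2.1)) :=
    continuous_fst.prodMk (continuous_fst.comp continuous_snd)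
  have hc2 : Continuous (fun q : Om k × (B × PM k) => q.2) := continuous_snd
  constructor
  · have hcl : IsClosed {q : Om k × (B × PM k) | q.2 ∈ Y ∧ (q.1, q.2.1) ∈ M} :=
      (hY.closed.preimage hc2).inter (hM.closed.preimage hc1)
    have hinv : Inv {q : Om k × (B × PM k) | q.2 ∈ Y ∧ (q.1, q.2.1) ∈ M} := by
      rintro n ⟨z, v, m⟩ ⟨h1, h2⟩
      exact ⟨hY.inv n _ h1, hM.inv n _ h2⟩
    have hne : {q : Om k × (B × PM k) | q.2 ∈ Y ∧ (q.1, q.2.1) ∈ M}.Nonempty := by
      obtain ⟨p, hp⟩ := hY.ne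
      have h1 : p.2 {z | (z, p.1) ∈ M} = 1 := (hYA hp).1
      have h2 : {z | (z, p.1) ∈ M}.Nonempty := by
        by_contra h
        rw [not_nonempty_iff_eq_empty] at h
        rw [h] at h1
        simp at h1
      obtain ⟨z, hz⟩ := h2
      exact ⟨(z, p), hp, hz⟩
    obtain ⟨L, hL, hLm⟩ := hZORN (Om k × (B × PM k)) _ hcl hne hinv
    exact ⟨L, hLm, hL⟩
  · intro M' hM' hsub
    have hI1 : MinSet ((fun q : Om k × (B × PM k) => (q.1, q.2.1)) '' M') :=
      hIMG _ _ M' _ hM' hc1.continuousOn (fun n x _ => rfl)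
    have hI2 : MinSet ((fun q : Om k × (B × PM k) => q.2) '' M') :=
      hIMG _ _ M' _ hM' hc2.continuousOn (fun n x _ => rfl)
    have e1 : (fun q : Om k × (B × PM k) => (q.1, q.2.1)) '' M' = M := by
      refine hM.min _ hI1.closed hI1.ne hI1.inv ?_
      rintro _ ⟨q, hq, rfl⟩
      exact (hsub hq).2
    have e2 : (fun q : Om k × (B × PM k) => q.2) '' M' = Y := by
      refine hY.min _ hI2.closed hI2.ne hI2.inv ?_
      rintro _ ⟨q, hq, rfl⟩
      exact (hsub hq).1
    constructor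
    · intro q hq
      rw [← e1] at hq
      obtain ⟨⟨z, v, m⟩, hq', rfl⟩ := hq
      exact ⟨m, hq'⟩
    · intro p hp
      rw [← e2] at hp
      obtain ⟨⟨z, p'⟩, hq', rfl⟩ := hp
      exact ⟨z, hq'⟩

end Pool.Agent.Work.MP_69fea5_lc.AK
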