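import Pool.Agent.Work.MP_69fea5_lc.AK.Stmts

/-!
# [69fea5 ALLK MC1] the measure of the first sections of McMahon's relation
-/

set_option autoImplicit false

namespace Pool.Agent.Work.MP_69fea5_lc.AK

open MeasureTheory Topology Set Filter
open scoped NNReal

namespace I_MC1

variable {k : ℕ}

/-- a set of full measure may be intersected -/
theorem inter_full (m : PM k) (A S : Set (Om k)) (hS : MeasurableSet S) (h1 : m S = 1) :
    m A ≤ m (A ∩ S) := by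
  have h0 : m Sᶜ = 0 := by
    have h := MeasureTheory.prob_compl_eq_zero_iff (μ := (m : Measure (Om k))) hS
    have h2 : (m : Measure (Om k)) S = 1 := by
      have := congrArg (fun r : ℝ≥0 => (r : ENNReal)) h1
      simpa using this
    have h3 := h.2 h2
    have h4 : ((m Sᶜ : ℝ≥0) : ENNReal) = 0 := by simpa using h3
    exact_mod_cast h4
  have hsub : A ⊆ (A ∩ S) ∪ Sᶜ := by
    intro z hz
    by_cases h : z ∈ S
    · exact Or.inl ⟨hz, h⟩
    · exact Or.inr h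
  calc m A ≤ m ((A ∩ S) ∪ Sᶜ) := m.apply_mono hsub
    _ ≤ m (A ∩ S) + m Sᶜ := by
        have := measure_union_le (μ := (m : Measure (Om k))) (A ∩ S) Sᶜ
        have h5 : ((m ((A ∩ S) ∪ Sᶜ) : ℝ≥0) : ENNReal) ≤
            ((m (A ∩ S) : ℝ≥0) : ENNReal) + ((m Sᶜ : ℝ≥0) : ENNReal) := by simpa using this
        exact_mod_cast h5
    _ = m (A ∩ S) := by rw [h0, add_zero]

/-- compactness: late times near `(u, m)` bring `[P] ∩ supp m0` into `C` -/
theorem late (c : Om k) (m0 : PM k) (P : Wd k) (u : Om k) (m : PM k) (C : Set (Om k))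
    (hC : IsClopen C) (hum : (u, m) ∈ MM m0) (hA : {z | (u, z, m) ∈ NP c m0 P} ⊆ C) :
    ∃ U ∈ 𝓝 (u, m), ∃ N : ℕ, ∀ x : ℕ, N ≤ x → sh (x : ℤ) (c, m0) ∈ U →
      ∀ g ∈ cyl P 0 ∩ supp m0, sh (x : ℤ) g ∈ C := by
  have hcomp : IsCompact (Cᶜ : Set (Om k)) := hC.compl.isClosed.isCompact
  have key : ∃ U ∈ 𝓝 (u, m), ∃ N : ℕ, ∀ x : ℕ, N ≤ x → sh (x : ℤ) (c, m0) ∈ U →
      ∀ g ∈ cyl P 0 ∩ supp m0, sh (x : ℤ) g ∉ Cᶜ := by
    refine hcomp.induction_on (p := fun s => ∃ U ∈ 𝓝 (u, m), ∃ N : ℕ, ∀ x : ℕ, N ≤ x →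
      sh (x : ℤ) (c, m0) ∈ U → ∀ g ∈ cyl P 0 ∩ supp m0, sh (x : ℤ) g ∉ s) ?_ ?_ ?_ ?_
    · exact ⟨univ, univ_mem, 0, fun x _ _ g _ => by simp⟩
    · rintro s t hst ⟨U, hU, N, h⟩
      exact ⟨U, hU, N, fun x hx hxU g hg hgs => h x hx hxU g hg (hst hgs)⟩
    · rintro s t ⟨U, hU, N, h⟩ ⟨U', hU', N', h'⟩
      refine ⟨U ∩ U', inter_mem hU hU', max N N', fun x hx hxU g hg hgs => ?_⟩
      rcases hgs with hgs | hgs
      · exact h x (le_trans (le_max_left _ _) hx) hxU.1 g hg hgs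
      · exact h' x (le_trans (le_max_right _ _) hx) hxU.2 g hg hgs
    · intro z hz
      have hz' : (u, z, m) ∉ NP c m0 P := fun h => hz (hA h)
      have hz2 : ∃ U ∈ 𝓝 (u, z, m), ∃ N : ℕ, ∀ x : ℕ, N ≤ x → ∀ g ∈ cyl P 0 ∩ supp m0,
          (sh (x : ℤ) c, sh (x : ℤ) g, sh (x : ℤ) m0) ∉ U := by
        by_contra hcon
        apply hz'
        refine ⟨hum, fun U hU N => ?_⟩
        by_contra h2
        apply hcon
        refine ⟨U, hU, N, fun x hx g hg hgU => h2 ⟨x, hx, g, hg, hgU⟩⟩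
      obtain ⟨U, hU, N, h⟩ := hz2
      rw [nhds_prod_eq, mem_prod_iff] at hU
      obtain ⟨U1, hU1, W, hW, hUW⟩ := hU
      rw [nhds_prod_eq, mem_prod_iff] at hW
      obtain ⟨U2, hU2, U3, hU3, hW3⟩ := hW
      refine ⟨U2, mem_nhdsWithin_of_mem_nhds hU2, U1 ×ˢ U3, prod_mem_nhds hU1 hU3, N,
        fun x hx hxU g hg hgs => ?_⟩
      refine h x hx g hg (hUW ?_)
      exact ⟨hxU.1, hW3 ⟨hgs, hxU.2⟩⟩
  obtain ⟨U, hU, N, h⟩ := key
  refine ⟨U, hU, N, fun x hx hxU g hg => ?_⟩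
  by_contra hg'
  exact h x hx hxU g hg hg'

end I_MC1

open I_MC1 in
theorem MC1_pf (hCST : S_CST) (hPMB : S_PMB) (hCLP : S_CLP) (hUSC : S_USC) (hSUP : S_SUP)
    (hNPB : S_NPB) : S_MC1 := by
  intro k c m0 D P hst
  obtain ⟨hPM1, -, hPM3, -, -⟩ := hPMB k
  obtain ⟨hNPc, -, -, -, hNPi, -⟩ := hNPB k c m0 P
  obtain ⟨hSc, hS1, -, -, -, -, -, -⟩ := hSUP k m0
  set f : Om k × PM k → ℝ := fun p => ((p.2 {z | (p.1, z, p.2) ∈ NP c m0 P} : ℝ≥0) : ℝ) with hf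
  have hclosedA : ∀ (u : Om k) (m : PM k), IsClosed {z | (u, z, m) ∈ NP c m0 P} := by
    intro u m
    exact hNPc.preimage (by fun_prop : Continuous fun z : Om k => (u, z, m))
  have hinv : ∀ (n : ℤ), ∀ x ∈ MM m0, f (sh n x) = f x := by
    rintro n ⟨u, m⟩ -
    simp only [hf, sh_prod]
    congr 1
    rw [hPM1 m n _ (hclosedA _ _).measurableSet]
    congr 1
    ext z
    exact hNPi n z m u
  have husc : ∀ a : ℝ, IsClosed (MM m0 ∩ {x | a ≤ f x}) := by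
    intro a
    refine (isClosed_closure).inter ?_
    have h := hUSC k (Om k × PM k) {q | (q.2.1, q.1, q.2.2) ∈ NP c m0 P}
      (hNPc.preimage (by fun_prop :
        Continuous fun q : Om k × (Om k × PM k) => (q.2.1, q.1, q.2.2))) a.toNNReal
    have h2 := h.preimage (by fun_prop : Continuous fun p : Om k × PM k => (p.2, p))
    convert h2 using 1
    ext p
    simp only [mem_setOf_eq, mem_preimage, hf]
    rw [Real.toNNReal_le_iff_le_coe]
  obtain ⟨⟨u, m⟩, hum, homg⟩ := hst.base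
  have hconst := hCST (Om k × PM k) (MM m0) f hst.min hinv husc
  refine ⟨m {z | (u, z, m) ∈ NP c m0 P}, ?_, fun u' m' h' => ?_⟩
  · by_contra hlt
    rw [not_le] at hlt
    obtain ⟨C, hC, hAC, hCm⟩ := hCLP k m _ _ (hclosedA u m) hlt
    obtain ⟨U, hU, N, hN⟩ := late c m0 P u m C hC hum hAC
    have hV : {p : Om k × PM k | p.2 C < m0 (cyl P 0)} ∈ 𝓝 (u, m) := by
      have hcont : Continuous fun p : Om k × PM k => p.2 C := (hPM3 C hC).comp continuous_snd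
      exact (isOpen_Iio.preimage hcont).mem_nhds hCm
    obtain ⟨x, hx, hxU, hxV⟩ := homg _ (inter_mem hU hV) N
    have h1 : (sh (x : ℤ) m0) C < m0 (cyl P 0) := hxV
    rw [hPM1 m0 (x : ℤ) C hC.isClosed.measurableSet] at h1
    have h2 : m0 (cyl P 0) ≤ m0 {z | sh (x : ℤ) z ∈ C} :=
      le_trans (inter_full m0 (cyl P 0) (supp m0) hSc.measurableSet hS1)
        (m0.apply_mono fun g hg => hN x hx hxU g hg)
    exact absurd (lt_of_le_of_lt h2 h1) (lt_irrefl _)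
  · have := hconst (u', m') h' (u, m) hum
    simp only [hf] at this
    exact_mod_cast this

end Pool.Agent.Work.MP_69fea5_lc.AK
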