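import Pool.Agent.Work.MP_69fea5_lc.AK.Stmts

/-!
# [69fea5 ALLK MC2] the measure of the second sections of McMahon's relation

Fubini for the closed set `{(u, z) | (u, z, m0) ∈ NP}` and the measure `m0 × m0`.
-/

set_option autoImplicit false

namespace Pool.Agent.Work.MP_69fea5_lc.AK

open MeasureTheory Topology Set Filter
open scoped NNReal

namespace I_MC2

variable {k : ℕ}

/-- the integral of a function which is constant on a closed set of full measure -/
theorem lint (m : PM k) (S : Set (Om k)) (hSm : MeasurableSet S) (hS : m S = 1)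
    (f : Om k → ENNReal) (a : ℝ≥0) (h : ∀ z ∈ S, f z = a) :
    ∫⁻ z, f z ∂(m : Measure (Om k)) = a := by
  have hS' : (m : Measure (Om k)) S = 1 := by
    have := congrArg (fun r : ℝ≥0 => (r : ENNReal)) hS
    simpa using this
  have hae : ∀ᵐ z ∂(m : Measure (Om k)), z ∈ S := (mem_ae_iff_prob_eq_one hSm).2 hS'
  have h2 : ∫⁻ z, f z ∂(m : Measure (Om k)) = ∫⁻ _, (a : ENNReal) ∂(m : Measure (Om k)) :=
    lintegral_congr_ae (hae.mono fun z hz => h z hz)
  rw [h2, lintegral_const, measure_univ, mul_one]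

/-- Fubini: constant measures of the sections of a closed set, in both directions, agree -/
theorem fub (m : PM k) (S : Set (Om k)) (hSm : MeasurableSet S) (hS : m S = 1)
    (K : Set (Om k × Om k)) (hK : IsClosed K) (a b : ℝ≥0)
    (ha : ∀ u ∈ S, m {z | (u, z) ∈ K} = a) (hb : ∀ z ∈ S, m {u | (u, z) ∈ K} = b) : a = b := by
  have hKm : MeasurableSet K := hK.measurableSet
  have h1 : ((m : Measure (Om k)).prod (m : Measure (Om k))) K = a := by
    rw [Measure.prod_apply hKm]
    refine lint m S hSm hS _ a fun u hu => ?_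
    have h0 : ((m {z | (u, z) ∈ K} : ℝ≥0) : ENNReal) = a :=
      congrArg (fun r : ℝ≥0 => (r : ENNReal)) (ha u hu)
    rw [ProbabilityMeasure.ennreal_coeFn_eq_coeFn_toMeasure] at h0
    exact h0
  have h2 : ((m : Measure (Om k)).prod (m : Measure (Om k))) K = b := by
    rw [Measure.prod_apply_symm hKm]
    refine lint m S hSm hS _ b fun z hz => ?_
    have h0 : ((m {u | (u, z) ∈ K} : ℝ≥0) : ENNReal) = b :=
      congrArg (fun r : ℝ≥0 => (r : ENNReal)) (hb z hz)
    rw [ProbabilityMeasure.ennreal_coeFn_eq_coeFn_toMeasure] at h0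
    exact h0
  have h3 : (a : ENNReal) = b := h1.symm.trans h2
  exact_mod_cast h3

end I_MC2

open I_MC2 in
theorem MC2_pf (hCST : S_CST) (hPMB : S_PMB) (hUSC : S_USC) (hSUP : S_SUP) (hMMB : S_MMB)
    (hNPB : S_NPB) (hMC1 : S_MC1) : S_MC2 := by
  intro k c m0 D P hst
  obtain ⟨a, ha, haa⟩ := hMC1 k c m0 D P hst
  refine ⟨a, ha, haa, ?_⟩
  obtain ⟨hPM1, -, -, -, -⟩ := hPMB k
  obtain ⟨hNPc, -, -, hAPc, hNPi, -⟩ := hNPB k c m0 P
  obtain ⟨hSc, hS1, hSne, -, -, -, -, -⟩ := hSUP k m0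
  obtain ⟨-, -, hMs, -⟩ := hMMB k m0
  set f : Om k × PM k → ℝ := fun p => ((p.2 (AP c m0 P p.1 p.2) : ℝ≥0) : ℝ) with hf
  have hinv : ∀ (n : ℤ), ∀ x ∈ MM m0, f (sh n x) = f x := by
    rintro n ⟨z, m⟩ -
    simp only [hf, sh_prod]
    congr 1
    rw [hPM1 m n _ (hAPc _ _).measurableSet]
    congr 1
    ext u
    exact hNPi n z m u
  have husc : ∀ a : ℝ, IsClosed (MM m0 ∩ {x | a ≤ f x}) := by
    intro a
    refine (isClosed_closure).inter ?_
    have h := hUSC k (Om k × PM k) (NP c m0 P) hNPc a.toNNReal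
    have h2 := h.preimage (by fun_prop : Continuous fun p : Om k × PM k => (p.2, p))
    convert h2 using 1
    ext p
    simp only [mem_ofPred_eq, mem_preimage, hf]
    rw [Real.toNNReal_le_iff_le_coe]
    rfl
  have hconst := hCST (Om k × PM k) (MM m0) f hst.min hinv husc
  obtain ⟨z0, hz0⟩ := hSne
  have hb : ∀ z m, (z, m) ∈ MM m0 → m (AP c m0 P z m) = m0 (AP c m0 P z0 m0) := by
    intro z m h
    have := hconst (z, m) h (z0, m0) (hMs z0 hz0)
    simp only [hf] at this
    exact_mod_cast this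
  have hab : a = m0 (AP c m0 P z0 m0) := by
    refine fub m0 (supp m0) hSc.measurableSet hS1 {p | (p.1, p.2, m0) ∈ NP c m0 P}
      (hNPc.preimage (by fun_prop : Continuous fun p : Om k × Om k => (p.1, p.2, m0))) a _ ?_ ?_
    · exact fun u hu => haa u m0 (hMs u hu)
    · exact fun z hz => hb z m0 (hMs z hz)
  intro z m h
  rw [hb z m h, hab]

end Pool.Agent.Work.MP_69fea5_lc.AK
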