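import Pool.Agent.Work.MP_69fea5_lc.AK.Stmts

/-!
# Block [69fea5 ALLK], item NPB: McMahon's relation is closed and invariant
-/

set_option autoImplicit false

namespace Pool.Agent.Work.MP_69fea5_lc.AK

open MeasureTheory Topology Set Filter
open scoped NNReal

namespace I_NPB

variable {k : ℕ}

/-- the late part of the orbit of `(c, g, m0)`, `g ∈ [P] ∩ supp m0` -/
def late (c : Om k) (m0 : PM k) (P : Wd k) (N : ℕ) : Set (Om k × Om k × PM k) :=
  {p | ∃ x : ℕ, N ≤ x ∧ ∃ g ∈ cyl P 0 ∩ supp m0,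
    (sh (x : ℤ) c, sh (x : ℤ) g, sh (x : ℤ) m0) = p}

theorem NP_eq (c : Om k) (m0 : PM k) (P : Wd k) :
    NP c m0 P = {q : Om k × Om k × PM k | (q.1, q.2.2) ∈ MM m0} ∩
      ⋂ N : ℕ, closure (late c m0 P N) := by
  ext q
  simp only [NP, Set.mem_ofPred_eq, mem_inter_iff, mem_iInter]
  refine and_congr_right fun _ => ⟨fun h N => ?_, fun h U hU N => ?_⟩
  · rw [mem_closure_iff_nhds]
    intro U hU
    obtain ⟨x, hx, g, hg, hgU⟩ := h U hU N
    exact ⟨_, hgU, x, hx, g, hg, rfl⟩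
  · obtain ⟨p, hpU, x, hx, g, hg, rfl⟩ := mem_closure_iff_nhds.1 (h N) U hU
    exact ⟨x, hx, g, hg, hpU⟩

theorem NP_closed (c : Om k) (m0 : PM k) (P : Wd k) (hM : IsClosed (MM m0)) :
    IsClosed (NP c m0 P) := by
  rw [NP_eq]
  refine IsClosed.inter ?_ (isClosed_iInter fun N => isClosed_closure)
  exact hM.preimage
    (continuous_fst.prodMk (continuous_snd.comp continuous_snd) :
      Continuous fun q : Om k × Om k × PM k => (q.1, q.2.2))

theorem NP_inv (c : Om k) (m0 : PM k) (P : Wd k) (hM : Inv (MM m0)) :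
    Inv (NP c m0 P) := by
  rintro n q ⟨hq1, hq2⟩
  refine ⟨hM n _ hq1, fun U hU N => ?_⟩
  have hV : (sh n : Om k × Om k × PM k → Om k × Om k × PM k) ⁻¹' U ∈ 𝓝 q :=
    (sh_cont n).continuousAt hU
  obtain ⟨x, hx, g, hg, hgU⟩ := hq2 _ hV (N + n.natAbs)
  have hpos : (N : ℤ) ≤ n + x := by omega
  have hx' : (((n + x).toNat : ℕ) : ℤ) = n + x := Int.toNat_of_nonneg (by omega)
  refine ⟨(n + x).toNat, by omega, g, hg, ?_⟩
  rw [hx', sh_add, sh_add, sh_add]
  exact hgU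

end I_NPB

open I_NPB in
/-- [NPB] McMahon's relation is closed and invariant. -/
theorem NPB_pf (hCYL : S_CYL) (hMMB : S_MMB) : S_NPB := by
  intro k c m0 P
  obtain ⟨hMc, hMi, hMs, -⟩ := hMMB k m0
  have hcl := NP_closed c m0 P hMc
  have hinv := NP_inv c m0 P hMi
  refine ⟨hcl, hinv, ?_, ?_, ?_, ?_⟩
  · rintro u z m ⟨h1, h2⟩
    refine ⟨h1, ?_⟩
    rw [← hMc.closure_eq, mem_closure_iff_nhds]
    intro V hV
    have hV' : (Prod.snd : Om k × Om k × PM k → Om k × PM k) ⁻¹' V ∈ 𝓝 (u, z, m) :=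
      continuous_snd.continuousAt hV
    obtain ⟨x, -, g, hg, hgV⟩ := h2 _ hV' 0
    exact ⟨_, hgV, hMi x _ (hMs g hg.2)⟩
  · intro z m
    exact hcl.preimage
      (continuous_id.prodMk continuous_const : Continuous fun u : Om k => (u, z, m))
  · intro n z m u
    constructor
    · intro h
      have h' := hinv (-n) _ h
      simp only [sh_prod, ← sh_add, neg_add_cancel, sh_zero] at h'
      exact h'
    · intro h
      exact hinv n _ h
  · intro hP
    rw [eq_empty_iff_forall_notMem]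
    rintro q ⟨-, h2⟩
    obtain ⟨x, -, g, hg, -⟩ := h2 univ univ_mem 0
    exact hP (hg.2 _ ((hCYL k).1 P 0).isOpen hg.1)

end Pool.Agent.Work.MP_69fea5_lc.AK
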