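import Pool.Agent.Work.MP_69fea5_lc.AK.Stmts

/-!
Block [69fea5 ALLK], item PSI: continuity of `(z, m) ↦ m (B ∩ A^P(z, m))` on `MM m0`.
-/

set_option autoImplicit false

namespace Pool.Agent.Work.MP_69fea5_lc.AK

open MeasureTheory Topology Set Filter
open scoped NNReal

namespace I_PSI

variable {k : ℕ}

/-- superlevel sets are closed -/
lemma usc (hUSC : S_USC) (hNPB : S_NPB) (c : Om k) (m0 : PM k) (P : Wd k) (B : Set (Om k))
    (hB : IsClosed B) (a : ℝ≥0) :
    IsClosed {p : Om k × PM k | a ≤ p.2 (B ∩ AP c m0 P p.1 p.2)} := by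
  have hcl := (hNPB k c m0 P).1
  have hK : IsClosed {q : Om k × (Om k × PM k) | q.1 ∈ B ∧ q ∈ NP c m0 P} :=
    (hB.preimage continuous_fst).inter hcl
  have h1 := hUSC k (Om k × PM k) _ hK a
  have h2 : Continuous fun p : Om k × PM k => ((p.2, p) : PM k × (Om k × PM k)) :=
    continuous_snd.prodMk continuous_id
  exact h1.preimage h2

lemma sum_eq (m : PM k) (A B : Set (Om k)) (hB : MeasurableSet B) :
    m (B ∩ A) + m (Bᶜ ∩ A) = m A := by
  have h := measure_inter_add_sdiff (μ := (m : Measure (Om k))) A hB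
  have h1 : A ∩ B = B ∩ A := inter_comm _ _
  have h2 : A \ B = Bᶜ ∩ A := by rw [sdiff_eq, inter_comm]
  rw [h1, h2] at h
  have e : ((m (B ∩ A) + m (Bᶜ ∩ A) : ℝ≥0) : ENNReal) = ((m A : ℝ≥0) : ENNReal) := by
    rw [ENNReal.coe_add, ProbabilityMeasure.ennreal_coeFn_eq_coeFn_toMeasure,
      ProbabilityMeasure.ennreal_coeFn_eq_coeFn_toMeasure,
      ProbabilityMeasure.ennreal_coeFn_eq_coeFn_toMeasure]
    exact h
  exact_mod_cast e

end I_PSI

theorem PSI_pf (hUSC : S_USC) (hNPB : S_NPB) (hMC2 : S_MC2) : S_PSI := by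
  intro k c m0 D P hst B hB
  obtain ⟨a, -, -, ha⟩ := hMC2 k c m0 D P hst
  have h1 := I_PSI.usc hUSC hNPB c m0 P B hB.isClosed
  have h2 := I_PSI.usc hUSC hNPB c m0 P Bᶜ hB.compl.isClosed
  have hsum : ∀ p ∈ MM m0, p.2 (B ∩ AP c m0 P p.1 p.2) + p.2 (Bᶜ ∩ AP c m0 P p.1 p.2) = a := by
    intro p hp
    rw [I_PSI.sum_eq _ _ _ hB.isClosed.measurableSet]
    exact ha p.1 p.2 hp
  rw [continuousOn_iff_lower_upperSemicontinuousOn]
  constructor
  · intro p hp y hy
    have e := hsum p hp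
    have h3 : p.2 (Bᶜ ∩ AP c m0 P p.1 p.2) < a - y := by
      rw [lt_tsub_iff_right, ← e, add_comm]
      exact add_lt_add_left hy _
    have h4 : IsOpen {p : Om k × PM k | p.2 (Bᶜ ∩ AP c m0 P p.1 p.2) < a - y} := by
      have := (h2 (a - y)).isOpen_compl
      convert this using 1
      ext q
      rw [mem_setOf_eq, mem_compl_iff, mem_setOf_eq, not_le]
    have h5 := h4.mem_nhds h3
    filter_upwards [mem_nhdsWithin_of_mem_nhds h5, self_mem_nhdsWithin] with q hq hqM
    have e' := hsum q hqM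
    have h6 : q.2 (Bᶜ ∩ AP c m0 P q.1 q.2) + y < a := lt_tsub_iff_right.1 hq
    rw [← e', add_comm] at h6
    exact lt_of_add_lt_add_right h6
  · intro p hp y hy
    have h4 : IsOpen {p : Om k × PM k | p.2 (B ∩ AP c m0 P p.1 p.2) < y} := by
      have := (h1 y).isOpen_compl
      convert this using 1
      ext q
      rw [mem_setOf_eq, mem_compl_iff, mem_setOf_eq, not_le]
    exact mem_nhdsWithin_of_mem_nhds (h4.mem_nhds hy)

end Pool.Agent.Work.MP_69fea5_lc.AK
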