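import Pool.Agent.Work.MP_69fea5_lc.AK.Stmts

/-!
# Block [69fea5 ALLK], item ST0: the first stage
-/

set_option autoImplicit false

namespace Pool.Agent.Work.MP_69fea5_lc.AK

open MeasureTheory Topology Set Filter
open scoped NNReal

namespace I_ST0

theorem sh_fix {k : ℕ} {m : PM k} (h : sh 1 m = m) : ∀ n : ℤ, sh n m = m := by
  have hneg : sh (-1) m = m := by
    have h1 : sh (-1) (sh 1 m) = m := by
      rw [← sh_add]
      simpa using sh_zero m
    rwa [h] at h1
  intro n
  induction n using Int.induction_on with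
  | zero => exact sh_zero m
  | succ i ih => rw [sh_add, h, ih]
  | pred i ih =>
    rw [sub_eq_add_neg, sh_add, hneg, ih]

end I_ST0

theorem ST0_pf (hSUP : S_SUP) : S_ST0 := by
  intro k c g m hmin hg h1 hm
  obtain ⟨hcl, -, hne, -, hinv, -, hsub, -⟩ := hSUP k m
  have hfix := I_ST0.sh_fix h1
  have hS : supp m = orb g := by
    refine hmin.min _ hcl hne ?_ (hsub _ hmin.closed hm)
    intro n z hz
    have := hinv n z hz
    rwa [hfix n] at this
  have hMM : MM m = orb g ×ˢ ({m} : Set (PM k)) := by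
    have e : {p : Om k × PM k | ∃ n : ℤ, ∃ z ∈ supp m, p = (sh n z, sh n m)} =
        orb g ×ˢ ({m} : Set (PM k)) := by
      ext p
      constructor
      · rintro ⟨n, z, hz, rfl⟩
        rw [hS] at hz
        exact ⟨hmin.inv n z hz, by simpa using hfix n⟩
      · rintro ⟨hz, hp⟩
        refine ⟨0, p.1, by rw [hS]; exact hz, ?_⟩
        have hp' : p.2 = m := hp
        rw [sh_zero, sh_zero, ← hp']
    unfold MM
    rw [e]
    exact (hmin.closed.prod isClosed_singleton).closure_eq
  refine ⟨⟨?_, ?_, ?_, ?_⟩, ?_, ?_⟩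
  · rw [hMM]
    exact hmin.closed.prod isClosed_singleton
  · rw [hMM]
    exact hmin.ne.prod (singleton_nonempty m)
  · rw [hMM]
    rintro n ⟨z, m'⟩ ⟨hz, hp⟩
    have hp' : m' = m := hp
    subst hp'
    exact ⟨hmin.inv n z hz, by simpa using hfix n⟩
  · intro L hLc hLn hLi hLs
    rw [hMM] at hLs ⊢
    have hproj : {z : Om k | (z, m) ∈ L} = orb g := by
      refine hmin.min _ ?_ ?_ ?_ ?_
      · exact hLc.preimage (by fun_prop : Continuous fun z : Om k => (z, m))
      · obtain ⟨⟨z, m'⟩, hp⟩ := hLn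
        have hp' : m' = m := (hLs hp).2
        subst hp'
        exact ⟨z, hp⟩
      · intro n z hz
        have := hLi n _ hz
        rw [sh_prod, hfix n] at this
        exact this
      · intro z hz
        exact (hLs hz).1
    apply Subset.antisymm hLs
    rintro ⟨z, m'⟩ ⟨hz, hp⟩
    have hp' : m' = m := hp
    subst hp'
    rw [← hproj] at hz
    exact hz
  · refine ⟨(g, m), ?_, ?_⟩
    · rw [hMM]
      refine ⟨?_, rfl⟩
      apply subset_closure
      exact ⟨0, sh_zero g⟩
    · intro U hU N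
      rw [nhds_prod_eq] at hU
      obtain ⟨A, hA, B, hB, hAB⟩ := Filter.mem_prod_iff.1 hU
      obtain ⟨n, hn, hcA⟩ := hg A hA N
      refine ⟨n, hn, hAB ?_⟩
      rw [sh_prod, hfix]
      exact ⟨hcA, mem_of_mem_nhds hB⟩
  · intro U hU
    refine ⟨0, by rw [sh_zero]; exact mem_of_mem_nhds hU, univ, univ_mem, ?_⟩
    intro m' _ _
    have : {z : Om k | z 0 ∉ (Finset.univ : Finset (Fin k))} = ∅ := by
      ext z; simp
    rw [this]
    simp

end Pool.Agent.Work.MP_69fea5_lc.AK
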