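import Pool.Agent.Work.MP_69fea5_lc.AK.Stmts

/-! Item STE: no measure is a stage with the empty set of colours. -/

namespace Pool.Agent.Work.MP_69fea5_lc.AK

theorem STE_pf (hSTG : S_STG) : S_STE := by
  intro k c m hs
  have h := (hSTG k c m ∅ hs).2.2.2.2
  have hu : {z : Om k | z 0 ∉ (∅ : Finset (Fin k))} = Set.univ := by
    ext z
    simp
  rw [hu] at h
  have h1 : m Set.univ = 1 := by simp
  rw [h1] at h
  exact one_ne_zero h

end Pool.Agent.Work.MP_69fea5_lc.AK
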