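import Pool.Agent.Work.MP_69fea5_lc.AK.Stmts

/-!
# Block [69fea5 ALLK], item STP: the step
-/

set_option autoImplicit false

namespace Pool.Agent.Work.MP_69fea5_lc.AK

open MeasureTheory Topology Set Filter
open scoped NNReal

namespace I_STP

/-- a limit and a cluster point give a cluster point of the pair -/
theorem clusterPt_pair {X Y : Type*} [TopologicalSpace X] [TopologicalSpace Y]
    {u : ℕ → X} {v : ℕ → Y} {x : X} {y : Y}
    (hu : ∀ U ∈ 𝓝 x, ∀ᶠ i in atTop, u i ∈ U) (hv : MapClusterPt y atTop v)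
    {S : Set (X × Y)} (hS : ∀ i, (u i, v i) ∈ S) : (x, y) ∈ closure S := by
  rw [mem_closure_iff_nhds]
  intro W hW
  rw [nhds_prod_eq, Filter.mem_prod_iff] at hW
  obtain ⟨U, hU, V, hV, hUV⟩ := hW
  have h1 : ∃ᶠ i in atTop, v i ∈ V := hv.frequently hV
  obtain ⟨i, hi1, hi2⟩ := (h1.and_eventually (hu U hU)).exists
  exact ⟨(u i, v i), hUV ⟨hi2, hi1⟩, hS i⟩

end I_STP

open I_STP in
theorem STP_pf (hORB : S_ORB) (hTHB : S_THB) (hZS2 : S_ZS2) (hZNB : S_ZNB) (hZNO : S_ZNO)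
    (hAAB : S_AAB) (hGLX : S_GLX) (hGLM : S_GLM) (hGLO : S_GLO) (hGLR : S_GLR) : S_STP := by
  intro k c m0 D hst hII z hz m hm v1 m1 h1 hY
  obtain ⟨hT1, -, hT3⟩ := hTHB k c m0
  obtain ⟨-, hM1⟩ := hT3 D hst
  obtain ⟨-, -, hAcl, hAinv, -⟩ := hAAB k (Cube (Ix k)) (M1 c m0) hM1
  have horb := hORB (Cube (Ix k) × PM k)
  -- the orbit closure lies in the energy set
  have h1A : (v1, m1) ∈ AA (M1 c m0) := (horb (Th c m0 (z, m0), m)).2.2.2.1 _ hAcl hAinv hm h1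
  have hYA : orb (v1, m1) ⊆ AA (M1 c m0) := (horb (v1, m1)).2.2.2.1 _ hAcl hAinv h1A
  have hYcl : IsClosed (orb (v1, m1)) := (horb (v1, m1)).1
  have hYinv : Inv (orb (v1, m1)) := (horb (v1, m1)).2.1
  have h1Y : (v1, m1) ∈ orb (v1, m1) := (horb (v1, m1)).2.2.1
  -- `v1` is in the image of `MM m0`
  obtain ⟨p1, hp1, hv1⟩ : ∃ p ∈ MM m0, v1 = Th c m0 p := by
    have hq : m1 {w | (w, v1) ∈ M1 c m0} = 1 := h1A.1
    have hne : {w | (w, v1) ∈ M1 c m0}.Nonempty := by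
      by_contra hcon
      rw [Set.not_nonempty_iff_eq_empty] at hcon
      rw [hcon] at hq
      simp at hq
    obtain ⟨w, μ, hwμ, hwe⟩ := hne
    exact ⟨(w, μ), hwμ, hwe⟩
  have hsh : ∀ n : ℤ, sh n p1 ∈ MM m0 ∧ sh n v1 = Th c m0 (sh n p1) := fun n =>
    ⟨hst.min.inv n p1 hp1, by rw [hT1 n p1, hv1]⟩
  obtain ⟨⟨M', hM', hM's⟩, hpr⟩ := hGLX k (Cube (Ix k)) (M1 c m0) _ hM1 hY hYA
  -- the orbit of `v1` is dense in the image of `MM m0`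
  have hdense : ∀ p ∈ MM m0, ∀ W ∈ 𝓝 (Th c m0 p), ∃ n : ℤ, sh n v1 ∈ W := by
    intro p hp W hW
    obtain ⟨μ, hμ⟩ := (hpr M' hM' hM's).1 (p.1, Th c m0 p) ⟨p.2, hp, rfl⟩
    have hYp : (Th c m0 p, μ) ∈ orb (v1, m1) := (hM's hμ).1
    have hW' : W ×ˢ (univ : Set (PM k)) ∈ 𝓝 (Th c m0 p, μ) := by
      rw [nhds_prod_eq]
      exact Filter.prod_mem_prod hW Filter.univ_mem
    obtain ⟨q, hqW, ⟨n, hn⟩⟩ := mem_closure_iff_nhds.1 hYp _ hW'
    refine ⟨n, ?_⟩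
    have hq : q = (sh n v1, sh n m1) := by rw [← hn]; rfl
    rw [hq] at hqW
    exact hqW.1
  -- the zone of some colour, for one neighbourhood
  have hone : ∀ U ∈ 𝓝 (Th c m0 (z, m0)), ∃ r ∈ D, ∃ n : ℤ, sh n v1 ∈ U ∧
      ZN c m0 D r (sh n v1) := by
    intro U hU
    obtain ⟨r, hr, p, hp, hpU, hpZ⟩ := hZNB k c m0 D hst hII z hz (interior U)
      (interior_mem_nhds.2 hU)
    obtain ⟨V, hV, hVZ⟩ := (hZNO k c m0 D hst).1 r p hp hpZ
    obtain ⟨n, hn⟩ := hdense p hp (interior U ∩ V)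
      (Filter.inter_mem (isOpen_interior.mem_nhds hpU) hV)
    refine ⟨r, hr, n, interior_subset hn.1, ?_⟩
    rw [(hsh n).2]
    apply hVZ _ (hsh n).1
    rw [← (hsh n).2]
    exact hn.2
  obtain ⟨r, hr, hrU⟩ : ∃ r ∈ D, ∀ U ∈ 𝓝 (Th c m0 (z, m0)), ∃ n : ℤ, sh n v1 ∈ U ∧
      ZN c m0 D r (sh n v1) := by
    by_contra hcon
    push_neg at hcon
    choose! W hW hWn using hcon
    have hI : (⋂ r ∈ D, W r) ∈ 𝓝 (Th c m0 (z, m0)) := by
      rw [Filter.biInter_finset_mem]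
      exact fun r hr => hW r hr
    obtain ⟨r, hr, n, hn, hZ⟩ := hone _ hI
    exact hWn r hr n (Set.mem_iInter₂.1 hn r hr) hZ
  refine ⟨r, hr, hrU, ?_⟩
  intro n m' hZ hlim hcl
  have hmem : ∀ i, (sh (n i) v1, sh (n i) m1) ∈ orb (v1, m1) := fun i => hYinv (n i) _ h1Y
  have hY0 : (Th c m0 (z, m0), m') ∈ orb (v1, m1) := by
    have := clusterPt_pair hlim hcl hmem
    rwa [hYcl.closure_eq] at this
  have hYz : (Th c m0 (z, m0), m') ∈
      closure {p | p ∈ orb (v1, m1) ∧ p.1 ∈ Zn (M1 c m0) (D.erase r)} := by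
    apply clusterPt_pair hlim hcl
    intro i
    refine ⟨hmem i, ?_⟩
    have h2 := (hZNO k c m0 D hst).2 r (sh (n i) p1) (hsh (n i)).1
    rw [← (hsh (n i)).2] at h2
    exact h2 (hZ i)
  refine ⟨?_, ?_, ?_⟩
  · exact (hGLM k (Cube (Ix k)) (M1 c m0) _ M' hM1 hY hYA hM' hM's _ hY0).1
  · exact hGLO k (Cube (Ix k)) (M1 c m0) _ c _ m' hM1 hY hYA hY0
      ((hZS2 k c m0 D hst z hz).2.2)
  · exact hGLR k (Cube (Ix k)) (M1 c m0) _ (D.erase r) _ m' hM1 hY hYA hY0 hYz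

end Pool.Agent.Work.MP_69fea5_lc.AK
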