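import Pool.Agent.Work.MP_69fea5_lc.AK.Stmts

/-!
# Item THB: the map `Th` onto the isometric extension.
-/

set_option autoImplicit false

namespace Pool.Agent.Work.MP_69fea5_lc.AK

open MeasureTheory Topology Set Filter
open scoped NNReal

namespace I_THB

variable {k : ℕ}

theorem toI_congr {m m' : PM k} {B B' : Set (Om k)} (h : m B = m' B') : toI m B = toI m' B' := by
  apply Subtype.ext
  change ((m B : ℝ≥0) : ℝ) = ((m' B' : ℝ≥0) : ℝ)
  rw [h]

theorem of_toI {m m' : PM k} {B B' : Set (Om k)} (h : toI m B = toI m' B') : m B = m' B' := by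
  have h' : ((m B : ℝ≥0) : ℝ) = ((m' B' : ℝ≥0) : ℝ) :=
    congrArg (fun t : unitInterval => (t : ℝ)) h
  exact_mod_cast h'

theorem cont_toI {X : Type*} [TopologicalSpace X] {S : Set X} {f : X → PM k}
    {B : X → Set (Om k)} (h : ContinuousOn (fun p => f p (B p)) S) :
    ContinuousOn (fun p => toI (f p) (B p)) S := by
  have h' : ContinuousOn (fun p => ((f p (B p) : ℝ≥0) : ℝ)) S :=
    NNReal.continuous_coe.comp_continuousOn h
  exact Topology.IsInducing.subtypeVal.continuousOn_iff.2 h'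

end I_THB

open I_THB

theorem THB_pf (hIMG : S_IMG) (hCYL : S_CYL) (hPMB : S_PMB) (hNPB : S_NPB) (hPSI : S_PSI) :
    S_THB := by
  intro k c m0
  obtain ⟨hC1, hC2, -⟩ := hCYL k
  obtain ⟨hP1, hP2, hP3, hP4, -⟩ := hPMB k
  have heq : ∀ (n : ℤ) p, Th c m0 (sh n p) = sh n (Th c m0 p) := by
    intro n p
    obtain ⟨z, m⟩ := p
    funext i j
    rcases i with w | ⟨P, w⟩
    · change toI (sh n m) (cyl w j) = toI m (cyl w (j + n))
      exact toI_congr (hP2 m w j n)
    · change toI (sh n m) (cyl w j ∩ AP c m0 P (sh n z) (sh n m)) =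
        toI m (cyl w (j + n) ∩ AP c m0 P z m)
      apply toI_congr
      have hmeas : MeasurableSet (cyl w j ∩ AP c m0 P (sh n z) (sh n m)) :=
        (hC1 w j).isClosed.measurableSet.inter
          ((hNPB k c m0 P).2.2.2.1 (sh n z) (sh n m)).measurableSet
      rw [hP1 m n _ hmeas]
      congr 1
      ext x
      constructor
      · rintro ⟨h1, h2⟩
        exact ⟨(hC2 w j n x).1 h1, ((hNPB k c m0 P).2.2.2.2.1 n z m x).1 h2⟩
      · rintro ⟨h1, h2⟩
        exact ⟨(hC2 w j n x).2 h1, ((hNPB k c m0 P).2.2.2.2.1 n z m x).2 h2⟩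
  refine ⟨heq, ?_, ?_⟩
  · intro p p' h
    apply hP4
    intro w
    have h1 : Th c m0 p (.inl w) 0 = Th c m0 p' (.inl w) 0 := by rw [h]
    exact of_toI h1
  · intro D hS
    have hcont : ContinuousOn (Th c m0) (MM m0) := by
      refine continuousOn_pi.2 fun i => continuousOn_pi.2 fun j => ?_
      rcases i with w | ⟨P, w⟩
      · change ContinuousOn (fun p : Om k × PM k => toI p.2 (cyl w j)) (MM m0)
        apply cont_toI
        exact ((hP3 _ (hC1 w j)).comp continuous_snd).continuousOn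
      · change ContinuousOn (fun p : Om k × PM k => toI p.2 (cyl w j ∩ AP c m0 P p.1 p.2)) (MM m0)
        apply cont_toI
        exact hPSI k c m0 D P hS _ (hC1 w j)
    refine ⟨hcont, ?_⟩
    have hM : M1 c m0 = (fun p : Om k × PM k => (p.1, Th c m0 p)) '' MM m0 := by
      ext q
      constructor
      · rintro ⟨m, h1, h2⟩
        exact ⟨(q.1, m), h1, Prod.ext rfl h2.symm⟩
      · rintro ⟨⟨z, m⟩, h1, rfl⟩
        exact ⟨m, h1, rfl⟩
    rw [hM]
    refine hIMG _ _ (MM m0) _ hS.min (continuousOn_fst.prodMk hcont) ?_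
    intro n x _
    simp only [sh_prod]
    exact Prod.ext rfl (heq n x)

end Pool.Agent.Work.MP_69fea5_lc.AK
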