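import Pool.Agent.Work.MP_69fea5_lc.AK.Stmts

/-!
# [69fea5 ALLK ZNA] zones near the base point, inside the fibre of `m0`
-/

set_option autoImplicit false

namespace Pool.Agent.Work.MP_69fea5_lc.AK

open MeasureTheory Topology Set Filter
open scoped NNReal

namespace I_ZNA

variable {k : ℕ}

/-- a set of full measure may be intersected -/
theorem inter_full (m : PM k) (A S : Set (Om k)) (hS : MeasurableSet S) (h1 : m S = 1) :
    m A ≤ m (A ∩ S) := by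
  have h0 : m Sᶜ = 0 := by
    have h := MeasureTheory.prob_compl_eq_zero_iff (μ := (m : Measure (Om k))) hS
    have h2 : (m : Measure (Om k)) S = 1 := by
      have := congrArg (fun r : ℝ≥0 => (r : ENNReal)) h1
      simpa using this
    have h3 := h.2 h2
    have h4 : ((m Sᶜ : ℝ≥0) : ENNReal) = 0 := by simpa using h3
    exact_mod_cast h4
  have hsub : A ⊆ (A ∩ S) ∪ Sᶜ := by
    intro z hz
    by_cases h : z ∈ S
    · exact Or.inl ⟨hz, h⟩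
    · exact Or.inr h
  calc m A ≤ m ((A ∩ S) ∪ Sᶜ) := m.apply_mono hsub
    _ ≤ m (A ∩ S) + m Sᶜ := by
        have := measure_union_le (μ := (m : Measure (Om k))) (A ∩ S) Sᶜ
        have h5 : ((m ((A ∩ S) ∪ Sᶜ) : ℝ≥0) : ENNReal) ≤
            ((m (A ∩ S) : ℝ≥0) : ENNReal) + ((m Sᶜ : ℝ≥0) : ENNReal) := by simpa using this
        exact_mod_cast h5
    _ = m (A ∩ S) := by rw [h0, add_zero]

/-- a finite set of neighbourhoods of `0` contains a common ball -/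
theorem small {I : Set (Wd k)} (hI : I.Finite) (t : Wd k → Set ℝ) (ht : ∀ i, t i ∈ 𝓝 (0 : ℝ)) :
    ∃ ε : ℝ, 0 < ε ∧ ∀ i ∈ I, ∀ r : ℝ, |r| ≤ 2 * ε → r ∈ t i := by
  induction I, hI using Set.Finite.induction_on with
  | empty => exact ⟨1, one_pos, fun i hi => absurd hi (Set.notMem_empty i)⟩
  | @insert a s _ _ ih =>
    obtain ⟨ε, hε, h⟩ := ih
    obtain ⟨δ, hδ, h2⟩ := Metric.mem_nhds_iff.1 (ht a)
    refine ⟨min ε (δ / 4), lt_min hε (by positivity), fun i hi r hr => ?_⟩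
    rcases hi with rfl | hi
    · refine h2 ?_
      rw [Metric.mem_ball, Real.dist_eq, sub_zero]
      have : min ε (δ / 4) ≤ δ / 4 := min_le_right _ _
      linarith
    · refine h i hi r (hr.trans ?_)
      have : min ε (δ / 4) ≤ ε := min_le_left _ _
      linarith

/-- closeness in the isometric extension follows from finitely many pseudometrics -/
theorem near (hCYL : S_CYL) (hDDA : S_DDA) (c : Om k) (m0 : PM k) (z : Om k)
    (U : Set (Cube (Ix k))) (hU : U ∈ 𝓝 (Th c m0 (z, m0))) :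
    ∃ I : Set (Wd k), I.Finite ∧ ∃ ε : ℝ, 0 < ε ∧
      ∀ z', (∀ Q ∈ I, dd c m0 Q z' z m0 ≤ 2 * ε) → Th c m0 (z', m0) ∈ U := by
  set Φ : Om k → (Wd k → ℝ) := fun z' Q => dd c m0 Q z' z m0 with hΦ
  have ht : Tendsto (fun z' => Th c m0 (z', m0)) (comap Φ (𝓝 0)) (𝓝 (Th c m0 (z, m0))) := by
    rw [tendsto_pi_nhds]
    intro i
    rw [tendsto_pi_nhds]
    intro n
    rcases i with w | q
    · exact tendsto_const_nhds
    · have h0 : Tendsto (fun z' => dd c m0 q.1 z' z m0) (comap Φ (𝓝 0)) (𝓝 0) := by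
        have h1 : Tendsto Φ (comap Φ (𝓝 0)) (𝓝 0) := tendsto_comap
        exact (tendsto_pi_nhds.1 h1) q.1
      have hB : MeasurableSet (cyl q.2 n) := ((hCYL k).1 q.2 n).isClosed.measurableSet
      rw [tendsto_subtype_rng]
      refine tendsto_iff_dist_tendsto_zero.2 ?_
      refine squeeze_zero (fun _ => dist_nonneg) (fun z' => ?_) h0
      rw [Real.dist_eq]
      exact (hDDA k c m0 q.1).2.2.2.2.1 z' z m0 _ hB
  have h2 := ht hU
  rw [mem_map, mem_comap] at h2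
  obtain ⟨T, hT, hTU⟩ := h2
  rw [nhds_pi, Filter.mem_pi] at hT
  obtain ⟨I, hI, t, ht', hIt⟩ := hT
  obtain ⟨ε, hε, h3⟩ := small hI t ht'
  refine ⟨I, hI, ε, hε, fun z' hz' => hTU (hIt ?_)⟩
  intro Q hQ
  refine h3 Q hQ _ ?_
  rw [hΦ]
  simp only
  rw [abs_of_nonneg ((hDDA k c m0 Q).2.1 z' z m0).1]
  exact hz' Q hQ

/-- the points close to `z` -/
def Gs (c : Om k) (m0 : PM k) (z : Om k) (I : Set (Wd k)) (b : ℝ) : Set (Om k) :=
  {z' | (z', m0) ∈ MM m0 ∧ ∀ Q ∈ I, dd c m0 Q z' z m0 ≤ b}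

theorem contOn (hDDC : S_DDC) (c : Om k) (m0 : PM k) (D : Finset (Fin k)) (hst : Stage c m0 D)
    (z : Om k) (hz : (z, m0) ∈ MM m0) (Q : Wd k) :
    ContinuousOn (fun z' => dd c m0 Q z' z m0) {z' | (z', m0) ∈ MM m0} := by
  have h := hDDC k c m0 D Q hst
  have h2 : ContinuousOn (fun z' : Om k => (z', z, m0)) {z' | (z', m0) ∈ MM m0} :=
    (by fun_prop : Continuous fun z' : Om k => (z', z, m0)).continuousOn
  exact h.comp h2 fun z' hz' => ⟨hz', hz⟩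

theorem Gs_closed (hMMB : S_MMB) (hDDC : S_DDC) (c : Om k) (m0 : PM k) (D : Finset (Fin k))
    (hst : Stage c m0 D) (z : Om k) (hz : (z, m0) ∈ MM m0) (I : Set (Wd k)) (b : ℝ) :
    IsClosed (Gs c m0 z I b) := by
  have hF : IsClosed {z' : Om k | (z', m0) ∈ MM m0} :=
    (hMMB k m0).1.preimage (by fun_prop : Continuous fun z' : Om k => (z', m0))
  have h : Gs c m0 z I b = {z' | (z', m0) ∈ MM m0} ∩
      ⋂ Q ∈ I, ({z' | (z', m0) ∈ MM m0} ∩ (fun z' => dd c m0 Q z' z m0) ⁻¹' Iic b) := by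
    ext z'
    simp only [Gs, mem_ofPred_eq, mem_inter_iff, mem_iInter, mem_preimage, mem_Iic]
    exact ⟨fun h => ⟨h.1, fun Q hQ => ⟨h.1, h.2 Q hQ⟩⟩, fun h => ⟨h.1, fun Q hQ => (h.2 Q hQ).2⟩⟩
  rw [h]
  refine hF.inter (isClosed_biInter fun Q _ => ?_)
  exact (contOn hDDC c m0 D hst z hz Q).preimage_isClosed_of_isClosed hF isClosed_Iic

/-- the section over `u` has measure at least `m0 [P]`, also close to `z` -/
theorem section_ge (hPMB : S_PMB) (hCLP : S_CLP) (hSUP : S_SUP) (hMMB : S_MMB) (hNPB : S_NPB)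
    (hDDC : S_DDC) (hDDA : S_DDA) (hTHB : S_THB) (hZS2 : S_ZS2)
    (c : Om k) (m0 : PM k) (D : Finset (Fin k)) (hst : Stage c m0 D) (z : Om k)
    (hz : ZS c m0 z) (I : Set (Wd k)) (ε : ℝ) (P : Wd k)
    (hP : ∀ g ∈ cyl P 0, (g, m0) ∈ MM m0 → ∀ Q ∈ I, dd c m0 Q g z m0 ≤ ε)
    (u : Om k) (hu : u ∈ cyl P 0) (huM : (u, m0) ∈ MM m0) :
    m0 (cyl P 0) ≤ m0 ({z' | (u, z', m0) ∈ NP c m0 P} ∩ Gs c m0 z I (2 * ε)) := by
  obtain ⟨hPM1, -, hPM3, -, hPM5⟩ := hPMB k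
  obtain ⟨hNPc, -, hNP3, -, -, -⟩ := hNPB k c m0 P
  obtain ⟨hSc, hS1, -, -, -, -, -, -⟩ := hSUP k m0
  obtain ⟨hMc, hMi, hMs, -⟩ := hMMB k m0
  obtain ⟨hTi, -, hTc⟩ := hTHB k c m0
  obtain ⟨hTc, -⟩ := hTc D hst
  obtain ⟨hzs, -, hM1⟩ := hZS2 k c m0 D hst z hz
  have hzM : (z, m0) ∈ MM m0 := hMs z hzs
  set A : Set (Om k) := {z' | (u, z', m0) ∈ NP c m0 P} ∩ Gs c m0 z I (2 * ε) with hAdef
  have hAc : IsClosed A :=
    (hNPc.preimage (by fun_prop : Continuous fun z' : Om k => (u, z', m0))).inter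
      (Gs_closed hMMB hDDC c m0 D hst z hzM I (2 * ε))
  by_contra hlt
  rw [not_le] at hlt
  obtain ⟨C, hC, hAC, hCm⟩ := hCLP k m0 A _ hAc hlt
  -- the ultrafilter
  have ht : (u, Th c m0 (u, m0)) ∈ omg (c, Th c m0 (z, m0)) := hM1 ⟨m0, huM, rfl⟩
  have hmcp : MapClusterPt (u, Th c m0 (u, m0)) atTop
      (fun x : ℕ => sh (x : ℤ) (c, Th c m0 (z, m0))) := by
    rw [mapClusterPt_iff_frequently]
    intro V hV
    rw [frequently_atTop]
    intro N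
    obtain ⟨n, hn, hnV⟩ := ht V hV N
    exact ⟨n, hn, hnV⟩
  rw [mapClusterPt_iff_ultrafilter] at hmcp
  obtain ⟨𝓤, hUat, hUt⟩ := hmcp
  rw [nhds_prod_eq, tendsto_prod_iff'] at hUt
  obtain ⟨hUc, hUv⟩ := hUt
  have hUc' : Tendsto (fun x : ℕ => (sh (x : ℤ) c : Om k)) 𝓤 (𝓝 u) := hUc
  have hUv' : Tendsto (fun x : ℕ => Th c m0 (sh (x : ℤ) z, sh (x : ℤ) m0)) 𝓤
      (𝓝 (Th c m0 (u, m0))) := by
    refine hUv.congr fun x => ?_
    exact (hTi (x : ℤ) (z, m0)).symm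
  have hUm : Tendsto (fun x : ℕ => (sh (x : ℤ) m0 : PM k)) 𝓤 (𝓝 m0) := by
    refine hPM5 m0 (map (fun x : ℕ => (sh (x : ℤ) m0 : PM k)) 𝓤) fun w => ?_
    have h1 := (tendsto_pi_nhds.1 ((tendsto_pi_nhds.1 hUv') (Sum.inl w))) 0
    rw [tendsto_subtype_rng] at h1
    rw [tendsto_map'_iff]
    exact NNReal.tendsto_coe.1 h1
  -- eventually `T^x` maps the cylinder into `C`
  have hev : ∀ᶠ x : ℕ in 𝓤, ∀ g ∈ cyl P 0 ∩ supp m0, (sh (x : ℤ) g : Om k) ∈ C := by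
    by_contra hcon
    have hcon' := Ultrafilter.eventually_not.2 hcon
    have hcon2 : ∀ᶠ x : ℕ in 𝓤, ∃ g, g ∈ cyl P 0 ∩ supp m0 ∧ (sh (x : ℤ) g : Om k) ∉ C := by
      refine hcon'.mono fun x hx => ?_
      by_contra h
      exact hx fun g hg => by_contra fun h2 => h ⟨g, hg, h2⟩
    classical
    set g : ℕ → Om k := fun x => if h : ∃ g, g ∈ cyl P 0 ∩ supp m0 ∧
      (sh (x : ℤ) g : Om k) ∉ C then h.choose else z with hgdef
    have hg : ∀ᶠ x : ℕ in 𝓤, g x ∈ cyl P 0 ∩ supp m0 ∧ (sh (x : ℤ) (g x) : Om k) ∉ C := by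
      refine hcon2.mono fun x hx => ?_
      simp only [hgdef, dif_pos hx]
      exact hx.choose_spec
    obtain ⟨z1, -, hz1⟩ := isCompact_univ.ultrafilter_le_nhds
      (𝓤.map (fun x : ℕ => (sh (x : ℤ) (g x) : Om k))) (by simp)
    obtain ⟨z2, -, hz2⟩ := isCompact_univ.ultrafilter_le_nhds
      (𝓤.map (fun x : ℕ => (sh (x : ℤ) z : Om k))) (by simp)
    have hz1' : Tendsto (fun x : ℕ => (sh (x : ℤ) (g x) : Om k)) 𝓤 (𝓝 z1) := hz1
    have hz2' : Tendsto (fun x : ℕ => (sh (x : ℤ) z : Om k)) 𝓤 (𝓝 z2) := hz2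
    -- `z1` is in the relation
    have hz1C : z1 ∉ C := by
      have : z1 ∈ Cᶜ := hC.compl.isClosed.mem_of_tendsto hz1' (hg.mono fun x hx => hx.2)
      exact this
    have hNP : (u, z1, m0) ∈ NP c m0 P := by
      refine ⟨huM, fun V hV N => ?_⟩
      have h1 : Tendsto (fun x : ℕ => ((sh (x : ℤ) c : Om k), (sh (x : ℤ) (g x) : Om k),
          (sh (x : ℤ) m0 : PM k))) 𝓤 (𝓝 (u, z1, m0)) :=
        hUc'.prodMk_nhds (hz1'.prodMk_nhds hUm)
      have h1V : ∀ᶠ x : ℕ in 𝓤, ((sh (x : ℤ) c : Om k), (sh (x : ℤ) (g x) : Om k),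
          (sh (x : ℤ) m0 : PM k)) ∈ V := h1 hV
      have hNx : ∀ᶠ x : ℕ in 𝓤, N ≤ x := hUat (eventually_ge_atTop N)
      obtain ⟨x, ⟨hx1, hx2⟩, hx3⟩ := ((h1V.and hg).and hNx).exists
      exact ⟨x, hx3, g x, hx2.1, hx1⟩
    have hz1M : (z1, m0) ∈ MM m0 := (hNP3 u z1 m0 hNP).2
    have hz2M : (z2, m0) ∈ MM m0 := by
      have h1 : Tendsto (fun x : ℕ => ((sh (x : ℤ) z : Om k), (sh (x : ℤ) m0 : PM k))) 𝓤
          (𝓝 (z2, m0)) := hz2'.prodMk_nhds hUm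
      exact hMc.mem_of_tendsto h1 (Eventually.of_forall fun x => hMi (x : ℤ) (z, m0) hzM)
    have hTh : Th c m0 (z2, m0) = Th c m0 (u, m0) := by
      have h1 : Tendsto (fun x : ℕ => ((sh (x : ℤ) z : Om k), (sh (x : ℤ) m0 : PM k))) 𝓤
          (𝓝 (z2, m0)) := hz2'.prodMk_nhds hUm
      have h2 : Tendsto (fun x : ℕ => ((sh (x : ℤ) z : Om k), (sh (x : ℤ) m0 : PM k))) 𝓤
          (𝓝[MM m0] (z2, m0)) :=
        tendsto_nhdsWithin_iff.2 ⟨h1, Eventually.of_forall fun x => hMi (x : ℤ) (z, m0) hzM⟩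
      have h3 := (hTc (z2, m0) hz2M).tendsto.comp h2
      exact tendsto_nhds_unique h3 hUv'
    refine hz1C (hAC ⟨hNP, hz1M, fun Q hQ => ?_⟩)
    obtain ⟨-, hD2, hD3, hD4, -, hD6⟩ := hDDA k c m0 Q
    -- the distance of `z1` and `z2`
    have h12 : dd c m0 Q z1 z2 m0 ≤ ε := by
      have hcont := hDDC k c m0 D Q hst
      have h1 : Tendsto (fun x : ℕ => ((sh (x : ℤ) (g x) : Om k), (sh (x : ℤ) z : Om k),
          (sh (x : ℤ) m0 : PM k))) 𝓤 (𝓝[{q | (q.1, q.2.2) ∈ MM m0 ∧ (q.2.1, q.2.2) ∈ MM m0}]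
            (z1, z2, m0)) := by
        refine tendsto_nhdsWithin_iff.2 ⟨hz1'.prodMk_nhds (hz2'.prodMk_nhds hUm), ?_⟩
        refine hg.mono fun x hx => ⟨?_, ?_⟩
        · exact hMi (x : ℤ) (g x, m0) (hMs _ hx.1.2)
        · exact hMi (x : ℤ) (z, m0) hzM
      have h2 := (hcont (z1, z2, m0) ⟨hz1M, hz2M⟩).tendsto.comp h1
      refine le_of_tendsto h2 (hg.mono fun x hx => ?_)
      have h3 : dd c m0 Q (sh (x : ℤ) (g x)) (sh (x : ℤ) z) (sh (x : ℤ) m0) =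
          dd c m0 Q (g x) z m0 := hD4 (x : ℤ) (g x) z m0
      change dd c m0 Q (sh (x : ℤ) (g x)) (sh (x : ℤ) z) (sh (x : ℤ) m0) ≤ ε
      rw [h3]
      exact hP (g x) hx.1.1 (hMs _ hx.1.2) Q hQ
    have h2u : dd c m0 Q z2 u m0 = 0 := hD6 z2 u m0 hTh
    have huz : dd c m0 Q u z m0 ≤ ε := hP u hu huM Q hQ
    have t1 := hD3 z1 z2 z m0
    have t2 := hD3 z2 u z m0
    linarith
  have hVm : ∀ᶠ x : ℕ in 𝓤, (sh (x : ℤ) m0 : PM k) C < m0 (cyl P 0) := by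
    have h1 : {m : PM k | m C < m0 (cyl P 0)} ∈ 𝓝 m0 :=
      (isOpen_Iio.preimage (hPM3 C hC)).mem_nhds hCm
    exact hUm h1
  obtain ⟨x, hx1, hx2⟩ := (hev.and hVm).exists
  rw [hPM1 m0 (x : ℤ) C hC.isClosed.measurableSet] at hx2
  have h2 : m0 (cyl P 0) ≤ m0 {z | sh (x : ℤ) z ∈ C} :=
    le_trans (inter_full m0 (cyl P 0) (supp m0) hSc.measurableSet hS1)
      (m0.apply_mono fun g hg => hx1 g hg)
  exact absurd (lt_of_le_of_lt h2 hx2) (lt_irrefl _)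

/-- Fubini: a closed relation with sections of positive measure over a set of positive measure
has a dual section of positive measure over a point of the support -/
theorem fub (hSUP : S_SUP) (m : PM k) (P : Set (Om k))
    (E : Set (Om k × Om k)) (hE : MeasurableSet E) (hP : 0 < m P)
    (h : ∀ u ∈ P ∩ supp m, 0 < m {z | (u, z) ∈ E}) :
    ∃ z ∈ supp m, 0 < m {u | (u, z) ∈ E} := by
  obtain ⟨hSc, hS1, -, -, -, -, -, -⟩ := hSUP k m
  set μ : Measure (Om k) := (m : Measure (Om k)) with hμ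
  have hco : ∀ B : Set (Om k), μ B = ((m B : ℝ≥0) : ENNReal) := fun B => by simp [hμ]
  have hz : ∀ B : Set (Om k), μ B = 0 ↔ ¬ 0 < m B := fun B => by
    rw [hco, not_lt, nonpos_iff_eq_zero]; exact_mod_cast Iff.rfl
  by_contra hcon
  have hcon' : ∀ z ∈ supp m, μ {u | (u, z) ∈ E} = 0 := fun z hz' =>
    (hz _).2 fun h' => hcon ⟨z, hz', h'⟩
  have hsm : μ (supp m)ᶜ = 0 := by
    have h1 := MeasureTheory.prob_compl_eq_zero_iff (μ := μ) hSc.measurableSet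
    refine h1.2 ?_
    rw [hco, hS1]; simp
  -- the swapped relation is null
  have hE' : MeasurableSet (Prod.swap ⁻¹' E) := measurable_swap hE
  have hnull : (μ.prod μ) (Prod.swap ⁻¹' E) = 0 := by
    rw [Measure.measure_prod_null hE']
    rw [Filter.eventuallyEq_iff_exists_mem]
    refine ⟨supp m, ?_, fun z hz' => ?_⟩
    · rw [mem_ae_iff]; exact hsm
    · exact hcon' z hz'
  have hnull2 : (μ.prod μ) E = 0 := by
    have h1 : (Measure.map Prod.swap (μ.prod μ)) E = (μ.prod μ) (Prod.swap ⁻¹' E) :=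
      Measure.map_apply measurable_swap hE
    rw [Measure.prod_swap] at h1
    rw [h1, hnull]
  rw [Measure.measure_prod_null hE] at hnull2
  have h2 : μ {u | ¬ (μ (Prod.mk u ⁻¹' E) = 0)} = 0 := hnull2
  have h3 : P ∩ supp m ⊆ {u | ¬ (μ (Prod.mk u ⁻¹' E) = 0)} := fun u hu h' =>
    (hz _).1 h' (h u hu)
  have h4 : μ (P ∩ supp m) = 0 := measure_mono_null h3 h2
  have h5 : m P ≤ m (P ∩ supp m) := inter_full m P (supp m) hSc.measurableSet hS1
  exact (hz _).1 h4 (lt_of_lt_of_le hP h5)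

end I_ZNA

open I_ZNA in
theorem ZNA_pf (hCYL : S_CYL) (hPMB : S_PMB) (hCLP : S_CLP) (hSUP : S_SUP) (hMMB : S_MMB)
    (hNPB : S_NPB) (hDDC : S_DDC) (hDDA : S_DDA) (hTHB : S_THB) (hZS2 : S_ZS2) : S_ZNA := by
  intro k c m0 D hst hII z hz U hU
  obtain ⟨hzs, -, -⟩ := hZS2 k c m0 D hst z hz
  obtain ⟨hMc, -, hMs, -⟩ := hMMB k m0
  have hzM : (z, m0) ∈ MM m0 := hMs z hzs
  obtain ⟨hcl, -, hself, -, hbas, -, -⟩ := hCYL k
  obtain ⟨I, hI, ε, hε, hIU⟩ := near hCYL hDDA c m0 z U hU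
  -- a neighbourhood of `z` on which the pseudometrics are small
  have hN : ∃ N ∈ 𝓝 z, ∀ g ∈ N, (g, m0) ∈ MM m0 → ∀ Q ∈ I, dd c m0 Q g z m0 ≤ ε := by
    have h1 : ∀ Q ∈ I, ∀ᶠ g in 𝓝[{z' | (z', m0) ∈ MM m0}] z, dd c m0 Q g z m0 ≤ ε := by
      intro Q _
      have h2 := contOn hDDC c m0 D hst z hzM Q z hzM
      have h3 : Iic ε ∈ 𝓝 (dd c m0 Q z z m0) := by
        rw [(hDDA k c m0 Q).1 z m0]
        exact Iic_mem_nhds hε
      exact h2 h3
    have h4 := (Filter.eventually_all_finite hI).2 h1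
    rw [eventually_nhdsWithin_iff] at h4
    exact ⟨_, h4, fun g hg hgM Q hQ => hg hgM Q hQ⟩
  obtain ⟨N, hNz, hN2⟩ := hN
  obtain ⟨L, hL⟩ := hbas z N hNz
  obtain ⟨P, hPs, hPp, hPb⟩ := hII (wordOf z L) (((hSUP k m0).2.2.2.1 z).1 hzs L)
  obtain ⟨r, hr, -⟩ := id hPb
  have hP : ∀ g ∈ cyl P 0, (g, m0) ∈ MM m0 → ∀ Q ∈ I, dd c m0 Q g z m0 ≤ ε :=
    fun g hg hgM => hN2 g (hL L le_rfl (hPs hg)) hgM
  set E : Set (Om k × Om k) := {p | p.1 ∈ cyl P 0 ∧ (p.1, p.2, m0) ∈ NP c m0 P ∧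
    p.2 ∈ Gs c m0 z I (2 * ε)} with hE
  have hEc : IsClosed E := by
    have e1 : IsClosed {p : Om k × Om k | p.1 ∈ cyl P 0} :=
      (hcl P 0).isClosed.preimage continuous_fst
    have e2 : IsClosed {p : Om k × Om k | (p.1, p.2, m0) ∈ NP c m0 P} :=
      (hNPB k c m0 P).1.preimage (by fun_prop :
        Continuous fun p : Om k × Om k => (p.1, p.2, m0))
    have e3 : IsClosed {p : Om k × Om k | p.2 ∈ Gs c m0 z I (2 * ε)} :=
      (Gs_closed hMMB hDDC c m0 D hst z hzM I (2 * ε)).preimage continuous_snd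
    exact e1.inter (e2.inter e3)
  obtain ⟨z', hz's, hz'E⟩ := fub hSUP m0 (cyl P 0) E
    hEc.measurableSet hPp fun u hu => by
      have h1 := section_ge hPMB hCLP hSUP hMMB hNPB hDDC hDDA hTHB hZS2 c m0 D hst z hz I ε P hP
        u hu.1 (hMs u hu.2)
      refine lt_of_lt_of_le hPp (h1.trans (m0.apply_mono fun w hw => ?_))
      exact ⟨hu.1, hw.1, hw.2⟩
  refine ⟨P, r, hPp, hPb, hr, z', hz's, ?_, ?_⟩
  · refine hIU z' fun Q hQ => ?_
    have hne : {u | (u, z') ∈ E}.Nonempty := by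
      by_contra h
      rw [not_nonempty_iff_eq_empty] at h
      rw [h] at hz'E
      simp at hz'E
    obtain ⟨u, hu⟩ := hne
    exact hu.2.2.2 Q hQ
  · refine lt_of_lt_of_le hz'E (m0.apply_mono fun u hu => ?_)
    exact ⟨hu.1, hu.2.1⟩

end Pool.Agent.Work.MP_69fea5_lc.AK
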