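import Pool.Agent.Work.MP_69fea5_lc.AK.Stmts

/-!
# Block [69fea5 ALLK], item ZNB: zones near the base point
-/

set_option autoImplicit false

namespace Pool.Agent.Work.MP_69fea5_lc.AK

open MeasureTheory Topology Set Filter
open scoped NNReal

/-- [ZNB] zones near the base point. -/
theorem ZNB_pf (hCYL : S_CYL) (hSUP : S_SUP) (hSTG : S_STG) (hMMB : S_MMB) (hPSI : S_PSI)
    (hTHB : S_THB) (hZNA : S_ZNA) : S_ZNB := by
  intro k c m0 D hst hII z hz U hU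
  obtain ⟨P, r, hpos, hbl, hmid, z', hz', hTh, hpsi⟩ :=
    hZNA k c m0 D hst hII z hz (interior U) (interior_mem_nhds.2 hU)
  obtain ⟨-, -, -, hsuppMM, hD⟩ := hSTG k c m0 D hst
  have hrD : r ∈ D := by
    by_contra hr
    have h1 : cyl P 0 ⊆ {y : Om k | y 0 ∉ D} := by
      intro y hy
      have h2 : y 0 = r := (hCYL k).2.2.2.2.2.2 P r hmid hy
      change y 0 ∉ D
      rw [h2]
      exact hr
    have h3 : m0 (cyl P 0) ≤ m0 {y : Om k | y 0 ∉ D} := m0.apply_mono h1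
    rw [hD] at h3
    exact absurd hpos (not_lt.2 h3)
  refine ⟨r, hrD, ?_⟩
  have hmem : (z', m0) ∈ MM m0 := (hMMB k m0).2.2.1 z' hz'
  -- continuity of `Th` at `(z', m0)`
  have hT : ContinuousWithinAt (Th c m0) (MM m0) (z', m0) :=
    ((hTHB k c m0).2.2 D hst).1 (z', m0) hmem
  have h1 : ∀ᶠ p in 𝓝[MM m0] (z', m0), Th c m0 p ∈ interior U :=
    hT (isOpen_interior.mem_nhds hTh)
  -- persistence of positivity
  have hP : ContinuousWithinAt (fun p : Om k × PM k => p.2 (cyl P 0 ∩ AP c m0 P p.1 p.2))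
      (MM m0) (z', m0) :=
    hPSI k c m0 D P hst (cyl P 0) ((hCYL k).1 P 0) (z', m0) hmem
  have h2 : ∀ᶠ p in 𝓝[MM m0] (z', m0), 0 < p.2 (cyl P 0 ∩ AP c m0 P p.1 p.2) :=
    hP (isOpen_Ioi.mem_nhds hpsi)
  have h3 := h1.and h2
  rw [eventually_nhdsWithin_iff, nhds_prod_eq] at h3
  obtain ⟨pa, ha, pb, hb, hab⟩ := eventually_prod_iff.1 h3
  have h4 : ∀ᶠ m' in 𝓝 m0, ({y | pa y} ∩ supp m').Nonempty :=
    (hSUP k m0).2.2.2.2.2.2.2 z' hz' {y | pa y} ha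
  obtain ⟨n, ⟨hn1, hn2⟩, hRb⟩ := hst.rob _ (hb.and h4)
  obtain ⟨y, hya, hys⟩ := hn2
  have horb : sh n m0 ∈ orb m0 := subset_closure ⟨n, rfl⟩
  have hyM : (y, sh n m0) ∈ MM m0 := hsuppMM _ horb y hys
  obtain ⟨h5, h6⟩ := hab hya hn1 hyM
  refine ⟨(y, sh n m0), hyM, interior_subset h5, ⟨P, hbl, hmid, ?_⟩, sh n m0, fun w j => rfl, hRb⟩
  change (0 : unitInterval) < toI (sh n m0) (cyl P 0 ∩ AP c m0 P y (sh n m0))
  rw [← Subtype.coe_lt_coe]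
  change (0 : ℝ) < ((sh n m0 (cyl P 0 ∩ AP c m0 P y (sh n m0)) : ℝ≥0) : ℝ)
  exact_mod_cast h6

end Pool.Agent.Work.MP_69fea5_lc.AK
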