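import Pool.Agent.Work.MP_69fea5_lc.AK.Stmts

/-!
# [ZNO] zones are relatively open and their colours are in `D.erase r`
-/

set_option autoImplicit false

namespace Pool.Agent.Work.MP_69fea5_lc.AK

open MeasureTheory Topology Set Filter
open scoped NNReal

namespace I_ZNO

variable {k : ℕ}

/-- `unitInterval → ℝ≥0` -/
noncomputable def ph (t : unitInterval) : ℝ≥0 := Real.toNNReal (t : ℝ)

theorem ph_cont : Continuous ph := continuous_real_toNNReal.comp continuous_subtype_val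

theorem ph_toI (m : PM k) (B : Set (Om k)) : ph (toI m B) = m B := by
  unfold ph toI
  simp

theorem toI_pos {m : PM k} {B : Set (Om k)} (h : 0 < toI m B) : 0 < m B := by
  have h1 : ((0 : unitInterval) : ℝ) < (toI m B : ℝ) := h
  have h2 : (0 : ℝ) < ((m B : ℝ≥0) : ℝ) := by simpa [toI] using h1
  exact_mod_cast h2

/-- the measure is determined by the coordinates -/
theorem eq_of_coord (hPMB : S_PMB) {c : Om k} {m0 : PM k} {p : Om k × PM k} {m : PM k}
    (h : ∀ w n, Th c m0 p (.inl w) n = toI m (cyl w n)) : p.2 = m := by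
  refine (hPMB k).2.2.2.1 _ _ fun w => ?_
  have h1 := h w 0
  have h2 : toI p.2 (cyl w 0) = toI m (cyl w 0) := h1
  rw [← ph_toI p.2, ← ph_toI m, h2]

/-- points with `Th p'` close to `Th p` have measures close to `p.2` -/
theorem near (hPMB : S_PMB) (c : Om k) (m0 : PM k) (p : Om k × PM k) {U : Set (PM k)}
    (hU : U ∈ 𝓝 p.2) : ∃ V ∈ 𝓝 (Th c m0 p), ∀ p', Th c m0 p' ∈ V → p'.2 ∈ U := by
  have h := (hPMB k).2.2.2.2 p.2
    (Filter.map (fun p' : Om k × PM k => p'.2) (Filter.comap (Th c m0) (𝓝 (Th c m0 p))))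
    (fun w => by
      rw [Filter.tendsto_map'_iff]
      have e : ((fun m' : PM k => m' (cyl w 0)) ∘ fun p' : Om k × PM k => p'.2) =
          (fun v : Cube (Ix k) => ph (v (.inl w) 0)) ∘ Th c m0 := by
        funext p'
        exact (ph_toI p'.2 (cyl w 0)).symm
      rw [e]
      have e2 : p.2 (cyl w 0) = (fun v : Cube (Ix k) => ph (v (.inl w) 0)) (Th c m0 p) :=
        (ph_toI p.2 (cyl w 0)).symm
      rw [e2]
      have hc : Continuous fun v : Cube (Ix k) => ph (v (.inl w) 0) :=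
        ph_cont.comp ((continuous_apply 0).comp (continuous_apply (Sum.inl w)))
      exact (hc.tendsto _).comp Filter.tendsto_comap)
  have h2 := h hU
  rw [Filter.mem_map, Filter.mem_comap] at h2
  obtain ⟨V, hV, hV2⟩ := h2
  exact ⟨V, hV, fun p' hp' => hV2 hp'⟩

/-- `ZN` at a point of the image of `Th` -/
theorem zn_iff (hPMB : S_PMB) {c : Om k} {m0 : PM k} {D : Finset (Fin k)} {r : Fin k}
    {p : Om k × PM k} : ZN c m0 D r (Th c m0 p) ↔
      (∃ P, Blocked c m0 P ∧ mid P = some r ∧ 0 < Th c m0 p (.inr (P, P)) 0) ∧ Rb D p.2 := by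
  constructor
  · rintro ⟨h1, m, hm, hr⟩
    refine ⟨h1, ?_⟩
    rw [eq_of_coord hPMB hm]
    exact hr
  · rintro ⟨h1, hr⟩
    exact ⟨h1, p.2, fun w n => rfl, hr⟩

end I_ZNO

open I_ZNO in
theorem ZNO_pf (hORB : S_ORB) (hPMB : S_PMB) (hSUP : S_SUP) (hMMB : S_MMB) (hSTG : S_STG)
    (hBLK : S_BLK) : S_ZNO := by
  intro k c m0 D hst
  obtain ⟨hM, hmin, -, -, -⟩ := hSTG k c m0 D hst
  have horb : ∀ p ∈ MM m0, orb p.2 = orb m0 := fun p hp =>
    (hORB (PM k) p.2).2.2.2.2.1 (orb m0) hmin ((hMMB k m0).2.2.2 p hp)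
  have hopen : ∀ r, ∀ p ∈ MM m0, ZN c m0 D r (Th c m0 p) →
      ∃ V ∈ 𝓝 (Th c m0 p), ∀ p' ∈ MM m0, Th c m0 p' ∈ V → ZN c m0 D r (Th c m0 p') := by
    intro r p hp hz
    rw [zn_iff hPMB] at hz
    obtain ⟨⟨P, hbl, hmid, hpos⟩, U, hU, hUr⟩ := hz
    obtain ⟨V, hV, hVU⟩ := near hPMB c m0 p (interior_mem_nhds.2 hU)
    have hc : Continuous fun v : Cube (Ix k) => v (.inr (P, P)) 0 :=
      (continuous_apply 0).comp (continuous_apply (Sum.inr (P, P)))
    have hV2 : {v : Cube (Ix k) | 0 < v (.inr (P, P)) 0} ∈ 𝓝 (Th c m0 p) :=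
      (isOpen_lt continuous_const hc).mem_nhds hpos
    refine ⟨V ∩ {v : Cube (Ix k) | 0 < v (.inr (P, P)) 0}, Filter.inter_mem hV hV2, ?_⟩
    intro p' hp' hpV
    rw [zn_iff hPMB]
    refine ⟨⟨P, hbl, hmid, hpV.2⟩, interior U, isOpen_interior.mem_nhds (hVU p' hpV.1), ?_⟩
    intro m' hm' hmU
    refine hUr m' ?_ (interior_subset hmU)
    rw [horb p hp, ← horb p' hp']
    exact hm'
  refine ⟨hopen, ?_⟩
  intro r p hp hz
  obtain ⟨V, hV, hVz⟩ := hopen r p hp hz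
  refine ⟨V, hV, ?_⟩
  rintro z v' ⟨m, hm, hv'⟩ hvV
  have hv2 : v' = Th c m0 (z, m) := hv'
  subst hv2
  have hz2 := hVz (z, m) hm hvV
  rw [zn_iff hPMB] at hz2
  obtain ⟨⟨P, hbl, hmid, hpos⟩, U, hU, hUr⟩ := hz2
  have hne : z 0 ≠ r := hBLK k c m0 P r hbl hmid z m (toI_pos hpos)
  refine Finset.mem_erase.2 ⟨hne, ?_⟩
  by_contra hD
  -- approximate `(z, m)` by points of the orbit
  have hcl : ((z, m) : Om k × PM k) ∈ closure {p | ∃ n : ℤ, ∃ z ∈ supp m0,
      p = (sh n z, sh n m0)} := hm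
  have hW : {z' : Om k | z' 0 = z 0} ∈ 𝓝 z := by
    have hc0 : Continuous fun z' : Om k => z' 0 := continuous_apply 0
    have : IsOpen {z' : Om k | z' 0 = z 0} :=
      (isOpen_discrete ({z 0} : Set (Fin k))).preimage hc0
    exact this.mem_nhds rfl
  have hWU : {z' : Om k | z' 0 = z 0} ×ˢ U ∈ 𝓝 ((z, m) : Om k × PM k) := prod_mem_nhds hW hU
  obtain ⟨q, hq1, n, z', hz', rfl⟩ := mem_closure_iff_nhds.1 hcl _ hWU
  have h0 : (sh n z' : Om k) 0 = z 0 := hq1.1
  have hmU : sh n m0 ∈ U := hq1.2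
  have horbm : sh n m0 ∈ orb m := by
    rw [horb (z, m) hm]
    exact (hORB (PM k) m0).2.1 n m0 (hORB (PM k) m0).2.2.1
  have hzero := hUr _ horbm hmU
  have hsup : sh n z' ∈ supp (sh n m0) := (hSUP k m0).2.2.2.2.1 n z' hz'
  have hc0 : Continuous fun z' : Om k => z' 0 := continuous_apply 0
  have hop : IsOpen {z : Om k | z 0 ∉ D} :=
    (isOpen_discrete ({a : Fin k | a ∉ D} : Set (Fin k))).preimage hc0
  have hpos2 := hsup {z : Om k | z 0 ∉ D} hop (by
    change (sh n z' : Om k) 0 ∉ D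
    rw [h0]
    exact hD)
  exact absurd hzero hpos2.ne'

end Pool.Agent.Work.MP_69fea5_lc.AK
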