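import Pool.Agent.Work.MP_69fea5_lc.AK.Stmts

/-!
# Block [69fea5 ALLK], item ZS1: base points exist
-/

set_option autoImplicit false

namespace Pool.Agent.Work.MP_69fea5_lc.AK

open MeasureTheory Topology Set Filter
open scoped NNReal

namespace I_ZS1

variable {k : ℕ}

theorem sh_neg_sh {X : Type*} [TopologicalSpace X] [Sys X] (n : ℤ) (x : X) :
    sh (-n) (sh n x) = x := by
  rw [← sh_add, neg_add_cancel, sh_zero]

/-- the key step: for every neighbourhood of `m0` and every window there is a point of the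
support which agrees with `c` on a far window -/
theorem key (hCYL : S_CYL) (hPMB : S_PMB) (hSUP : S_SUP) (hMMB : S_MMB) (hSTG : S_STG)
    (c : Om k) (m0 : PM k) (D : Finset (Fin k)) (hst : Stage c m0 D) (V : Set (PM k))
    (hV : V ∈ 𝓝 m0) (L : ℕ) :
    ∃ x : ℕ, L ≤ x ∧ sh (x : ℤ) m0 ∈ V ∧
      ∃ g ∈ supp m0, ∀ j : ℤ, |j| ≤ L → g (x + j) = c (x + j) := by
  obtain ⟨hclop, -, hself, hwin, -, -, -⟩ := hCYL k
  obtain ⟨-, -, hcont, -, -⟩ := hPMB k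
  obtain ⟨-, -, hne, hpos, -, -, -, -⟩ := hSUP k m0
  obtain ⟨h, hh⟩ := hne
  have hM : (h, m0) ∈ MM m0 := (hMMB k m0).2.2.1 h hh
  have hO : (h, m0) ∈ omg (c, m0) := (hSTG k c m0 D hst).1 hM
  set W : Set (Om k) := cyl (wordOf h L) 0 with hW
  have hWo : W ∈ 𝓝 h := (hclop (wordOf h L) 0).isOpen.mem_nhds (hself h L)
  have hP : {m : PM k | 0 < m W} ∈ 𝓝 m0 := by
    have h1 : IsOpen {m : PM k | 0 < m W} :=
      isOpen_lt continuous_const (hcont W (hclop (wordOf h L) 0))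
    exact h1.mem_nhds ((hpos h).1 hh L)
  have hnb : W ×ˢ (V ∩ {m : PM k | 0 < m W}) ∈ 𝓝 (h, m0) :=
    prod_mem_nhds hWo (inter_mem hV hP)
  obtain ⟨x, hx, hxU⟩ := hO _ hnb L
  rw [sh_prod] at hxU
  obtain ⟨hcW, hmV, hmP⟩ := hxU
  have hcW' : sh (x : ℤ) c ∈ W := hcW
  have hmP' : 0 < (sh (x : ℤ) m0 : PM k) W := hmP
  obtain ⟨-, -, -, -, hinv, hmeet, -, -⟩ := hSUP k (sh (x : ℤ) m0)
  obtain ⟨z', hz'W, hz's⟩ := hmeet W (hclop (wordOf h L) 0).isOpen hmP'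
  refine ⟨x, hx, hmV, sh (-(x : ℤ)) z', ?_, ?_⟩
  · have h2 := hinv (-(x : ℤ)) z' hz's
    rwa [sh_neg_sh] at h2
  · intro j hj
    have h3 : z' j = h j := (hwin h z' L).1 hz'W j hj
    have h4 : (sh (x : ℤ) c : Om k) j = h j := (hwin h (sh (x : ℤ) c) L).1 hcW' j hj
    have h5 : (sh (-(x : ℤ)) z' : Om k) ((x : ℤ) + j) = z' j := by
      change z' ((x : ℤ) + j + -(x : ℤ)) = z' j
      congr 1
      ring
    have h6 : (sh (x : ℤ) c : Om k) j = c ((x : ℤ) + j) := by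
      change c (j + (x : ℤ)) = c ((x : ℤ) + j)
      rw [add_comm]
    rw [h5, h3, ← h4, h6]

end I_ZS1

theorem ZS1_pf (hCYL : S_CYL) (hPMB : S_PMB) (hSUP : S_SUP) (hMMB : S_MMB) (hSTG : S_STG) :
    S_ZS1 := by
  intro k c m0 D hst
  by_contra hcon
  have hcon' : ∀ z : Om k, ∃ U ∈ 𝓝 z, ∃ V ∈ 𝓝 m0, ∃ L : ℕ, ¬ ∃ x : ℕ, L ≤ x ∧
      sh (x : ℤ) m0 ∈ V ∧ ∃ g ∈ supp m0 ∩ U, ∀ j : ℤ, |j| ≤ L → g (x + j) = c (x + j) := by
    intro z
    have h1 : ¬ ZS c m0 z := fun h => hcon ⟨z, h⟩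
    unfold ZS at h1
    push Not at h1
    obtain ⟨U, hU, V, hV, L, h2⟩ := h1
    refine ⟨U, hU, V, hV, L, ?_⟩
    rintro ⟨x, hx, hxV, g, hg, hgj⟩
    obtain ⟨j, hj, hne⟩ := h2 x hx hxV g hg
    exact hne (hgj j hj)
  choose U hU V hV L hL using hcon'
  obtain ⟨t, -, ht⟩ := (isCompact_univ (X := Om k)).elim_nhds_subcover U (fun z _ => hU z)
  have hVV : (⋂ z ∈ t, V z) ∈ 𝓝 m0 := (Filter.biInter_finset_mem t).2 fun z _ => hV z
  obtain ⟨x, hx, hxV, g, hg, hgj⟩ :=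
    I_ZS1.key hCYL hPMB hSUP hMMB hSTG c m0 D hst _ hVV (t.sup L)
  have hgU : g ∈ ⋃ z ∈ t, U z := ht (mem_univ g)
  obtain ⟨z, hz, hgz⟩ := mem_iUnion₂.1 hgU
  have hLz : L z ≤ t.sup L := Finset.le_sup hz
  refine hL z ⟨x, hLz.trans hx, ?_, g, ⟨hg, hgz⟩, ?_⟩
  · exact mem_iInter₂.1 hxV z hz
  · intro j hj
    exact hgj j (hj.trans (by exact_mod_cast hLz))

end Pool.Agent.Work.MP_69fea5_lc.AK
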