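import Pool.Agent.Work.MP_69fea5_lc.AK.Stmts

/-!
# Block [69fea5 ALLK], item ZS2: over a base point `z` the point `(c, Th (z, m0))` accumulates
at all of `M1`
-/

set_option autoImplicit false

namespace Pool.Agent.Work.MP_69fea5_lc.AK

open MeasureTheory Topology Set Filter
open scoped NNReal

namespace I_ZS2

variable {k : ℕ}

/-- the base point is in the support -/
theorem mem_supp (hSUP : S_SUP) (c : Om k) (m0 : PM k) (z : Om k) (hz : ZS c m0 z) :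
    z ∈ supp m0 := by
  have hcl : IsClosed (supp m0) := (hSUP k m0).1
  rw [← hcl.closure_eq, mem_closure_iff_nhds]
  intro U hU
  obtain ⟨x, -, -, g, hg, -⟩ := hz U hU univ univ_mem 0
  exact ⟨g, hg.2, hg.1⟩

/-- sequences from the definition of a base point -/
theorem seqs (c : Om k) (m0 : PM k) (z : Om k) (hz : ZS c m0 z) :
    ∃ (x : ℕ → ℕ) (g : ℕ → Om k), (∀ n, n ≤ x n) ∧ (∀ n, g n ∈ supp m0) ∧
      (∀ n : ℕ, ∀ j : ℤ, |j| ≤ (n : ℤ) → g n (x n + j) = c (x n + j)) ∧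
      Tendsto g atTop (𝓝 z) ∧ Tendsto (fun n => sh (x n : ℤ) m0) atTop (𝓝 m0) := by
  obtain ⟨U, hU⟩ := (𝓝 z).exists_antitone_basis
  obtain ⟨V, hV⟩ := (𝓝 m0).exists_antitone_basis
  have h : ∀ n : ℕ, ∃ p : ℕ × Om k, n ≤ p.1 ∧ sh (p.1 : ℤ) m0 ∈ V n ∧ p.2 ∈ supp m0 ∩ U n ∧
      ∀ j : ℤ, |j| ≤ (n : ℤ) → p.2 (p.1 + j) = c (p.1 + j) := by
    intro n
    obtain ⟨x, hx, hxV, g, hg, hgj⟩ := hz (U n) (hU.1.mem_of_mem trivial) (V n)
      (hV.1.mem_of_mem trivial) n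
    exact ⟨(x, g), hx, hxV, hg, hgj⟩
  choose p hp1 hp2 hp3 hp4 using h
  refine ⟨fun n => (p n).1, fun n => (p n).2, hp1, fun n => (hp3 n).1, hp4, ?_, ?_⟩
  · exact hU.tendsto fun n => (hp3 n).2
  · exact hV.tendsto fun n => hp2 n

/-- agreement on long windows -/
theorem agree (c : Om k) (x : ℕ → ℕ) (g : ℕ → Om k)
    (h : ∀ n : ℕ, ∀ j : ℤ, |j| ≤ (n : ℤ) → g n (x n + j) = c (x n + j))
    (𝒰 : Filter ℕ) (h𝒰 : 𝒰 ≤ atTop) (q : Om k)
    (hq : Tendsto (fun n => sh (x n : ℤ) c) 𝒰 (𝓝 q)) :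
    Tendsto (fun n => sh (x n : ℤ) (g n)) 𝒰 (𝓝 q) := by
  rw [tendsto_pi_nhds] at hq ⊢
  intro j
  refine (hq j).congr' ?_
  have h1 : ∀ᶠ n : ℕ in 𝒰, |j| ≤ (n : ℤ) := by
    apply h𝒰
    filter_upwards [eventually_ge_atTop j.natAbs] with n hn
    rw [← Int.natCast_natAbs]
    exact_mod_cast hn
  filter_upwards [h1] with n hn
  change c (j + (x n : ℤ)) = g n (j + (x n : ℤ))
  rw [add_comm j, h n j hn]

end I_ZS2

theorem ZS2_pf (hORB : S_ORB) (hOMG : S_OMG) (hSUP : S_SUP) (hMMB : S_MMB)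
    (hDDC : S_DDC) (hDDA : S_DDA) (hTHB : S_THB) : S_ZS2 := by
  intro k c m0 D hst z hz
  have hzs : z ∈ supp m0 := I_ZS2.mem_supp hSUP c m0 z hz
  obtain ⟨hMc, hMi, hMs, -⟩ := hMMB k m0
  obtain ⟨hTeq, -, hTst⟩ := hTHB k c m0
  obtain ⟨hTc, hM1⟩ := hTst D hst
  have hzM : (z, m0) ∈ MM m0 := hMs z hzs
  have hz1 : (z, Th c m0 (z, m0)) ∈ M1 c m0 := ⟨m0, hzM, rfl⟩
  refine ⟨hzs, hz1, ?_⟩
  obtain ⟨x, g, hx, hg, hag, hgz, hxm⟩ := I_ZS2.seqs c m0 z hz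
  -- a cluster point of `sh (x n) c`
  obtain ⟨q, 𝒰, hle, hq⟩ : ∃ (q : Om k) (𝒰 : Ultrafilter ℕ), (𝒰 : Filter ℕ) ≤ atTop ∧
      Tendsto (fun n => sh (x n : ℤ) c) 𝒰 (𝓝 q) := by
    have hU := (isCompact_univ (X := Om k)).ultrafilter_le_nhds
      ((Ultrafilter.of atTop).map (fun n : ℕ => sh (x n : ℤ) c)) (by simp)
    obtain ⟨q, -, hq⟩ := hU
    exact ⟨q, Ultrafilter.of atTop, Ultrafilter.of_le atTop, hq⟩
  have hq2 : Tendsto (fun n => sh (x n : ℤ) (g n)) 𝒰 (𝓝 q) :=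
    I_ZS2.agree c x g hag 𝒰 hle q hq
  have hxm2 : Tendsto (fun n => sh (x n : ℤ) m0) 𝒰 (𝓝 m0) := hxm.mono_left hle
  have hgz2 : Tendsto g 𝒰 (𝓝 z) := hgz.mono_left hle
  have hgM : ∀ n, (g n, m0) ∈ MM m0 := fun n => hMs (g n) (hg n)
  have hsM : ∀ n, (sh (x n : ℤ) (g n), sh (x n : ℤ) m0) ∈ MM m0 := fun n =>
    hMi (x n : ℤ) _ (hgM n)
  have hpair : Tendsto (fun n => (sh (x n : ℤ) (g n), sh (x n : ℤ) m0)) 𝒰 (𝓝 (q, m0)) :=
    hq2.prodMk_nhds hxm2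
  have hqM : (q, m0) ∈ MM m0 :=
    hMc.mem_of_tendsto hpair (Eventually.of_forall hsM)
  -- continuity of `Th`
  have hT1 : Tendsto (fun n => Th c m0 (sh (x n : ℤ) (g n), sh (x n : ℤ) m0)) 𝒰
      (𝓝 (Th c m0 (q, m0))) := by
    refine (hTc (q, m0) hqM).tendsto.comp ?_
    exact tendsto_nhdsWithin_iff.2 ⟨hpair, Eventually.of_forall hsM⟩
  -- the distance tends to zero
  have hdd : ∀ P : Wd k, Tendsto (fun n => dd c m0 P z (g n) m0) 𝒰 (𝓝 0) := by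
    intro P
    have h1 := hDDC k c m0 D P hst
    have h2 : ((z, z, m0) : Om k × Om k × PM k) ∈
        {q : Om k × Om k × PM k | (q.1, q.2.2) ∈ MM m0 ∧ (q.2.1, q.2.2) ∈ MM m0} := ⟨hzM, hzM⟩
    have h3 := h1 _ h2
    have h4 : Tendsto (fun n => ((z, g n, m0) : Om k × Om k × PM k)) 𝒰 (𝓝 (z, z, m0)) :=
      tendsto_const_nhds.prodMk_nhds (hgz2.prodMk_nhds tendsto_const_nhds)
    have h5 : Tendsto (fun n => ((z, g n, m0) : Om k × Om k × PM k)) 𝒰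
        (𝓝[{q : Om k × Om k × PM k | (q.1, q.2.2) ∈ MM m0 ∧ (q.2.1, q.2.2) ∈ MM m0}]
          (z, z, m0)) :=
      tendsto_nhdsWithin_iff.2 ⟨h4, Eventually.of_forall fun n => ⟨hzM, hgM n⟩⟩
    have h6 := h3.tendsto.comp h5
    have h7 : dd c m0 P z z m0 = 0 := (hDDA k c m0 P).1 z m0
    simp only [h7] at h6
    exact h6
  -- `Th` of the shifted base point
  have hT2 : Tendsto (fun n => sh (x n : ℤ) (Th c m0 (z, m0))) 𝒰 (𝓝 (Th c m0 (q, m0))) := by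
    have hTe : ∀ n, sh (x n : ℤ) (Th c m0 (z, m0)) =
        Th c m0 (sh (x n : ℤ) z, sh (x n : ℤ) m0) := by
      intro n
      rw [← hTeq, sh_prod]
    simp only [hTe]
    rw [tendsto_pi_nhds] at hT1 ⊢
    intro i
    have hi := hT1 i
    rw [tendsto_pi_nhds] at hi ⊢
    intro j
    have hij := hi j
    match i with
    | .inl w => exact hij
    | .inr p =>
      rw [tendsto_subtype_rng] at hij ⊢
      have hclo : MeasurableSet (cyl p.2 j) := by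
        have : IsClosed (cyl p.2 j) := by
          have h0 : cyl p.2 j = ⋂ (i : ℕ) (a : Fin k) (_ : p.2[i]? = some a),
              {z : Om k | z (j - ((p.2.length / 2 : ℕ) : ℤ) + i) = a} := by
            ext z
            simp [cyl]
          rw [h0]
          refine isClosed_iInter fun i => isClosed_iInter fun a => isClosed_iInter fun _ => ?_
          exact isClosed_eq (continuous_apply _) continuous_const
        exact this.measurableSet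
      have hle2 : ∀ n, |((sh (x n : ℤ) m0 : PM k)
            (cyl p.2 j ∩ AP c m0 p.1 (sh (x n : ℤ) z) (sh (x n : ℤ) m0)) : ℝ) -
          (sh (x n : ℤ) m0 : PM k)
            (cyl p.2 j ∩ AP c m0 p.1 (sh (x n : ℤ) (g n)) (sh (x n : ℤ) m0))| ≤
          dd c m0 p.1 z (g n) m0 := by
        intro n
        have h8 := (hDDA k c m0 p.1).2.2.2.2.1 (sh (x n : ℤ) z) (sh (x n : ℤ) (g n))
          (sh (x n : ℤ) m0) (cyl p.2 j) hclo
        rwa [(hDDA k c m0 p.1).2.2.2.1 (x n : ℤ) z (g n) m0] at h8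
      have hz0 : Tendsto (fun n => ((sh (x n : ℤ) m0 : PM k)
            (cyl p.2 j ∩ AP c m0 p.1 (sh (x n : ℤ) z) (sh (x n : ℤ) m0)) : ℝ) -
          (sh (x n : ℤ) m0 : PM k)
            (cyl p.2 j ∩ AP c m0 p.1 (sh (x n : ℤ) (g n)) (sh (x n : ℤ) m0))) 𝒰 (𝓝 0) :=
        squeeze_zero_norm (fun n => by rw [Real.norm_eq_abs]; exact hle2 n) (hdd p.1)
      have hsum := hz0.add hij
      rw [zero_add] at hsum
      refine hsum.congr fun n => ?_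
      change ((sh (x n : ℤ) m0 : PM k)
            (cyl p.2 j ∩ AP c m0 p.1 (sh (x n : ℤ) z) (sh (x n : ℤ) m0)) : ℝ) -
          (sh (x n : ℤ) m0 : PM k)
            (cyl p.2 j ∩ AP c m0 p.1 (sh (x n : ℤ) (g n)) (sh (x n : ℤ) m0)) +
          (sh (x n : ℤ) m0 : PM k)
            (cyl p.2 j ∩ AP c m0 p.1 (sh (x n : ℤ) (g n)) (sh (x n : ℤ) m0)) =
          ((sh (x n : ℤ) m0 : PM k)
            (cyl p.2 j ∩ AP c m0 p.1 (sh (x n : ℤ) z) (sh (x n : ℤ) m0)) : ℝ)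
      ring
  -- conclusion
  have hmem : (q, Th c m0 (q, m0)) ∈ M1 c m0 := ⟨m0, hqM, rfl⟩
  have hom : (q, Th c m0 (q, m0)) ∈ omg (c, Th c m0 (z, m0)) := by
    intro U hU N
    have hp : Tendsto (fun n => (sh (x n : ℤ) c, sh (x n : ℤ) (Th c m0 (z, m0)))) 𝒰
        (𝓝 (q, Th c m0 (q, m0))) := hq.prodMk_nhds hT2
    have h9 : ∀ᶠ n in (𝒰 : Filter ℕ), N ≤ x n := by
      apply hle
      filter_upwards [eventually_ge_atTop N] with n hn
      exact hn.trans (hx n)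
    obtain ⟨n, hn1, hn2⟩ := ((hp.eventually hU).and h9).exists
    exact ⟨x n, hn2, hn1⟩
  obtain ⟨hOc, hOi, -⟩ := hOMG (Om k × Cube (Ix k)) (c, Th c m0 (z, m0))
  exact (hORB (Om k × Cube (Ix k)) (c, Th c m0 (z, m0))).2.2.2.2.2.1 _ _ hM1 hOc hOi
    ⟨_, hmem, hom⟩

end Pool.Agent.Work.MP_69fea5_lc.AK
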